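import Pool.Agent.N784.AD.Fam

/-! # Orthogonality of the characters of the ray class group (helper784) -/

set_option autoImplicit false
set_option linter.unusedSectionVars false

open NumberField Module

namespace Pool.Agent.N784.DU

open Pool.Agent.N784.AD
open Pool.Agent.Y767 (Mq Mq_cop Mq_ne_bot Mq_cancel Cls cls cls_eq cls_pi exists_lam card_dual
  finite_dual)
open Pool.Agent.Y773.IQ (Fam tM tM_coe)

open Classical in
lemma dual_sum (G : Type) [CommGroup G] [Finite G] [Fintype (G →* ℂˣ)] (g : G) :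
    ∑ l : G →* ℂˣ, ((l g : ℂˣ) : ℂ) = if g = 1 then (Nat.card G : ℂ) else 0 := by
  split_ifs with h
  · subst h
    simp only [map_one, Units.val_one, Finset.sum_const, nsmul_eq_mul, mul_one]
    rw [Finset.card_univ, ← Nat.card_eq_fintype_card, card_dual]
  · have : NeZero (Monoid.exponent G) := ⟨Monoid.exponent_ne_zero_of_finite⟩
    obtain ⟨l0, hl0⟩ := CommGroup.exists_apply_ne_one_of_hasEnoughRootsOfUnity G ℂ h
    have h1 : ∑ l : G →* ℂˣ, ((l g : ℂˣ) : ℂ) =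
        ((l0 g : ℂˣ) : ℂ) * ∑ l : G →* ℂˣ, ((l g : ℂˣ) : ℂ) := by
      rw [Finset.mul_sum]
      refine (Fintype.sum_equiv (Equiv.mulLeft l0) _ _ fun l => ?_).symm
      simp
    have h2 : ((l0 g : ℂˣ) : ℂ) ≠ 1 := by
      intro h3
      exact hl0 (Units.ext h3)
    have h3 : (1 - ((l0 g : ℂˣ) : ℂ)) * ∑ l : G →* ℂˣ, ((l g : ℂˣ) : ℂ) = 0 := by
      linear_combination h1
    rcases mul_eq_zero.mp h3 with h4 | h4
    · exact absurd (sub_eq_zero.mp h4).symm h2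
    · exact h4

lemma dual_norm (G : Type) [CommGroup G] [Finite G] (l : G →* ℂˣ) (g : G) :
    ‖((l g : ℂˣ) : ℂ)‖ = 1 := by
  have h1 : ((l g : ℂˣ) : ℂ) ^ Nat.card G = 1 := by
    rw [← Units.val_pow_eq_pow_val, ← map_pow, pow_card_eq_one', map_one, Units.val_one]
  exact Complex.norm_eq_one_of_pow_eq_one h1 Nat.card_pos.ne'

section

variable {K : Type} [Field K] [NumberField K]

open Classical in
/-- the sum of the values of the members of the family at an ideal -/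
theorem fam_sum {𝔮 : Ideal (𝓞 K)} (hbot : 𝔮 ≠ ⊥) (htop : 𝔮 ≠ ⊤)
    (Sf : Finset (Ideal (𝓞 K) →*₀ ℂ)) (hSf : ∀ ψ, ψ ∈ Sf ↔ ψ ∈ Fam 𝔮) (x : Mq 𝔮) :
    ‖∑ ψ ∈ Sf, ((tM 𝔮 ψ x : ℂˣ) : ℂ)‖ ≤
      (if cls (pi1 htop) x = 1 then (Nat.card (Cls (pi1 htop)) : ℝ) else 0) + hK K := by
  have := (cls_card_le hbot htop).1
  have hfd := finite_dual (Cls (pi1 htop))
  have := Fintype.ofFinite (Cls (pi1 htop) →* ℂˣ)
  obtain ⟨e, he⟩ : ∃ e : (Cls (pi1 htop) →* ℂˣ) → (Mq 𝔮 →* ℂˣ), ∀ l, e l = l.comp (cls (pi1 htop)) :=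
    ⟨_, fun _ => rfl⟩
  have hinj : Function.Injective e := by
    intro l l' h
    rw [he, he] at h
    refine MonoidHom.ext fun c => ?_
    obtain ⟨𝔞, rfl⟩ := exists_rep hbot htop c
    exact DFunLike.congr_fun h 𝔞
  have hlam : ∀ F ∈ D1 htop, ∃ l, e l = F := by
    intro F hF
    obtain ⟨lam, hlam⟩ := exists_lam (pi1 htop) F 1 (fun a => by
      rw [hF a, MonoidHom.one_apply])
    refine ⟨lam, ?_⟩
    rw [he]
    ext x
    change ((lam (cls (pi1 htop) x) : ℂˣ) : ℂ) = F x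
    rw [hlam x, MonoidHom.one_apply, one_mul]
  choose! g hg using hlam
  obtain ⟨I, hI⟩ : ∃ I : Finset (Cls (pi1 htop) →* ℂˣ), I = Sf.image (fun ψ => g (tM 𝔮 ψ)) :=
    ⟨_, rfl⟩
  have hgi : Set.InjOn (fun ψ => g (tM 𝔮 ψ)) Sf := by
    intro ψ hψ ψ' hψ' h
    have h1 := (hSf ψ).mp hψ
    have h1' := (hSf ψ').mp hψ'
    apply tM_inj hbot htop h1 h1'
    rw [← hg _ (tM_mem htop h1), ← hg _ (tM_mem htop h1')]
    exact congrArg e h
  have h1 : ∑ ψ ∈ Sf, ((tM 𝔮 ψ x : ℂˣ) : ℂ) = ∑ l ∈ I, ((l (cls (pi1 htop) x) : ℂˣ) : ℂ) := by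
    rw [hI, Finset.sum_image hgi]
    refine Finset.sum_congr rfl fun ψ hψ => ?_
    have h2 := hg _ (tM_mem htop ((hSf ψ).mp hψ))
    rw [he] at h2
    have h3 := DFunLike.congr_fun h2 x
    rw [← h3]
    rfl
  have h2 : ∑ l ∈ I, ((l (cls (pi1 htop) x) : ℂˣ) : ℂ) =
      ∑ l : Cls (pi1 htop) →* ℂˣ, ((l (cls (pi1 htop) x) : ℂˣ) : ℂ) -
        ∑ l ∈ Iᶜ, ((l (cls (pi1 htop) x) : ℂˣ) : ℂ) := by
    rw [← Finset.sum_add_sum_compl I]
    ring
  rw [h1, h2, dual_sum]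
  refine (norm_sub_le _ _).trans (add_le_add ?_ ?_)
  · split_ifs
    · rw [Complex.norm_natCast]
    · rw [norm_zero]
  · refine (norm_sum_le _ _).trans ?_
    rw [Finset.sum_congr rfl fun l _ => dual_norm _ l _, Finset.sum_const, nsmul_eq_mul, mul_one]
    have h3 : I.card = (Fam 𝔮).ncard := by
      rw [hI, Finset.card_image_of_injOn hgi, ← Set.ncard_coe_finset]
      congr 1
      ext ψ
      rw [Finset.mem_coe, hSf]
    have h4 : (Iᶜ).card ≤ hK K := by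
      rw [Finset.card_compl, ← Nat.card_eq_fintype_card, card_dual, h3]
      have := Fam_lower hbot htop
      omega
    exact_mod_cast h4

end

end Pool.Agent.N784.DU
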