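import Pool.Agent.N784.AD.Sum

/-! # Sums of Gaussian weights (helper784) -/

set_option autoImplicit false

open Finset

namespace Pool.Agent.N784.DU

open Pool.Agent.N784.AD

/-- sum of the weights over a set with few elements in each dyadic interval -/
theorem ones_sum {α : Type} (P : Finset α) (f : α → ℕ) (hf : ∀ p ∈ P, 1 ≤ f p)
    (A0 A1 : ℝ) (hA0 : 0 ≤ A0) (hA1 : 0 ≤ A1)
    (hc : ∀ X : ℝ, 0 < X → ((P.filter (fun p => (X ≤ (f p : ℝ) ∧ (f p : ℝ) ≤ 2 * X))).card : ℝ) ≤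
      A0 + A1 * X) (u : ℝ) (hu : 0 ≤ u) :
    ∑ p ∈ P, gw u (f p) ≤
      4 * Cg * (u + 1) * (A0 * Real.exp (-u / 2) + A1 * Real.exp (u / 2)) := by
  obtain ⟨J, hJ⟩ : ∃ J : ℕ, J = P.sup (fun p => Nat.log 2 (f p)) + 1 := ⟨_, rfl⟩
  obtain ⟨c, hcd⟩ : ∃ c : ℕ → ℝ, ∀ j, c j = Cg * (u + 1) * (Real.exp (-(j * Real.log 2) / 2) *
      Real.exp (-(3 / 2) * |u - j * Real.log 2|)) := ⟨_, fun _ => rfl⟩
  have hCg : 0 ≤ Cg := by unfold Cg; positivity
  have hc0 : ∀ j, 0 ≤ c j := fun j => by rw [hcd]; positivity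
  have e2 : ∀ j : ℕ, Real.exp (j * Real.log 2) = 2 ^ j := by
    intro j
    rw [mul_comm, Real.exp_mul, Real.exp_log (by norm_num), Real.rpow_natCast]
  have h1 : ∀ p ∈ P, gw u (f p) ≤ c (Nat.log 2 (f p)) := by
    intro p hp
    rw [hcd]
    exact gw_le hu (Nat.pow_log_le_self 2 (by have := hf p hp; omega))
      (Nat.lt_pow_succ_log_self (by norm_num) _)
  refine (Finset.sum_le_sum h1).trans ?_
  have hmaps : ∀ p ∈ P, Nat.log 2 (f p) ∈ range J := by
    intro p hp
    rw [mem_range, hJ]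
    exact Nat.lt_succ_of_le (Finset.le_sup (f := fun p => Nat.log 2 (f p)) hp)
  rw [← Finset.sum_fiberwise_of_maps_to hmaps]
  have h2 : ∀ j ∈ range J, ∑ p ∈ P.filter (fun p => Nat.log 2 (f p) = j), c (Nat.log 2 (f p)) ≤
      (A0 + A1 * 2 ^ j) * c j := by
    intro j _
    have h3 : ∀ p ∈ P.filter (fun p => Nat.log 2 (f p) = j), c (Nat.log 2 (f p)) = c j := by
      intro p hp
      rw [(mem_filter.mp hp).2]
    rw [Finset.sum_congr rfl h3, Finset.sum_const, nsmul_eq_mul]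
    refine mul_le_mul_of_nonneg_right ?_ (hc0 j)
    refine le_trans ?_ (hc (2 ^ j) (by positivity))
    have h4 : P.filter (fun p => Nat.log 2 (f p) = j) ⊆
        P.filter (fun p => ((2 : ℝ) ^ j ≤ (f p : ℝ) ∧ (f p : ℝ) ≤ 2 * 2 ^ j)) := by
      intro p hp
      rw [mem_filter] at hp ⊢
      refine ⟨hp.1, ?_⟩
      have h5 := Nat.pow_log_le_self 2 (x := f p) (by have := hf p hp.1; omega)
      have h6 := Nat.lt_pow_succ_log_self (b := 2) (by norm_num) (f p)
      rw [hp.2] at h5 h6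
      constructor
      · exact_mod_cast h5
      · have : (f p : ℝ) ≤ (2 : ℝ) ^ (j + 1) := by exact_mod_cast h6.le
        rw [pow_succ] at this
        linarith
    exact_mod_cast Finset.card_le_card h4
  refine (Finset.sum_le_sum h2).trans ?_
  have h3 : ∀ j ∈ range J, (A0 + A1 * 2 ^ j) * c j ≤
      (Cg * (u + 1) * (A0 * Real.exp (-u / 2) + A1 * Real.exp (u / 2))) *
        Real.exp (-|u - j * Real.log 2|) := by
    intro j _
    obtain ⟨y, hy⟩ : ∃ y : ℝ, y = j * Real.log 2 := ⟨_, rfl⟩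
    rw [hcd, ← e2 j, ← hy]
    have b1 : Real.exp (-y / 2) * Real.exp (-(3 / 2) * |u - y|) ≤
        Real.exp (-u / 2) * Real.exp (-|u - y|) := by
      rw [← Real.exp_add, ← Real.exp_add]
      refine Real.exp_le_exp.mpr ?_
      have := le_abs_self (u - y)
      linarith
    have b2 : Real.exp y * (Real.exp (-y / 2) * Real.exp (-(3 / 2) * |u - y|)) ≤
        Real.exp (u / 2) * Real.exp (-|u - y|) := by
      rw [← Real.exp_add, ← Real.exp_add, ← Real.exp_add]
      refine Real.exp_le_exp.mpr ?_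
      have := neg_abs_le (u - y)
      linarith
    have hK : 0 ≤ Cg * (u + 1) := by positivity
    calc (A0 + A1 * Real.exp y) * (Cg * (u + 1) * (Real.exp (-y / 2) *
          Real.exp (-(3 / 2) * |u - y|))) =
        (Cg * (u + 1)) * (A0 * (Real.exp (-y / 2) * Real.exp (-(3 / 2) * |u - y|)) +
          A1 * (Real.exp y * (Real.exp (-y / 2) * Real.exp (-(3 / 2) * |u - y|)))) := by ring
      _ ≤ (Cg * (u + 1)) * (A0 * (Real.exp (-u / 2) * Real.exp (-|u - y|)) +
          A1 * (Real.exp (u / 2) * Real.exp (-|u - y|))) := by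
          refine mul_le_mul_of_nonneg_left (add_le_add ?_ ?_) hK
          · exact mul_le_mul_of_nonneg_left b1 hA0
          · exact mul_le_mul_of_nonneg_left b2 hA1
      _ = _ := by ring
  refine (Finset.sum_le_sum h3).trans ?_
  rw [← Finset.mul_sum]
  have h4 := geo_sum u hu J
  have hK : 0 ≤ Cg * (u + 1) * (A0 * Real.exp (-u / 2) + A1 * Real.exp (u / 2)) := by positivity
  calc _ ≤ (Cg * (u + 1) * (A0 * Real.exp (-u / 2) + A1 * Real.exp (u / 2))) * 4 :=
        mul_le_mul_of_nonneg_left h4 hK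
    _ = _ := by ring

end Pool.Agent.N784.DU
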