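import Pool.Agent.N784.DU.Cnt
import Pool.Agent.N784.DU.Sm
import Pool.Agent.N784.DU.Orth
import Pool.Agent.N784.AD.Lsg
import Pool.Agent.N784.AD.Par

/-! # The averaged coefficients (helper784) -/

set_option autoImplicit false
set_option linter.unusedSectionVars false

open NumberField Module

namespace Pool.Agent.N784.DU

open Pool.Agent.N784.AD
open Pool.Agent.Y773 (TPos VM cc)
open Pool.Agent.Y772.DK (NN NN_finite cc_mul)
open Pool.Agent.Y767 (Mq Mq_cop Mq_ne_bot Mq_cancel Cls cls cK)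
open Pool.Agent.Y773.IQ (Fam tM tM_coe IM mem_IM sum_IM mem_NN sum_cc cop_of_norm absNorm_pos')
open ArithmeticFunction (vonMangoldt)

section

variable (K : Type) [Field K] [NumberField K]

/-- the coefficients -/
noncomputable def aS (𝔮 : Ideal (𝓞 K)) (b : ℕ → ℂ) (x : Mq 𝔮) : ℂ :=
  b (Ideal.absNorm (x : Ideal (𝓞 K))) * (VM (x : Ideal (𝓞 K)) : ℂ)

variable {K}

open Classical in
lemma S_eq {𝔮 : Ideal (𝓞 K)} (htop : 𝔮 ≠ ⊤) {ψ : Ideal (𝓞 K) →*₀ ℂ} (hψ : ψ ∈ Fam 𝔮)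
    (M : ℕ) (b : ℕ → ℂ) :
    ∑ m ∈ Finset.Icc 1 M, b m *
      (if m.Prime ∧ Nat.Coprime m (Ideal.absNorm 𝔮) then
      cc ψ m * (vonMangoldt m : ℂ) else 0) =
      ∑ x ∈ SP 𝔮 M, aS K 𝔮 b x * ((tM 𝔮 ψ x : ℂˣ) : ℂ) := by
  obtain ⟨b', hb'⟩ : ∃ b' : ℕ → ℂ, ∀ m, b' m =
    if m.Prime ∧ Nat.Coprime m (Ideal.absNorm 𝔮) then b m else 0 := ⟨_, fun _ => rfl⟩
  have h2 : ∑ x ∈ SP 𝔮 M, aS K 𝔮 b x * ((tM 𝔮 ψ x : ℂˣ) : ℂ) = ∑ x ∈ SP 𝔮 M,
      (fun 𝔞 : Ideal (𝓞 K) => (b' (Ideal.absNorm 𝔞) * (VM 𝔞 : ℂ)) * ψ 𝔞) (x : Ideal (𝓞 K)) := by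
    refine Finset.sum_congr rfl fun x hx => ?_
    rw [tM_coe htop hψ]
    unfold aS
    have h3 : (Ideal.absNorm (x : Ideal (𝓞 K))).Prime ∧
        Nat.Coprime (Ideal.absNorm (x : Ideal (𝓞 K))) (Ideal.absNorm 𝔮) := by
      unfold SP at hx
      rw [Finset.mem_subtype, Finset.mem_filter] at hx
      exact hx.2
    simp only
    rw [hb', if_pos h3]
  rw [h2]
  unfold SP
  refine Eq.trans ?_ (Finset.sum_subtype_eq_sum_filter
    (fun 𝔞 : Ideal (𝓞 K) => (b' (Ideal.absNorm 𝔞) * (VM 𝔞 : ℂ)) * ψ 𝔞)).symm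
  rw [Finset.filter_filter, Finset.sum_filter_of_ne, ← sum_cc]
  · refine Finset.sum_congr rfl fun m _ => ?_
    rw [hb']
    split_ifs <;> simp
  · intro 𝔞 _ hne
    have h3 : (Ideal.absNorm 𝔞).Prime ∧ Nat.Coprime (Ideal.absNorm 𝔞) (Ideal.absNorm 𝔮) := by
      by_contra hcon
      apply hne
      rw [hb', if_neg hcon]
      ring
    exact ⟨h3, cop_of_norm h3.2⟩

lemma aS_le {𝔮 : Ideal (𝓞 K)} (htop : 𝔮 ≠ ⊤) {M : ℕ} {b : ℕ → ℂ} {ω u : ℝ}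
    (hb : ∀ n : ℕ, n.Prime → ‖b n‖ * Real.log n ≤ ω * gw u n) {x : Mq 𝔮} (hx : x ∈ SP 𝔮 M) :
    ‖aS K 𝔮 b x‖ ≤ ω * gw u (Ideal.absNorm (x : Ideal (𝓞 K))) := by
  unfold aS
  rw [norm_mul, Complex.norm_real, Real.norm_of_nonneg (Pool.Agent.Y772.DK.VM_nonneg _)]
  exact (mul_le_mul_of_nonneg_left (Pool.Agent.Y772.DK.VM_le (Mq_ne_bot htop x))
    (norm_nonneg _)).trans (hb _ (prime_of_SP hx).2)

open Classical in
/-- the sum over all prime ideals of degree one -/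
lemma aS_sum (𝔮 : Ideal (𝓞 K)) {M : ℕ} {b : ℕ → ℂ} {ω u : ℝ} (hω : 0 ≤ ω)
    (hu : 0 ≤ u) (hb : ∀ n : ℕ, n.Prime → ‖b n‖ * Real.log n ≤ ω * gw u n) :
    ∑ x ∈ SP 𝔮 M, ‖aS K 𝔮 b x‖ ≤ finrank ℚ K * (ω *
      (4 * Cg * (u + 1) * (Real.exp (-u / 2) + Real.exp (u / 2)))) := by
  obtain ⟨b', hb'⟩ : ∃ b' : ℕ → ℂ, ∀ m, b' m =
    if m.Prime ∧ Nat.Coprime m (Ideal.absNorm 𝔮) then b m else 0 := ⟨_, fun _ => rfl⟩
  have h1 : ∑ x ∈ SP 𝔮 M, ‖aS K 𝔮 b x‖ ≤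
      ∑ 𝔞 ∈ IM K M, ‖b' (Ideal.absNorm 𝔞)‖ * VM 𝔞 := by
    calc ∑ x ∈ SP 𝔮 M, ‖aS K 𝔮 b x‖
        = ∑ x ∈ SP 𝔮 M, (fun 𝔞 : Ideal (𝓞 K) => ‖b' (Ideal.absNorm 𝔞)‖ * VM 𝔞)
            (x : Ideal (𝓞 K)) := by
          refine Finset.sum_congr rfl fun x hx => ?_
          have h3 : (Ideal.absNorm (x : Ideal (𝓞 K))).Prime ∧
              Nat.Coprime (Ideal.absNorm (x : Ideal (𝓞 K))) (Ideal.absNorm 𝔮) := by
            unfold SP at hx
            rw [Finset.mem_subtype, Finset.mem_filter] at hx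
            exact hx.2
          unfold aS
          simp only
          rw [hb', if_pos h3, norm_mul, Complex.norm_real,
            Real.norm_of_nonneg (Pool.Agent.Y772.DK.VM_nonneg _)]
      _ = ∑ 𝔞 ∈ ((IM K M).filter (fun 𝔞 => (Ideal.absNorm 𝔞).Prime ∧
            Nat.Coprime (Ideal.absNorm 𝔞) (Ideal.absNorm 𝔮))).filter (fun 𝔞 => 𝔞 ∈ Mq 𝔮),
            ‖b' (Ideal.absNorm 𝔞)‖ * VM 𝔞 := by
          unfold SP
          exact Finset.sum_subtype_eq_sum_filter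
            (fun 𝔞 : Ideal (𝓞 K) => ‖b' (Ideal.absNorm 𝔞)‖ * VM 𝔞)
      _ ≤ ∑ 𝔞 ∈ IM K M, ‖b' (Ideal.absNorm 𝔞)‖ * VM 𝔞 :=
          Finset.sum_le_sum_of_subset_of_nonneg
            ((Finset.filter_subset _ _).trans (Finset.filter_subset _ _))
            (fun _ _ _ => mul_nonneg (norm_nonneg _) (Pool.Agent.Y772.DK.VM_nonneg _))
  refine h1.trans ?_
  rw [sum_IM]
  have h2 : ∀ m ∈ Finset.Icc 1 M, ∑ 𝔞 ∈ (NN_finite (K := K) m).toFinset,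
      ‖b' (Ideal.absNorm 𝔞)‖ * VM 𝔞 ≤
      (if m.Prime then finrank ℚ K * (ω * gw u m) else 0) := by
    intro m _
    have h3 : ∑ 𝔞 ∈ (NN_finite (K := K) m).toFinset, ‖b' (Ideal.absNorm 𝔞)‖ * VM 𝔞 =
        ‖b' m‖ * ∑ 𝔞 ∈ (NN_finite (K := K) m).toFinset, VM 𝔞 := by
      rw [Finset.mul_sum]
      refine Finset.sum_congr rfl fun 𝔞 h𝔞 => ?_
      have h4 : Ideal.absNorm 𝔞 = m := mem_NN h𝔞
      rw [h4]
    rw [h3, ← finsum_mem_eq_finite_toFinset_sum _ (NN_finite m)]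
    split_ifs with hm
    · refine (mul_le_mul_of_nonneg_left (Pool.Agent.Y772.DK.sum_VM_le m) (norm_nonneg _)).trans ?_
      rw [ArithmeticFunction.vonMangoldt_apply_prime hm]
      have h4 : ‖b' m‖ ≤ ‖b m‖ := by
        rw [hb']
        split_ifs
        · exact le_rfl
        · rw [norm_zero]; exact norm_nonneg _
      have h5 := hb m hm
      have h6 : ‖b' m‖ * Real.log m ≤ ‖b m‖ * Real.log m :=
        mul_le_mul_of_nonneg_right h4 (Real.log_natCast_nonneg _)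
      calc ‖b' m‖ * (finrank ℚ K * Real.log m) = finrank ℚ K * (‖b' m‖ * Real.log m) := by ring
        _ ≤ _ := mul_le_mul_of_nonneg_left (h6.trans h5) (Nat.cast_nonneg _)
    · rw [hb', if_neg (fun h => hm h.1), norm_zero, zero_mul]
  refine (Finset.sum_le_sum h2).trans ?_
  rw [← Finset.sum_filter, ← Finset.mul_sum, ← Finset.mul_sum]
  refine mul_le_mul_of_nonneg_left (mul_le_mul_of_nonneg_left ?_ hω) (Nat.cast_nonneg _)
  have h4 := ones_sum ((Finset.Icc 1 M).filter Nat.Prime) id (fun p hp =>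
    (Finset.mem_Icc.mp (Finset.mem_filter.mp hp).1).1) 1 1 zero_le_one zero_le_one (by
      intro X hX
      have h5 : ((Finset.Icc 1 M).filter Nat.Prime).filter
          (fun p => (X ≤ ((id p : ℕ) : ℝ) ∧ ((id p : ℕ) : ℝ) ≤ 2 * X)) ⊆
          Finset.Icc ⌈X⌉₊ ⌊2 * X⌋₊ := by
        intro p hp
        obtain ⟨-, h6, h7⟩ := Finset.mem_filter.mp hp
        rw [Finset.mem_Icc]
        exact ⟨Nat.ceil_le.mpr h6, Nat.le_floor h7⟩
      have h6 := Finset.card_le_card h5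
      rw [Nat.card_Icc] at h6
      have h7 : ((⌊2 * X⌋₊ + 1 - ⌈X⌉₊ : ℕ) : ℝ) ≤ 1 + 1 * X := by
        have h8 := Nat.floor_le (show 0 ≤ 2 * X by linarith)
        have h9 := Nat.le_ceil X
        rcases le_total ⌈X⌉₊ (⌊2 * X⌋₊ + 1) with h | h
        · rw [Nat.cast_sub h]
          push_cast
          linarith
        · rw [Nat.sub_eq_zero_of_le h]
          push_cast
          linarith
      exact le_trans (by exact_mod_cast h6) h7) u hu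
  simp only [id, one_mul] at h4
  exact h4

end

end Pool.Agent.N784.DU
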