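import Pool.Agent.N784.DU.Avg

/-! # The large sieve for the averaged coefficients (helper784) -/

set_option autoImplicit false
set_option linter.unusedSectionVars false

open NumberField Module

namespace Pool.Agent.N784.DU

open Pool.Agent.N784.AD
open Pool.Agent.Y773 (TPos VM cc)
open Pool.Agent.Y767 (Mq Mq_cop Mq_ne_bot Mq_cancel Cls cls cK)
open Pool.Agent.Y773.IQ (Fam tM tM_coe absNorm_pos')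
open ArithmeticFunction (vonMangoldt)

lemma num_avg {h U N G C1 H d ω u P Q z : ℝ} (hh : 0 ≤ h) (hU : 0 ≤ U) (hN : 1 ≤ N) (hG : 0 ≤ G)
    (hC1 : 0 ≤ C1) (hH : 0 ≤ H) (hd : 0 ≤ d) (hω : 0 ≤ ω) (hu : 0 ≤ u) (hP : 0 ≤ P) (hQ : 0 ≤ Q)
    (hz0 : 0 ≤ z)
    (hz : z ≤ h * (ω * (G * (u + 1) * (C1 * U * P + 2 * C1 * U / N * Q))) +
      H * (d * (ω * (G * (u + 1) * (P + Q))))) :
    2 * z ^ 2 ≤ ω ^ 2 * ((u + 1) ^ 2 * ((32 * G ^ 2 * C1 ^ 2 + 8 * H ^ 2 * d ^ 2 * G ^ 2 + 1) *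
      (h ^ 2 * U ^ 2 + 1) * P ^ 2 + (32 * G ^ 2 * C1 ^ 2 + 8 * H ^ 2 * d ^ 2 * G ^ 2 + 1) *
      (h ^ 2 * U ^ 2 / N ^ 2 + 1) * Q ^ 2)) := by
  obtain ⟨x, hx⟩ : ∃ x : ℝ, x = h * (ω * (G * (u + 1) * (C1 * U * P + 2 * C1 * U / N * Q))) :=
    ⟨_, rfl⟩
  obtain ⟨y, hy⟩ : ∃ y : ℝ, y = H * (d * (ω * (G * (u + 1) * (P + Q)))) := ⟨_, rfl⟩
  rw [← hx, ← hy] at hz
  have hN0 : 0 < N := by linarith
  have h1 : z ^ 2 ≤ (x + y) ^ 2 := pow_le_pow_left₀ hz0 hz 2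
  have h2 : (x + y) ^ 2 ≤ 2 * x ^ 2 + 2 * y ^ 2 := by nlinarith [sq_nonneg (x - y)]
  have h3 : x ^ 2 ≤ ω ^ 2 * (u + 1) ^ 2 * (8 * G ^ 2 * C1 ^ 2 * (h ^ 2 * U ^ 2 * P ^ 2 +
      h ^ 2 * U ^ 2 / N ^ 2 * Q ^ 2)) := by
    have e1 : x ^ 2 = ω ^ 2 * (u + 1) ^ 2 * (G ^ 2 * C1 ^ 2 * (h ^ 2 * U ^ 2)) *
        (P + 2 / N * Q) ^ 2 := by
      rw [hx]; field_simp
    have e2 : (P + 2 / N * Q) ^ 2 ≤ 8 * (P ^ 2 + Q ^ 2 / N ^ 2) := by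
      have e3 : (P + 2 / N * Q) ^ 2 ≤ 2 * P ^ 2 + 2 * (2 / N * Q) ^ 2 := by
        nlinarith [sq_nonneg (P - 2 / N * Q)]
      have e4 : (2 / N * Q) ^ 2 = 4 * (Q ^ 2 / N ^ 2) := by field_simp; ring
      rw [e4] at e3
      have : 0 ≤ P ^ 2 := sq_nonneg _
      linarith
    rw [e1]
    refine (mul_le_mul_of_nonneg_left e2 (by positivity)).trans (le_of_eq ?_)
    field_simp
  have h4 : y ^ 2 ≤ ω ^ 2 * (u + 1) ^ 2 * (2 * H ^ 2 * d ^ 2 * G ^ 2 * (P ^ 2 + Q ^ 2)) := by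
    have e1 : y ^ 2 = ω ^ 2 * (u + 1) ^ 2 * (H ^ 2 * d ^ 2 * G ^ 2) * (P + Q) ^ 2 := by
      rw [hy]; ring
    have e2 : (P + Q) ^ 2 ≤ 2 * (P ^ 2 + Q ^ 2) := by nlinarith [sq_nonneg (P - Q)]
    rw [e1]
    refine (mul_le_mul_of_nonneg_left e2 (by positivity)).trans (le_of_eq ?_)
    ring
  have h5 : 2 * z ^ 2 ≤ ω ^ 2 * (u + 1) ^ 2 * (32 * G ^ 2 * C1 ^ 2 * (h ^ 2 * U ^ 2 * P ^ 2 +
      h ^ 2 * U ^ 2 / N ^ 2 * Q ^ 2) + 8 * H ^ 2 * d ^ 2 * G ^ 2 * (P ^ 2 + Q ^ 2)) := by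
    have e1 : ω ^ 2 * (u + 1) ^ 2 * (32 * G ^ 2 * C1 ^ 2 * (h ^ 2 * U ^ 2 * P ^ 2 +
      h ^ 2 * U ^ 2 / N ^ 2 * Q ^ 2) + 8 * H ^ 2 * d ^ 2 * G ^ 2 * (P ^ 2 + Q ^ 2)) =
      4 * (ω ^ 2 * (u + 1) ^ 2 * (8 * G ^ 2 * C1 ^ 2 * (h ^ 2 * U ^ 2 * P ^ 2 +
      h ^ 2 * U ^ 2 / N ^ 2 * Q ^ 2))) + 4 * (ω ^ 2 * (u + 1) ^ 2 *
        (2 * H ^ 2 * d ^ 2 * G ^ 2 * (P ^ 2 + Q ^ 2))) := by ring
    rw [e1]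
    linarith
  refine h5.trans ?_
  have h6 : ω ^ 2 * ((u + 1) ^ 2 * ((32 * G ^ 2 * C1 ^ 2 + 8 * H ^ 2 * d ^ 2 * G ^ 2 + 1) *
      (h ^ 2 * U ^ 2 + 1) * P ^ 2 + (32 * G ^ 2 * C1 ^ 2 + 8 * H ^ 2 * d ^ 2 * G ^ 2 + 1) *
      (h ^ 2 * U ^ 2 / N ^ 2 + 1) * Q ^ 2)) - ω ^ 2 * (u + 1) ^ 2 * (32 * G ^ 2 * C1 ^ 2 *
      (h ^ 2 * U ^ 2 * P ^ 2 +
      h ^ 2 * U ^ 2 / N ^ 2 * Q ^ 2) + 8 * H ^ 2 * d ^ 2 * G ^ 2 * (P ^ 2 + Q ^ 2)) =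
      ω ^ 2 * (u + 1) ^ 2 * (32 * G ^ 2 * C1 ^ 2 * (P ^ 2 + Q ^ 2) +
        8 * H ^ 2 * d ^ 2 * G ^ 2 * (h ^ 2 * U ^ 2 * P ^ 2 + h ^ 2 * U ^ 2 / N ^ 2 * Q ^ 2) +
        ((h ^ 2 * U ^ 2 + 1) * P ^ 2 + (h ^ 2 * U ^ 2 / N ^ 2 + 1) * Q ^ 2)) := by ring
  have h7 : 0 ≤ ω ^ 2 * (u + 1) ^ 2 * (32 * G ^ 2 * C1 ^ 2 * (P ^ 2 + Q ^ 2) +
        8 * H ^ 2 * d ^ 2 * G ^ 2 * (h ^ 2 * U ^ 2 * P ^ 2 + h ^ 2 * U ^ 2 / N ^ 2 * Q ^ 2) +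
        ((h ^ 2 * U ^ 2 + 1) * P ^ 2 + (h ^ 2 * U ^ 2 / N ^ 2 + 1) * Q ^ 2)) := by positivity
  linarith

lemma EO_mono {A0 A1 B0 B1 u : ℝ} (h0 : A0 ≤ B0) (h1 : A1 ≤ B1) : EO A0 A1 u ≤ EO B0 B1 u := by
  unfold EO
  refine mul_le_mul_of_nonneg_left (add_le_add ?_ ?_) (sq_nonneg _)
  · exact mul_le_mul_of_nonneg_right h0 (Real.exp_pos _).le
  · exact mul_le_mul_of_nonneg_right h1 (Real.exp_pos _).le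

section

variable (K : Type) [Field K] [NumberField K]

open Classical in
/-- **the averaged coefficients** -/
theorem avg_ls : ∃ C : ℝ, 1 ≤ C ∧ ∀ (𝔮 : Ideal (𝓞 K)) (_ : 𝔮 ≠ ⊥) (htop : 𝔮 ≠ ⊤)
    (Sf E : Finset (Ideal (𝓞 K) →*₀ ℂ)), (∀ ψ, ψ ∈ Sf ↔ ψ ∈ Fam 𝔮) → E ⊆ Sf →
    ∀ (M : ℕ) (b : ℕ → ℂ) (ω u : ℝ), 0 ≤ ω → 0 ≤ u →
    (∀ n : ℕ, n.Prime → ‖b n‖ * Real.log n ≤ ω * gw u n) →
    ‖∑ ψ ∈ E, ∑ m ∈ Finset.Icc 1 M, b m * (if m.Prime ∧ Nat.Coprime m (Ideal.absNorm 𝔮) then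
      cc ψ m * (vonMangoldt m : ℂ) else 0)‖ ^ 2 ≤
      2 * ((Sf.card : ℝ) - E.card) * Nat.card (Cls (pi1 htop)) * (∑ m ∈ Finset.Icc 1 M,
          ‖b m‖ ^ 2 * (vonMangoldt m * ‖cK K m‖) ^ 2 +
        ω ^ 2 * EO (C * Un 𝔮) (C * Un 𝔮 / (Ideal.absNorm 𝔮 : ℝ)) u) +
      ω ^ 2 * EO (C * ((Nat.card (Cls (pi1 htop)) : ℝ) ^ 2 * (Un 𝔮 : ℝ) ^ 2 + 1))
        (C * ((Nat.card (Cls (pi1 htop)) : ℝ) ^ 2 * (Un 𝔮 : ℝ) ^ 2 / (Ideal.absNorm 𝔮 : ℝ) ^ 2 +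
          1)) u := by
  obtain ⟨C1, hC1, hcnt⟩ := one_count K
  obtain ⟨C2, hC2, hls⟩ := ls_gw K
  obtain ⟨G, hG⟩ : ∃ G : ℝ, G = 4 * Cg := ⟨_, rfl⟩
  have hG0 : 0 ≤ G := by rw [hG]; unfold Cg; positivity
  obtain ⟨d, hd⟩ : ∃ d : ℝ, d = (finrank ℚ K : ℝ) := ⟨_, rfl⟩
  have hd0 : 0 ≤ d := by rw [hd]; positivity
  obtain ⟨C', hC'⟩ : ∃ C' : ℝ, C' = 32 * G ^ 2 * C1 ^ 2 + 8 * (hK K : ℝ) ^ 2 * d ^ 2 * G ^ 2 + 1 :=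
    ⟨_, rfl⟩
  have hC'0 : 0 ≤ C' := by rw [hC']; positivity
  refine ⟨C2 + C', by linarith, ?_⟩
  intro 𝔮 hbot htop Sf E hSf hE M b ω u hω hu hb
  have hN : (1 : ℝ) ≤ (Ideal.absNorm 𝔮 : ℝ) := by exact_mod_cast absNorm_pos' hbot
  obtain ⟨h, hh⟩ : ∃ h : ℝ, h = (Nat.card (Cls (pi1 htop)) : ℝ) := ⟨_, rfl⟩
  have hh0 : 0 ≤ h := by rw [hh]; positivity
  obtain ⟨S, hS⟩ : ∃ S : (Ideal (𝓞 K) →*₀ ℂ) → ℂ, ∀ ψ, S ψ = ∑ m ∈ Finset.Icc 1 M, b m *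
      (if m.Prime ∧ Nat.Coprime m (Ideal.absNorm 𝔮) then
      cc ψ m * (vonMangoldt m : ℂ) else 0) := ⟨_, fun _ => rfl⟩
  simp only [← hS]
  -- all characters
  have k1 : ‖∑ ψ ∈ Sf, S ψ‖ ≤ h * (ω * (G * (u + 1) * (C1 * Un 𝔮 * Real.exp (-u / 2) +
      2 * C1 * Un 𝔮 / (Ideal.absNorm 𝔮 : ℝ) * Real.exp (u / 2)))) +
      hK K * (d * (ω * (G * (u + 1) * (Real.exp (-u / 2) + Real.exp (u / 2))))) := by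
    have e1 : ∑ ψ ∈ Sf, S ψ = ∑ x ∈ SP 𝔮 M, aS K 𝔮 b x * ∑ ψ ∈ Sf, ((tM 𝔮 ψ x : ℂˣ) : ℂ) := by
      have e2 : ∑ ψ ∈ Sf, S ψ = ∑ ψ ∈ Sf, ∑ x ∈ SP 𝔮 M, aS K 𝔮 b x * ((tM 𝔮 ψ x : ℂˣ) : ℂ) := by
        refine Finset.sum_congr rfl fun ψ hψ => ?_
        rw [hS, S_eq htop ((hSf ψ).mp hψ)]
      rw [e2, Finset.sum_comm]
      exact Finset.sum_congr rfl fun x _ => (Finset.mul_sum _ _ _).symm
    rw [e1]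
    have e2 : ‖∑ x ∈ SP 𝔮 M, aS K 𝔮 b x * ∑ ψ ∈ Sf, ((tM 𝔮 ψ x : ℂˣ) : ℂ)‖ ≤
        ∑ x ∈ SP 𝔮 M, (h * (if cls (pi1 htop) x = 1 then ‖aS K 𝔮 b x‖ else 0) +
          hK K * ‖aS K 𝔮 b x‖) := by
      refine (norm_sum_le _ _).trans (Finset.sum_le_sum fun x _ => ?_)
      rw [norm_mul]
      refine (mul_le_mul_of_nonneg_left (fam_sum hbot htop Sf hSf x) (norm_nonneg _)).trans
        (le_of_eq ?_)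
      rw [← hh]
      split_ifs <;> ring
    refine e2.trans ?_
    rw [Finset.sum_add_distrib, ← Finset.mul_sum, ← Finset.mul_sum, ← Finset.sum_filter]
    refine add_le_add (mul_le_mul_of_nonneg_left ?_ hh0) (mul_le_mul_of_nonneg_left ?_
      (Nat.cast_nonneg _))
    · have e3 : ∑ x ∈ (SP 𝔮 M).filter (fun x => cls (pi1 htop) x = 1), ‖aS K 𝔮 b x‖ ≤
          ∑ x ∈ (SP 𝔮 M).filter (fun x => cls (pi1 htop) x = 1),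
            ω * gw u (Ideal.absNorm (x : Ideal (𝓞 K))) :=
        Finset.sum_le_sum fun x hx => aS_le htop hb (Finset.mem_filter.mp hx).1
      refine e3.trans ?_
      rw [← Finset.mul_sum]
      refine mul_le_mul_of_nonneg_left ?_ hω
      rw [hG]
      refine ones_sum _ (fun x : Mq 𝔮 => Ideal.absNorm (x : Ideal (𝓞 K)))
        (fun x hx => (prime_of_SP (Finset.mem_filter.mp hx).1).2.one_lt.le)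
        (C1 * Un 𝔮) (2 * C1 * Un 𝔮 / (Ideal.absNorm 𝔮 : ℝ)) (by positivity) (by positivity) ?_ u hu
      intro X hX
      have e4 := hcnt 𝔮 hbot htop (((SP 𝔮 M).filter (fun x => cls (pi1 htop) x = 1)).filter
        (fun x => (X ≤ (Ideal.absNorm (x : Ideal (𝓞 K)) : ℝ) ∧
          (Ideal.absNorm (x : Ideal (𝓞 K)) : ℝ) ≤ 2 * X))) (2 * X) (by positivity) (by
          intro x hx
          obtain ⟨h1, h2, h3⟩ := Finset.mem_filter.mp hx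
          exact ⟨(Finset.mem_filter.mp h1).2, h3⟩)
      refine e4.trans (le_of_eq ?_)
      ring
    · have e3 := aS_sum (M := M) 𝔮 hω hu hb
      rw [← hG, ← hd] at e3
      exact e3
  -- the missing characters
  have k2 : ‖∑ ψ ∈ Sf \ E, S ψ‖ ^ 2 ≤ ((Sf.card : ℝ) - E.card) * (h * (∑ m ∈ Finset.Icc 1 M,
          ‖b m‖ ^ 2 * (vonMangoldt m * ‖cK K m‖) ^ 2 +
        ω ^ 2 * EO (C2 * Un 𝔮) (C2 * Un 𝔮 / (Ideal.absNorm 𝔮 : ℝ)) u)) := by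
    have e1 : ‖∑ ψ ∈ Sf \ E, S ψ‖ ^ 2 ≤ ((Sf \ E).card : ℝ) * ∑ ψ ∈ Sf \ E, ‖S ψ‖ ^ 2 := by
      refine (pow_le_pow_left₀ (norm_nonneg _) (norm_sum_le _ _) 2).trans ?_
      exact sq_sum_le_card_mul_sum_sq
    have e2 : ((Sf \ E).card : ℝ) = (Sf.card : ℝ) - E.card := by
      rw [Finset.card_sdiff_of_subset hE, Nat.cast_sub (Finset.card_le_card hE)]
    rw [← e2]
    refine e1.trans (mul_le_mul_of_nonneg_left ?_ (Nat.cast_nonneg _))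
    have e3 := hls 𝔮 hbot htop (Sf \ E) (fun ψ hψ => (hSf ψ).mp (Finset.mem_sdiff.mp hψ).1)
      M b ω u hω hu hb
    rw [hh]
    unfold EO
    simp only [hS]
    exact e3
  have hcB : 0 ≤ (Sf.card : ℝ) - E.card := by
    have : (E.card : ℝ) ≤ Sf.card := by exact_mod_cast Finset.card_le_card hE
    linarith
  have k3 : ‖∑ ψ ∈ E, S ψ‖ ^ 2 ≤ 2 * ‖∑ ψ ∈ Sf, S ψ‖ ^ 2 + 2 * ‖∑ ψ ∈ Sf \ E, S ψ‖ ^ 2 := by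
    have e1 : ∑ ψ ∈ E, S ψ = ∑ ψ ∈ Sf, S ψ - ∑ ψ ∈ Sf \ E, S ψ := by
      rw [← Finset.sum_sdiff hE]; ring
    rw [e1]
    have e2 := norm_sub_le (∑ ψ ∈ Sf, S ψ) (∑ ψ ∈ Sf \ E, S ψ)
    have e3 := pow_le_pow_left₀ (norm_nonneg _) e2 2
    refine e3.trans ?_
    nlinarith [sq_nonneg (‖∑ ψ ∈ Sf, S ψ‖ - ‖∑ ψ ∈ Sf \ E, S ψ‖)]
  have k4 := num_avg (h := h) (U := (Un 𝔮 : ℝ)) (N := (Ideal.absNorm 𝔮 : ℝ)) (G := G) (C1 := C1)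
    (H := (hK K : ℝ)) (d := d) (ω := ω) (u := u) (P := Real.exp (-u / 2)) (Q := Real.exp (u / 2))
    (z := ‖∑ ψ ∈ Sf, S ψ‖) hh0 (Nat.cast_nonneg _) hN hG0 (by linarith) (Nat.cast_nonneg _) hd0 hω
    hu (Real.exp_pos _).le (Real.exp_pos _).le (norm_nonneg _) k1
  rw [← hC'] at k4
  have hP : Real.exp (-u / 2) ^ 2 = Real.exp (-u) := by
    rw [← Real.exp_nat_mul]; congr 1; push_cast; ring
  have hQ : Real.exp (u / 2) ^ 2 = Real.exp u := by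
    rw [← Real.exp_nat_mul]; congr 1; push_cast; ring
  rw [hP, hQ] at k4
  have k5 : 2 * ‖∑ ψ ∈ Sf, S ψ‖ ^ 2 ≤ ω ^ 2 * EO ((C2 + C') * (h ^ 2 * (Un 𝔮 : ℝ) ^ 2 + 1))
        ((C2 + C') * (h ^ 2 * (Un 𝔮 : ℝ) ^ 2 / (Ideal.absNorm 𝔮 : ℝ) ^ 2 + 1)) u := by
    refine k4.trans ?_
    refine mul_le_mul_of_nonneg_left ?_ (sq_nonneg _)
    have e1 : (u + 1) ^ 2 * (C' * (h ^ 2 * (Un 𝔮 : ℝ) ^ 2 + 1) * Real.exp (-u) +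
      C' * (h ^ 2 * (Un 𝔮 : ℝ) ^ 2 / (Ideal.absNorm 𝔮 : ℝ) ^ 2 + 1) * Real.exp u) =
      EO (C' * (h ^ 2 * (Un 𝔮 : ℝ) ^ 2 + 1))
        (C' * (h ^ 2 * (Un 𝔮 : ℝ) ^ 2 / (Ideal.absNorm 𝔮 : ℝ) ^ 2 + 1)) u := rfl
    rw [e1]
    refine EO_mono ?_ ?_
    · exact mul_le_mul_of_nonneg_right (by linarith) (by positivity)
    · exact mul_le_mul_of_nonneg_right (by linarith) (by positivity)
  have k6 : EO (C2 * Un 𝔮) (C2 * Un 𝔮 / (Ideal.absNorm 𝔮 : ℝ)) u ≤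
      EO ((C2 + C') * Un 𝔮) ((C2 + C') * Un 𝔮 / (Ideal.absNorm 𝔮 : ℝ)) u := by
    refine EO_mono ?_ ?_
    · exact mul_le_mul_of_nonneg_right (by linarith) (by positivity)
    · refine div_le_div_of_nonneg_right ?_ (by positivity)
      exact mul_le_mul_of_nonneg_right (by linarith) (by positivity)
  have k7 : ((Sf.card : ℝ) - E.card) * (h * (∑ m ∈ Finset.Icc 1 M,
          ‖b m‖ ^ 2 * (vonMangoldt m * ‖cK K m‖) ^ 2 +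
        ω ^ 2 * EO (C2 * Un 𝔮) (C2 * Un 𝔮 / (Ideal.absNorm 𝔮 : ℝ)) u)) ≤
      ((Sf.card : ℝ) - E.card) * (h * (∑ m ∈ Finset.Icc 1 M,
          ‖b m‖ ^ 2 * (vonMangoldt m * ‖cK K m‖) ^ 2 +
        ω ^ 2 * EO ((C2 + C') * Un 𝔮) ((C2 + C') * Un 𝔮 / (Ideal.absNorm 𝔮 : ℝ)) u)) := by
    refine mul_le_mul_of_nonneg_left (mul_le_mul_of_nonneg_left (add_le_add le_rfl ?_) hh0) hcB
    exact mul_le_mul_of_nonneg_left k6 (sq_nonneg _)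
  rw [← hh]
  have k8 : 2 * ((Sf.card : ℝ) - E.card) * h * (∑ m ∈ Finset.Icc 1 M,
          ‖b m‖ ^ 2 * (vonMangoldt m * ‖cK K m‖) ^ 2 +
        ω ^ 2 * EO ((C2 + C') * Un 𝔮) ((C2 + C') * Un 𝔮 / (Ideal.absNorm 𝔮 : ℝ)) u) =
      2 * (((Sf.card : ℝ) - E.card) * (h * (∑ m ∈ Finset.Icc 1 M,
          ‖b m‖ ^ 2 * (vonMangoldt m * ‖cK K m‖) ^ 2 +
        ω ^ 2 * EO ((C2 + C') * Un 𝔮) ((C2 + C') * Un 𝔮 / (Ideal.absNorm 𝔮 : ℝ)) u))) := by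
    ring
  rw [k8]
  linarith

end

end Pool.Agent.N784.DU
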