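import Pool.Agent.N784.AD.Geo2

/-! # The number of the ideals in the trivial ray class (helper784) -/

set_option autoImplicit false
set_option linter.unusedSectionVars false

open NumberField Module

namespace Pool.Agent.N784.DU

open Pool.Agent.N784.AD
open Pool.Agent.Y773 (TPos)
open Pool.Agent.Y767 (Mq Mq_cop Mq_ne_bot Mq_cancel isUnit_mk Cls cls cls_eq)
open Pool.Agent.Y773.IQ (ne_zero_of_cop absNorm_pos')

section

variable (K : Type) [Field K] [NumberField K]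

open Classical in
/-- **the number of the ideals in the trivial ray class** -/
theorem one_count : ∃ C : ℝ, 1 ≤ C ∧ ∀ (𝔮 : Ideal (𝓞 K)) (_ : 𝔮 ≠ ⊥) (htop : 𝔮 ≠ ⊤)
    (S : Finset (Mq 𝔮)) (X : ℝ), 0 < X →
    (∀ x ∈ S, cls (pi1 htop) x = 1 ∧ (Ideal.absNorm (x : Ideal (𝓞 K)) : ℝ) ≤ X) →
    (S.card : ℝ) ≤ C * Un 𝔮 * (1 + X / (Ideal.absNorm 𝔮 : ℝ)) := by
  obtain ⟨C1, hC1, hbal⟩ := balanced K
  obtain ⟨C3, hC3, hbox⟩ := box_count K
  obtain ⟨d, hd⟩ : ∃ d : ℕ, d = finrank ℚ K := ⟨_, rfl⟩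
  have hd0 : 0 < d := by rw [hd]; exact finrank_pos
  have hdr : (0 : ℝ) < d := by exact_mod_cast hd0
  rw [← hd] at hbal hbox
  refine ⟨C3 * (1 + (2 * C1) ^ d), ?_, ?_⟩
  · have : 0 ≤ (2 * C1) ^ d := by positivity
    exact one_le_mul_of_one_le_of_one_le hC3 (by linarith)
  intro 𝔮 hbot htop S X hX hS
  have hcan := Mq_cancel htop
  have hNq : (1 : ℝ) ≤ (Ideal.absNorm 𝔮 : ℝ) := by exact_mod_cast absNorm_pos' hbot
  obtain ⟨A, hA⟩ : ∃ A : ℝ, A = C1 * X ^ (1 / (d : ℝ)) := ⟨_, rfl⟩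
  have hA0 : 0 ≤ A := by rw [hA]; positivity
  have hroot : ∀ z : ℝ, 0 ≤ z → (z ^ (1 / (d : ℝ))) ^ d = z := by
    intro z hz
    rw [← Real.rpow_natCast, ← Real.rpow_mul hz, one_div_mul_cancel hdr.ne', Real.rpow_one]
  have hAd : A ^ d = C1 ^ d * X := by rw [hA, mul_pow, hroot _ hX.le]
  obtain ⟨U, hU⟩ : ∃ U : Set (𝓞 K ⧸ 𝔮), U =
    Set.range (fun u : (𝓞 K)ˣ => Ideal.Quotient.mk 𝔮 (u : 𝓞 K)) := ⟨_, rfl⟩
  have hUf : U.Finite := by rw [hU]; exact finite_Un hbot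
  have hdata : ∀ x : Mq 𝔮, ∃ g : 𝓞 K, x ∈ S →
      Ideal.Quotient.mk 𝔮 g ∈ U ∧ Ideal.span {g} = (x : Ideal (𝓞 K)) ∧ Bd g A := by
    intro x
    by_cases hx : x ∈ S
    swap
    · exact ⟨0, fun h => absurd h hx⟩
    obtain ⟨hc, hN⟩ := hS x hx
    have m4 : cls (pi1 htop) (1 : Mq 𝔮) = cls (pi1 htop) x := by rw [hc, map_one]
    obtain ⟨a, b, hab⟩ := cls_eq m4
    have hab' := congrArg Subtype.val hab
    rw [Submonoid.coe_mul, Submonoid.coe_mul, pi1_coe, pi1_coe] at hab'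
    have h1 : Ideal.span {(1 : 𝓞 K)} = ((1 : Mq 𝔮) : Ideal (𝓞 K)) * 1 := by
      rw [Submonoid.coe_one, mul_one, Ideal.span_singleton_one, Ideal.one_eq_top]
    obtain ⟨β, hβ, hαβ⟩ := pair_data htop (𝔠 := 1) (by rw [Ideal.one_eq_top]; exact top_ne_bot)
      (x := 1) h1 (T1_one a) (T1_one b) hab'
    rw [mul_one] at hβ hαβ
    have hβ0 : β ≠ 0 := by
      rintro rfl
      rw [Ideal.span_singleton_eq_bot.mpr rfl] at hβ
      exact Mq_ne_bot htop x hβ.symm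
    obtain ⟨v, hv⟩ := hbal β hβ0
    refine ⟨(v : 𝓞 K) * β, fun _ => ⟨?_, ?_, ?_⟩⟩
    · rw [hU]
      refine ⟨v, ?_⟩
      have e1 : Ideal.Quotient.mk 𝔮 (a : 𝓞 K) =
          Ideal.Quotient.mk 𝔮 (b : 𝓞 K) * Ideal.Quotient.mk 𝔮 β := by
        rw [← map_mul, ← hαβ]
      have e2 := (Ideal.Quotient.eq (I := 𝔮)).mpr (T1_one a)
      have e3 := (Ideal.Quotient.eq (I := 𝔮)).mpr (T1_one b)
      rw [e2, e3, map_one, one_mul] at e1
      change Ideal.Quotient.mk 𝔮 (v : 𝓞 K) = Ideal.Quotient.mk 𝔮 ((v : 𝓞 K) * β)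
      rw [map_mul, ← e1, mul_one]
    · rw [← hβ, Ideal.span_singleton_mul_left_unit v.isUnit]
    · refine hv.mono ?_
      rw [hA, hβ]
      exact mul_le_mul_of_nonneg_left (Real.rpow_le_rpow (Nat.cast_nonneg _) hN (by positivity))
        (by linarith)
  choose g hg using hdata
  have h1 := Finset.card_le_mul_card_image (f := fun x => Ideal.Quotient.mk 𝔮 (g x)) S
    ⌊C3 * (1 + (2 * C1) ^ d * X / (Ideal.absNorm 𝔮 : ℝ))⌋₊ (by
      intro key hkey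
      obtain ⟨x0, hx0, hx0k⟩ := Finset.mem_image.mp hkey
      apply Nat.le_floor
      obtain ⟨R, hR⟩ : ∃ R : Finset (Mq 𝔮), R =
        S.filter (fun x => Ideal.Quotient.mk 𝔮 (g x) = key) := ⟨_, rfl⟩
      rw [← hR]
      have hRm : ∀ x ∈ R, x ∈ S ∧ Ideal.Quotient.mk 𝔮 (g x) = Ideal.Quotient.mk 𝔮 (g x0) := by
        intro x hx
        rw [hR, Finset.mem_filter] at hx
        exact ⟨hx.1, hx.2.trans hx0k.symm⟩
      have hinj : Set.InjOn (fun x => g x - g x0) (R : Set (Mq 𝔮)) := by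
        intro x hx y hy he
        obtain ⟨x1, -⟩ := hRm x hx
        obtain ⟨y1, -⟩ := hRm y hy
        have e1 : g x = g y := by
          have : g x - g x0 = g y - g x0 := he
          linear_combination this
        apply Subtype.ext
        rw [← (hg x x1).2.1, ← (hg y y1).2.1, e1]
      have h3 := hbox 𝔮 hbot (A + A) (by positivity)
        (R.image (fun x => g x - g x0)) (by
          intro z hz
          obtain ⟨x, hx, rfl⟩ := Finset.mem_image.mp hz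
          obtain ⟨x1, x2⟩ := hRm x hx
          exact ⟨Ideal.Quotient.eq.mp x2, (hg x x1).2.2.sub (hg x0 hx0).2.2⟩)
      rw [Finset.card_image_of_injOn hinj, ← two_mul, mul_pow, hAd] at h3
      refine h3.trans (le_of_eq ?_)
      rw [mul_pow]
      ring)
  have h2 : (S.image (fun x => Ideal.Quotient.mk 𝔮 (g x))).card ≤ Un 𝔮 := by
    have h3 : S.image (fun x => Ideal.Quotient.mk 𝔮 (g x)) ⊆ hUf.toFinset := by
      intro y hy
      obtain ⟨x, hx, rfl⟩ := Finset.mem_image.mp hy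
      rw [Set.Finite.mem_toFinset]
      exact (hg x hx).1
    refine (Finset.card_le_card h3).trans (le_of_eq ?_)
    unfold Un
    rw [← Set.ncard_eq_toFinset_card _ hUf, hU]
  have h4 : (S.card : ℝ) ≤ (⌊C3 * (1 + (2 * C1) ^ d * X / (Ideal.absNorm 𝔮 : ℝ))⌋₊ : ℝ) *
      ((S.image (fun x => Ideal.Quotient.mk 𝔮 (g x))).card : ℝ) := by exact_mod_cast h1
  have h5 : (S.card : ℝ) ≤ (C3 * (1 + (2 * C1) ^ d * X / (Ideal.absNorm 𝔮 : ℝ))) * Un 𝔮 := by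
    refine h4.trans (mul_le_mul (Nat.floor_le (by positivity)) ?_ (Nat.cast_nonneg _)
      (by positivity))
    exact_mod_cast h2
  refine h5.trans ?_
  obtain ⟨G, hG⟩ : ∃ G : ℝ, G = (2 * C1) ^ d := ⟨_, rfl⟩
  obtain ⟨t, ht⟩ : ∃ t : ℝ, t = X / (Ideal.absNorm 𝔮 : ℝ) := ⟨_, rfl⟩
  have hG0 : 0 ≤ G := by rw [hG]; positivity
  have ht0 : 0 ≤ t := by rw [ht]; positivity
  rw [← hG, mul_div_assoc, ← ht]
  have e1 : C3 * (1 + G) * (Un 𝔮 : ℝ) * (1 + t) - C3 * (1 + G * t) * Un 𝔮 =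
    C3 * (Un 𝔮 : ℝ) * (G + t) := by ring
  have e2 : 0 ≤ C3 * (Un 𝔮 : ℝ) * (G + t) := by positivity
  linarith

end

end Pool.Agent.N784.DU
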