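import Pool.Agent.N784.DU.W
import Pool.Agent.N784.AD.Msp3

/-! # The mean square of the averaged prime sum (helper784) -/

open Complex Filter Topology Set MeasureTheory

set_option autoImplicit false
set_option linter.unusedVariables false

namespace Pool.Agent.N784.DU

open ArithmeticFunction (vonMangoldt)
open H385 W388
open Pool.Agent.N784.AD (LSG EO msqP)
open Pool.Agent.N786 (MSD)
open Pool.Agent.TH243.UNI (APf)

lemma summ_a {a : ℕ → ℂ} {d : ℝ} (hd : 0 < d) (ha : ∀ n, ‖a n‖ ≤ d * vonMangoldt n)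
    (T u t : ℝ) (hT : 0 ≤ T) :
    Summable (fun n : ℕ => a n * ((Real.sqrt n : ℂ)⁻¹ * bt T u t (Real.log n))) := by
  have h1 : ∀ n, ‖(d : ℂ)⁻¹ * a n‖ ≤ vonMangoldt n := by
    intro n
    rw [norm_mul, norm_inv, Complex.norm_real, Real.norm_of_nonneg hd.le, inv_mul_le_iff₀ hd]
    exact ha n
  have hs := (fa_term_summable u).mul_right (wt T t)
  have h2 : Summable (fun n : ℕ => ((d : ℂ)⁻¹ * a n) *
      ((Real.sqrt n : ℂ)⁻¹ * bt T u t (Real.log n))) := by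
    refine Summable.of_norm ?_
    exact Summable.of_nonneg_of_le (fun n => norm_nonneg _)
      (fun n => fa_term_bound h1 T u t hT n) hs
  have h3 := h2.mul_left (d : ℂ)
  refine h3.congr fun n => ?_
  have : (d : ℂ) ≠ 0 := by exact_mod_cast hd.ne'
  field_simp

theorem msu_of {c : ℕ → ℂ} (hsel : SelE c) (d : ℝ) (hd : 1 ≤ d) (γ β : ℝ)
    (h0 : 0 < γ) (hπ : γ < Real.pi) (hβ : 0 < β) (ε1 : ℝ) (hε1 : 0 < ε1) :
    ∃ ρ κ0 : ℝ, 0 < ρ ∧ ρ ≤ 1 ∧ 0 < κ0 ∧ ∀ κ : ℝ, 0 < κ → κ ≤ κ0 → ∃ L0 : ℝ, 1 ≤ L0 ∧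
    ∀ {ι : Type} (s : Finset ι) (a : ι → ℕ → ℂ) (q : ℕ) (L T A0 A1 : ℝ), s.Nonempty → L0 ≤ L →
      L ^ 2 ≤ T → T ≤ Real.exp (L ^ 2) → Real.exp (5 * κ * L) ≤ T → 1 ≤ q →
      Real.log q ≤ d * L → (∀ i ∈ s, ∀ n : ℕ, ‖a i n‖ ≤ d * vonMangoldt n) →
      (∀ i ∈ s, ∀ n : ℕ, ‖a i n‖ ^ 2 ≤ d * (vonMangoldt n * ‖c n‖) ^ 2) →
      0 ≤ A0 → 0 ≤ A1 →
      (∀ (M : ℕ) (b : ℕ → ℂ) (ω u : ℝ), 0 ≤ ω → 0 ≤ u →
        (∀ n : ℕ, n.Prime → ‖b n‖ * Real.log n ≤ ω * Pool.Agent.N784.AD.gw u n) →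
        ‖∑ i ∈ s, ∑ m ∈ Finset.Icc 1 M, b m *
          (if m.Prime ∧ Nat.Coprime m q then a i m else 0)‖ ^ 2 ≤
        (s.card : ℝ) ^ 2 * (ρ * ∑ m ∈ Finset.Icc 1 M, ‖b m‖ ^ 2 * (vonMangoldt m * ‖c m‖) ^ 2 +
          ω ^ 2 * EO A0 A1 u)) →
      A0 ≤ ρ * Real.exp (κ * L / 2) →
      A1 * Real.exp (β * L) * (β * L + 1) ^ 2 ≤ ρ →
      MSU s (fun _ => (s.card : ℝ)⁻¹) a γ ε1 L (β * L) T := by
  have hpi := Real.pi_pos
  obtain ⟨c', hc'⟩ : ∃ c' : ℝ, c' = 2 * β * (∫ α in (0 : ℝ)..1, α * Rw γ α) * 1 := ⟨_, rfl⟩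
  have hc'0 : 0 ≤ c' := by
    rw [hc', mul_one]
    exact mul_nonneg (by positivity) (intervalIntegral.integral_nonneg zero_le_one
      (fun α hα => mul_nonneg hα.1 (H385.Rw_nonneg γ h0 hπ α)))
  obtain ⟨ρ, hρ⟩ : ∃ ρ : ℝ, ρ = min 1 (min (ε1 ^ 2) (ε1 / (c' + 1))) := ⟨_, rfl⟩
  have hρ0 : 0 < ρ := by
    rw [hρ]; exact lt_min one_pos (lt_min (by positivity) (by positivity))
  have hρ1 : ρ ≤ 1 := by rw [hρ]; exact min_le_left _ _
  have hρ2 : ρ ≤ ε1 ^ 2 := by rw [hρ]; exact (min_le_right _ _).trans (min_le_left _ _)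
  have hρ3 : ρ ≤ ε1 / (c' + 1) := by rw [hρ]; exact (min_le_right _ _).trans (min_le_right _ _)
  have hd0 : 0 < d := by linarith
  have hdρ : 1 ≤ d / ρ := by
    rw [le_div_iff₀ hρ0]; linarith
  have hddρ : d ≤ d / ρ := by
    rw [le_div_iff₀ hρ0]
    calc d * ρ ≤ d * 1 := mul_le_mul_of_nonneg_left hρ1 hd0.le
      _ = d := mul_one d
  obtain ⟨κ0, hκ0, hms⟩ := msqP hsel (d / ρ) 1 hdρ le_rfl γ β h0 hπ hβ 1 one_pos
  refine ⟨ρ, κ0, hρ0, hρ1, hκ0, fun κ hκ hκκ0 => ?_⟩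
  obtain ⟨L0, hL0, hms2⟩ := hms κ hκ hκκ0
  refine ⟨L0, hL0, ?_⟩
  intro ι s a q L T A0 A1 hsne hL hT hT2 hTκ hq hlogq ha ha2 hA0 hA1 hLS hA0e hA1e
  have hL1 : 1 ≤ L := hL0.trans hL
  have hT0 : 0 ≤ T := le_trans (sq_nonneg L) hT
  have hcard : (0 : ℝ) < s.card := by exact_mod_cast hsne.card_pos
  obtain ⟨r, hr⟩ : ∃ r : ℝ, r = Real.sqrt ρ := ⟨_, rfl⟩
  have hr0 : 0 < r := by rw [hr]; exact Real.sqrt_pos.mpr hρ0
  have hr2 : r ^ 2 = ρ := by rw [hr]; exact Real.sq_sqrt hρ0.le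
  have hr1 : r ≤ 1 := by
    rw [hr, Real.sqrt_le_one]; exact hρ1
  have hrρ : ρ ≤ r := by
    rw [← hr2, sq]
    calc r * r ≤ r * 1 := mul_le_mul_of_nonneg_left hr1 hr0.le
      _ = r := mul_one r
  obtain ⟨av, hav⟩ : ∃ av : ℕ → ℂ, ∀ n, av n = (s.card : ℂ)⁻¹ * ∑ i ∈ s, a i n :=
    ⟨_, fun _ => rfl⟩
  obtain ⟨a', ha'⟩ : ∃ a' : ℕ → ℂ, ∀ n, a' n = (r : ℂ)⁻¹ * av n := ⟨_, fun _ => rfl⟩
  have hcn : ‖(s.card : ℂ)⁻¹‖ = (s.card : ℝ)⁻¹ := by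
    rw [norm_inv, Complex.norm_natCast]
  have hrn : ‖(r : ℂ)⁻¹‖ = r⁻¹ := by
    rw [norm_inv, Complex.norm_real, Real.norm_of_nonneg hr0.le]
  have havg : ∀ n (B : ℝ), (∀ i ∈ s, ‖a i n‖ ≤ B) → ‖av n‖ ≤ B := by
    intro n B hB
    rw [hav, norm_mul, hcn, inv_mul_le_iff₀ hcard]
    refine (norm_sum_le _ _).trans ((Finset.sum_le_sum hB).trans (le_of_eq ?_))
    rw [Finset.sum_const, nsmul_eq_mul]
  have hb1 : ∀ n, ‖a' n‖ ≤ d / ρ * vonMangoldt n := by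
    intro n
    have h1 := havg n _ (fun i hi => ha i hi n)
    have hΛ : 0 ≤ vonMangoldt n := ArithmeticFunction.vonMangoldt_nonneg
    rw [ha', norm_mul, hrn]
    calc r⁻¹ * ‖av n‖ ≤ ρ⁻¹ * (d * vonMangoldt n) :=
          mul_le_mul (inv_anti₀ hρ0 hrρ) h1 (norm_nonneg _) (by positivity)
      _ = _ := by ring
  have hb2 : ∀ n, ‖a' n‖ ^ 2 ≤ d / ρ * (vonMangoldt n * ‖c n‖) ^ 2 := by
    intro n
    have h1 := havg n (Real.sqrt (d * (vonMangoldt n * ‖c n‖) ^ 2)) (fun i hi => by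
      rw [← Real.sqrt_sq (norm_nonneg (a i n))]
      exact Real.sqrt_le_sqrt (ha2 i hi n))
    have h2 : ‖av n‖ ^ 2 ≤ d * (vonMangoldt n * ‖c n‖) ^ 2 := by
      have h3 := pow_le_pow_left₀ (norm_nonneg _) h1 2
      rwa [Real.sq_sqrt (by positivity)] at h3
    rw [ha', norm_mul, hrn, mul_pow, inv_pow, hr2]
    calc ρ⁻¹ * ‖av n‖ ^ 2 ≤ ρ⁻¹ * (d * (vonMangoldt n * ‖c n‖) ^ 2) :=
          mul_le_mul_of_nonneg_left h2 (by positivity)
      _ = _ := by ring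
  have hLSG : LSG ({()} : Finset Unit) (fun _ => a') c q (1 * (({()} : Finset Unit).card : ℝ))
      (A0 / ρ) (A1 / ρ) := by
    intro M b ω u hω hu hb
    rw [Finset.sum_singleton, Finset.card_singleton, Nat.cast_one, mul_one, one_mul]
    have e1 : ∑ m ∈ Finset.Icc 1 M, b m * (if m.Prime ∧ Nat.Coprime m q then a' m else 0) =
        (r : ℂ)⁻¹ * ((s.card : ℂ)⁻¹ * ∑ i ∈ s, ∑ m ∈ Finset.Icc 1 M, b m *
          (if m.Prime ∧ Nat.Coprime m q then a i m else 0)) := by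
      rw [Finset.sum_comm, Finset.mul_sum, Finset.mul_sum]
      refine Finset.sum_congr rfl fun m _ => ?_
      split_ifs
      · rw [ha', hav, ← Finset.mul_sum]; ring
      · simp
    rw [e1, norm_mul, norm_mul, hrn, hcn, mul_pow, mul_pow, inv_pow, inv_pow, hr2]
    have e2 := hLS M b ω u hω hu hb
    calc ρ⁻¹ * (((s.card : ℝ) ^ 2)⁻¹ * ‖∑ i ∈ s, ∑ m ∈ Finset.Icc 1 M, b m *
          (if m.Prime ∧ Nat.Coprime m q then a i m else 0)‖ ^ 2) ≤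
        ρ⁻¹ * (((s.card : ℝ) ^ 2)⁻¹ * ((s.card : ℝ) ^ 2 * (ρ * ∑ m ∈ Finset.Icc 1 M,
          ‖b m‖ ^ 2 * (vonMangoldt m * ‖c m‖) ^ 2 + ω ^ 2 * EO A0 A1 u))) := by
          gcongr
      _ = ∑ m ∈ Finset.Icc 1 M, ‖b m‖ ^ 2 * (vonMangoldt m * ‖c m‖) ^ 2 +
          ω ^ 2 * EO (A0 / ρ) (A1 / ρ) u := by
          unfold EO
          field_simp
  have hA0' : A0 / ρ ≤ Real.exp (κ * L / 2) := by
    rw [div_le_iff₀ hρ0, mul_comm]; exact hA0e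
  have hA1' : A1 / ρ * Real.exp (β * L) * (β * L + 1) ^ 2 ≤ 1 := by
    have : A1 / ρ * Real.exp (β * L) * (β * L + 1) ^ 2 =
      (A1 * Real.exp (β * L) * (β * L + 1) ^ 2) / ρ := by ring
    rw [this, div_le_one hρ0]; exact hA1e
  obtain ⟨Yf, y1, y2, hy1, hy2, m1, m2, m3, m4, m5⟩ := hms2 ({()} : Finset Unit) (fun _ => a') q L T
    (A0 / ρ) (A1 / ρ) (Finset.singleton_nonempty _) hL hT hT2 hTκ hq
    (hlogq.trans (mul_le_mul_of_nonneg_right hddρ (by linarith))) (fun _ _ n => hb1 n)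
    (fun _ _ n => hb2 n) (by positivity) (by positivity) hLSG hA0' hA1'
  rw [← hc'] at m4
  simp only [Finset.sum_singleton, Finset.card_singleton, Nat.cast_one, inv_one, one_mul] at m1
  simp only [Finset.sum_singleton, Finset.card_singleton, Nat.cast_one, inv_one, mul_one,
    Real.sqrt_one] at m4 m5
  have hAP : ∀ u t : ℝ, ‖APf s (fun _ => (s.card : ℝ)⁻¹) a T u t‖ ^ 2 =
      ρ * ‖∑' n : ℕ, a' n * ((Real.sqrt n : ℂ)⁻¹ * bt T u t (Real.log n))‖ ^ 2 := by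
    intro u t
    have e1 : APf s (fun _ => (s.card : ℝ)⁻¹) a T u t =
        (r : ℂ) * ∑' n : ℕ, a' n * ((Real.sqrt n : ℂ)⁻¹ * bt T u t (Real.log n)) := by
      unfold APf Pf
      have e2 : ∀ i ∈ s, (((s.card : ℝ)⁻¹ : ℝ) : ℂ) *
          ∑' n : ℕ, a i n * ((Real.sqrt n : ℂ)⁻¹ * bt T u t (Real.log n)) =
          ∑' n : ℕ, (((s.card : ℝ)⁻¹ : ℝ) : ℂ) *
            (a i n * ((Real.sqrt n : ℂ)⁻¹ * bt T u t (Real.log n))) := fun i _ =>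
        tsum_mul_left.symm
      rw [Finset.sum_congr rfl e2, ← Summable.tsum_finsetSum (fun i hi =>
        (summ_a hd0 (ha i hi) T u t hT0).mul_left _), ← tsum_mul_left]
      refine tsum_congr fun n => ?_
      rw [← Finset.mul_sum, ← Finset.sum_mul, ha', hav]
      have : (r : ℂ) ≠ 0 := by exact_mod_cast hr0.ne'
      push_cast
      field_simp
    rw [e1, norm_mul, mul_pow, Complex.norm_real, Real.norm_of_nonneg hr0.le, hr2]
  refine ⟨fun u => ρ * Yf u, ρ * y1, ρ * y2, by positivity, by positivity, ?_, ?_, ?_, ?_, ?_⟩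
  · intro u hu
    simp only [hAP]
    rw [integral_const_mul]
    exact mul_le_mul_of_nonneg_left (m1 u hu) hρ0.le
  · intro u hu
    have := mul_le_mul_of_nonneg_left (m2 u hu) hρ0.le
    refine this.trans (le_of_eq ?_)
    ring
  · exact m3.const_mul _
  · have e1 : (∫ u in (0 : ℝ)..(β * L), Rw γ (u / (β * L)) * (ρ * Yf u)) =
        ρ * ∫ u in (0 : ℝ)..(β * L), Rw γ (u / (β * L)) * Yf u := by
      rw [← intervalIntegral.integral_const_mul]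
      exact intervalIntegral.integral_congr fun u _ => by ring
    rw [e1]
    have e2 := mul_le_mul_of_nonneg_left m4 hρ0.le
    have e3 : 2 / (Real.sqrt Real.pi * (β * L)) *
        (ρ * ∫ u in (0 : ℝ)..(β * L), Rw γ (u / (β * L)) * Yf u) =
        ρ * (2 / (Real.sqrt Real.pi * (β * L)) *
          ∫ u in (0 : ℝ)..(β * L), Rw γ (u / (β * L)) * Yf u) := by ring
    rw [e3]
    refine e2.trans ?_
    have e4 : T / (2 * Real.pi) ≤ T := by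
      rw [div_le_iff₀ (by positivity)]
      have : (1 : ℝ) ≤ 2 * Real.pi := by linarith [Real.pi_gt_three]
      calc T = T * 1 := (mul_one T).symm
        _ ≤ _ := mul_le_mul_of_nonneg_left this hT0
    have e5 : ρ * (c' + 1) ≤ ε1 := by
      rw [le_div_iff₀ (by positivity)] at hρ3; exact hρ3
    calc ρ * (T / (2 * Real.pi) * L * (c' + 1)) = (ρ * (c' + 1)) * (T / (2 * Real.pi)) * L := by ring
      _ ≤ ε1 * T * L := by
          have : 0 ≤ T / (2 * Real.pi) := by positivity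
          gcongr
  · rw [Real.sqrt_mul hρ0.le, Real.sqrt_mul hρ0.le, ← mul_add, ← hr]
    have e1 : r ≤ ε1 := by
      rw [hr, Real.sqrt_le_left hε1.le]; exact hρ2
    rw [one_mul] at m5
    exact mul_le_mul e1 m5 (by positivity) hε1.le

end Pool.Agent.N784.DU
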