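import Pool.Agent.N784.DU.Num
import Pool.Agent.N784.DU.Ms
import Pool.Agent.N784.DU.Avg2
import Pool.Agent.N784.AD.Main

/-! # The distinct zeros of the union of the L-functions modulo `𝔮` (helper784) -/

set_option autoImplicit false
set_option linter.unusedSectionVars false
set_option linter.unusedVariables false

open NumberField Filter Topology MeasureTheory

namespace Pool.Agent.N784.DU

open Pool.Agent.N784.AD
open Pool.Agent.Y773 (LI cc)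
open Pool.Agent.Y767 (Cls cK)
open Pool.Agent.Y773.IQ (Fam cd cd_spec LL LL_eq absNorm_pos' exists_ge)
open H370 (zset NN Ns Nd)
open H385 (Rw)
open Pool.Agent.W354 (LogC)
open Y767.WH (GoodH)
open ArithmeticFunction (vonMangoldt)

/-- the relations between the parameters -/
lemma par_T {N T T1 d h η1 ε L : ℝ} (hN : 1 ≤ N) (hd : 1 ≤ d) (hh : 0 < h) (hh1 : h ≤ 1)
    (hη1 : 0 < η1) (hε : 0 < ε) (hε1 : ε < 1) (hT1d : T1 = (1 + ε / 4) * T)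
    (hL : L = Real.log N / d + Real.log T1) (h1 : N ^ η1 ≤ T)
    (h2 : h * (Real.log N + d * Real.log T) ≤ Real.log N) (hNd : d ≤ Real.log N) :
    1 ≤ T ∧ T ≤ T1 ∧ T1 ≤ 5 / 4 * T ∧ 1 ≤ T1 ∧ 0 ≤ Real.log T1 ∧ Real.log N ≤ d * L ∧
      h * (d * L) ≤ Real.log N + d ∧ Real.exp (η1 * h * d / 2 * L) ≤ T1 ∧ T1 ≤ Real.exp L ∧
      Real.log N + d * Real.log T ≤ d * L := by
  have hd0 : 0 < d := by linarith
  have hN0 : 0 < N := by linarith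
  have hΛ : 0 ≤ Real.log N := Real.log_nonneg hN
  have hT1 : 1 ≤ T := (Real.one_le_rpow hN hη1.le).trans h1
  have hTpos : 0 < T := by linarith
  have hlT : 0 ≤ Real.log T := Real.log_nonneg hT1
  have a1 : T ≤ T1 := by
    rw [hT1d]
    have : 0 ≤ ε / 4 * T := by positivity
    linarith
  have a2 : T1 ≤ 5 / 4 * T := by
    rw [hT1d]
    exact mul_le_mul_of_nonneg_right (by linarith) hTpos.le
  have a3 : 1 ≤ T1 := hT1.trans a1
  have hT1pos : 0 < T1 := by linarith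
  have a4 : 0 ≤ Real.log T1 := Real.log_nonneg a3
  have a5 : Real.log T1 ≤ Real.log T + 1 := by
    rw [hT1d, Real.log_mul (by positivity) hTpos.ne']
    have := Real.log_le_sub_one_of_pos (show 0 < 1 + ε / 4 by positivity)
    linarith
  have a6 : Real.log T ≤ Real.log T1 := Real.log_le_log hTpos a1
  have e1 : d * L = Real.log N + d * Real.log T1 := by
    rw [hL]; field_simp
  have e2 : h * (d * L) ≤ Real.log N + d := by
    rw [e1]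
    have b1 : d * Real.log T1 ≤ d * (Real.log T + 1) := mul_le_mul_of_nonneg_left a5 hd0.le
    have b2 : h * (Real.log N + d * Real.log T1) ≤ h * (Real.log N + d * Real.log T) + h * d := by
      have : h * (Real.log N + d * Real.log T1) ≤ h * (Real.log N + d * (Real.log T + 1)) :=
        mul_le_mul_of_nonneg_left (by linarith) hh.le
      refine this.trans (le_of_eq ?_)
      ring
    have b3 : h * d ≤ 1 * d := mul_le_mul_of_nonneg_right hh1 hd0.le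
    linarith
  have e3 : η1 * Real.log N ≤ Real.log T := by
    have := Real.log_le_log (Real.rpow_pos_of_pos hN0 _) h1
    rwa [Real.log_rpow hN0] at this
  refine ⟨hT1, a1, a2, a3, a4, ?_, e2, ?_, ?_, ?_⟩
  · rw [e1]
    have : 0 ≤ d * Real.log T1 := by positivity
    linarith
  · rw [← Real.le_log_iff_exp_le hT1pos]
    have b1 : h * (d * L) ≤ 2 * Real.log N := by linarith
    have b2 : η1 * (h * (d * L)) ≤ η1 * (2 * Real.log N) := mul_le_mul_of_nonneg_left b1 hη1.le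
    have b3 : η1 * h * d / 2 * L = η1 * (h * (d * L)) / 2 := by ring
    rw [b3]
    linarith
  · rw [← Real.log_le_iff_le_exp hT1pos, hL]
    have : 0 ≤ Real.log N / d := by positivity
    linarith
  · rw [e1]
    have : d * Real.log T ≤ d * Real.log T1 := mul_le_mul_of_nonneg_left a6 hd0.le
    linarith

lemma eo_id {e B hc C U N u A0 A1 : ℝ} (he : 0 < e)
    (hA0 : A0 = (2 * B * hc * (C * U) + C * (hc ^ 2 * U ^ 2 + 1)) / e ^ 2)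
    (hA1 : A1 = (2 * B * hc * (C * U / N) + C * (hc ^ 2 * U ^ 2 / N ^ 2 + 1)) / e ^ 2) :
    e ^ 2 * EO A0 A1 u = 2 * B * hc * EO (C * U) (C * U / N) u +
      EO (C * (hc ^ 2 * U ^ 2 + 1)) (C * (hc ^ 2 * U ^ 2 / N ^ 2 + 1)) u := by
  have h0 : e ^ 2 * A0 = 2 * B * hc * (C * U) + C * (hc ^ 2 * U ^ 2 + 1) := by
    rw [hA0]; exact mul_div_cancel₀ _ (by positivity)
  have h1 : e ^ 2 * A1 = 2 * B * hc * (C * U / N) + C * (hc ^ 2 * U ^ 2 / N ^ 2 + 1) := by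
    rw [hA1]; exact mul_div_cancel₀ _ (by positivity)
  unfold EO
  have h2 : e ^ 2 * ((u + 1) ^ 2 * (A0 * Real.exp (-u) + A1 * Real.exp u)) =
      (u + 1) ^ 2 * ((e ^ 2 * A0) * Real.exp (-u) + (e ^ 2 * A1) * Real.exp u) := by ring
  rw [h2, h0, h1]
  ring

lemma num_ls {e B hc C U N u A0 A1 ρ dg ω z : ℝ} (he : 0 < e) (hdg : 0 ≤ dg)
    (hr : 2 * B * hc / e ^ 2 ≤ ρ)
    (hA0 : A0 = (2 * B * hc * (C * U) + C * (hc ^ 2 * U ^ 2 + 1)) / e ^ 2)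
    (hA1 : A1 = (2 * B * hc * (C * U / N) + C * (hc ^ 2 * U ^ 2 / N ^ 2 + 1)) / e ^ 2)
    (h1 : z ≤ 2 * B * hc * (dg + ω ^ 2 * EO (C * U) (C * U / N) u) +
      ω ^ 2 * EO (C * (hc ^ 2 * U ^ 2 + 1)) (C * (hc ^ 2 * U ^ 2 / N ^ 2 + 1)) u) :
    z ≤ e ^ 2 * (ρ * dg + ω ^ 2 * EO A0 A1 u) := by
  have hEO := eo_id (u := u) he hA0 hA1
  have h2 : 2 * B * hc ≤ e ^ 2 * ρ := by
    rw [div_le_iff₀ (by positivity)] at hr
    linarith
  have h3 := mul_le_mul_of_nonneg_right h2 hdg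
  refine h1.trans ?_
  have h4 : e ^ 2 * (ρ * dg + ω ^ 2 * EO A0 A1 u) =
      e ^ 2 * ρ * dg + ω ^ 2 * (e ^ 2 * EO A0 A1 u) := by ring
  rw [h4, hEO]
  have h5 : 2 * B * hc * (dg + ω ^ 2 * EO (C * U) (C * U / N) u) =
      2 * B * hc * dg + ω ^ 2 * (2 * B * hc * EO (C * U) (C * U / N) u) := by ring
  rw [h5]
  linarith

lemma par_L {L T T1 ε κ a C' : ℝ} (hL8 : 8 ≤ L) (hε : 0 < ε) (hL15 : 15 / ε ≤ L)
    (p3 : T1 ≤ 5 / 4 * T) (p8 : Real.exp (a * L) ≤ T1) (p9 : T1 ≤ Real.exp L)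
    (hκ : 5 * κ ≤ a) (hC' : 0 ≤ C')
    (g1 : 1 * (L + 1) ^ 2 ≤ Real.exp (a * L)) (g2 : C' * (L + 1) ^ 2 ≤ Real.exp (κ / 4 * L)) :
    L ^ 2 ≤ T1 ∧ T1 ≤ Real.exp (L ^ 2 / 2) ∧ T1 ≤ Real.exp (L ^ 2) ∧ Real.exp (5 * κ * L) ≤ T1 ∧
      C' ≤ Real.exp (κ / 4 * L) ∧ 3 * L ≤ ε / 4 * T := by
  have hLpos : 0 < L := by linarith
  have a1 : 8 * L ≤ L ^ 2 := by
    rw [sq]; exact mul_le_mul_of_nonneg_right hL8 hLpos.le
  have q1 : L ^ 2 ≤ T1 := by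
    rw [one_mul] at g1
    have h2 : L ^ 2 ≤ (L + 1) ^ 2 := pow_le_pow_left₀ (by linarith) (by linarith) 2
    exact (h2.trans g1).trans p8
  refine ⟨q1, ?_, ?_, ?_, ?_, ?_⟩
  · exact p9.trans (Real.exp_le_exp.mpr (by linarith))
  · exact p9.trans (Real.exp_le_exp.mpr (by linarith))
  · refine le_trans (Real.exp_le_exp.mpr ?_) p8
    exact mul_le_mul_of_nonneg_right hκ (by linarith)
  · have h2 : C' * 1 ≤ C' * (L + 1) ^ 2 :=
      mul_le_mul_of_nonneg_left (one_le_pow₀ (by linarith)) hC'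
    linarith
  · have h1 : 15 ≤ ε * L := by
      rw [div_le_iff₀ hε] at hL15
      linarith
    have h2 : L ^ 2 ≤ 5 / 4 * T := q1.trans p3
    have h3 : 15 * L ≤ ε * L * L := mul_le_mul_of_nonneg_right h1 hLpos.le
    have h4 : ε * L ^ 2 ≤ ε * (5 / 4 * T) := mul_le_mul_of_nonneg_left h2 hε.le
    have h5 : ε * L * L = ε * L ^ 2 := by ring
    linarith

section

variable (K : Type) [Field K] [NumberField K]

theorem mainU (θ h ε η1 : ℝ) (hθ0 : 0 < θ) (hθ1 : θ ≤ 1) (hh : 0 < h) (hh1 : h ≤ 1) (hε : 0 < ε)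
    (hεh : ε < h) (hη1 : 0 < η1) :
    ∃ δ X₀ : ℝ, 0 < δ ∧ δ < 1 ∧ 1 ≤ X₀ ∧
    ∀ 𝔮 : Ideal (𝓞 K), 𝔮 ≠ ⊥ → X₀ ≤ (Ideal.absNorm 𝔮 : ℝ) →
      (Un 𝔮 : ℝ) ≤ (Ideal.absNorm 𝔮 : ℝ) ^ δ →
      𝔮 ≠ ⊤ ∧ (Fam 𝔮).Finite ∧ (Ideal.absNorm 𝔮 : ℝ) ^ (1 - ε) ≤ ((Fam 𝔮).ncard : ℝ) ∧
      ∀ T : ℝ, (Ideal.absNorm 𝔮 : ℝ) ^ η1 ≤ T →
        ((Ideal.absNorm 𝔮 : ℝ) * T ^ Module.finrank ℚ K) ^ h ≤ (Ideal.absNorm 𝔮 : ℝ) →
        ∀ E : Finset (Ideal (𝓞 K) →*₀ ℂ), (∀ ψ ∈ E, ψ ∈ Fam 𝔮) →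
          ((Fam 𝔮).ncard : ℝ) - E.card ≤ (Ideal.absNorm 𝔮 : ℝ) ^ (1 - θ) →
          1 ≤ T ∧
          {x : ℂ | (∃ ψ ∈ E, x ∈ zset (LL K ψ) T ((2 + ε) * T)) ∧ 1 / 2 ≤ x.re}.Finite ∧
          ((1 + θ) * h - ε) * (T / (2 * Real.pi) *
            Real.log ((Ideal.absNorm 𝔮 : ℝ) * T ^ Module.finrank ℚ K)) ≤
            ({x : ℂ | (∃ ψ ∈ E, x ∈ zset (LL K ψ) T ((2 + ε) * T)) ∧ 1 / 2 ≤ x.re}.ncard : ℝ) := by
  have hpi := Real.pi_pos
  have hε1 : ε < 1 := by linarith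
  obtain ⟨A, hA, hgood⟩ := Pool.Agent.Y773.IQ.good K
  obtain ⟨d, hd⟩ : ∃ d : ℝ, d = (Module.finrank ℚ K : ℝ) := ⟨_, rfl⟩
  have hd1 : 1 ≤ d := by
    have := Module.finrank_pos (R := ℚ) (M := K)
    rw [hd]; exact_mod_cast this
  have hd0 : 0 < d := by linarith
  have hθh : h ≤ (1 + θ) * h := by
    have : 0 ≤ θ * h := by positivity
    linarith
  obtain ⟨β, hβ⟩ : ∃ β : ℝ, β = ((1 + θ) * h - ε / 2) * d := ⟨_, rfl⟩
  have hβ0 : 0 < β := by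
    rw [hβ]
    refine mul_pos (by linarith) hd0
  have h2h : (1 + θ) * h ≤ 2 := by
    calc (1 + θ) * h ≤ 2 * 1 := mul_le_mul (by linarith) hh1 hh.le (by norm_num)
      _ = 2 := by norm_num
  have hβ2 : β ≤ 2 * d := by
    rw [hβ]
    exact mul_le_mul_of_nonneg_right (by linarith) hd0.le
  obtain ⟨γ, ε1, η, L1, h0, hπ, hε10, hη0, hη11, hL1, hU0⟩ := abs_union d A hd1 hA (ε / 4) β
    (by positivity) (by linarith) hβ0
  obtain ⟨ρ, κ0, hρ0, hρ1, hκ0, hms⟩ := msu_of (Pool.Agent.Y772.HC.t_mer K) d hd1 γ β h0 hπ hβ0 ε1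
    hε10
  obtain ⟨κ, hκd⟩ : ∃ κ : ℝ, κ = min κ0 (η1 * h * d / 10) := ⟨_, rfl⟩
  have hκ : 0 < κ := by rw [hκd]; exact lt_min hκ0 (by positivity)
  have hκ1 : κ ≤ κ0 := by rw [hκd]; exact min_le_left _ _
  have hκ2 : 5 * κ ≤ η1 * h * d / 2 := by
    have : κ ≤ η1 * h * d / 10 := by rw [hκd]; exact min_le_right _ _
    linarith
  obtain ⟨L2, hL2, hms2⟩ := hms κ hκ hκ1
  clear hms
  obtain ⟨C, hC, hls⟩ := avg_ls K
  obtain ⟨δ6, hδ6⟩ : ∃ δ6 : ℝ, δ6 = min (κ / (8 * d)) (min (ε / 8) (θ / 2)) := ⟨_, rfl⟩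
  have hδ60 : 0 < δ6 := by
    rw [hδ6]; exact lt_min (by positivity) (lt_min (by positivity) (by positivity))
  have hδ61 : 8 * d * δ6 ≤ κ := by
    have : δ6 ≤ κ / (8 * d) := by rw [hδ6]; exact min_le_left _ _
    rw [le_div_iff₀ (by positivity)] at this
    linarith
  have hδ62 : 8 * δ6 ≤ ε := by
    have : δ6 ≤ ε / 8 := by rw [hδ6]; exact (min_le_right _ _).trans (min_le_left _ _)
    linarith
  have hδ63 : 2 * δ6 ≤ θ := by
    have : δ6 ≤ θ / 2 := by rw [hδ6]; exact (min_le_right _ _).trans (min_le_right _ _)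
    linarith
  obtain ⟨Nr, hNr, hratio⟩ := fam_ratio K (D := 5 / 4) (by norm_num)
  obtain ⟨δ3, Nc, hδ3, hNc, hcond⟩ := fam_cond K (δ := η / 2) (by positivity)
  obtain ⟨δ4, Nl, hδ4, hNl, hlarge⟩ := fam_large K (ε := δ6 / 2) (by positivity)
  obtain ⟨Ng, hNg, hg⟩ := exists_ge (δ6 / 2) 2 (by positivity)
  obtain ⟨Nh, hNh, hgh⟩ := exists_ge (θ / 2) (4 / ρ) (by positivity)
  obtain ⟨x1, hx1, hx1'⟩ := exp_dom (ε / 4) (36 * C * Real.exp (2 * d) / ρ) (by positivity)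
  obtain ⟨x2, hx2, hx2'⟩ := exp_dom (η1 * h * d / 2) 1 (by positivity)
  obtain ⟨x3, hx3, hx3'⟩ := exp_dom (κ / 4) (9 * C / ρ) (by positivity)
  obtain ⟨δ, hδ⟩ : ∃ δ : ℝ, δ = min (min δ3 δ4) (min δ6 (1 / 4)) := ⟨_, rfl⟩
  have hδ0 : 0 < δ := by
    rw [hδ]
    exact lt_min (lt_min hδ3 hδ4) (lt_min hδ60 (by norm_num))
  have hδa : δ ≤ δ3 := by rw [hδ]; exact (min_le_left _ _).trans (min_le_left _ _)
  have hδb : δ ≤ δ4 := by rw [hδ]; exact (min_le_left _ _).trans (min_le_right _ _)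
  have hδc : δ ≤ δ6 := by rw [hδ]; exact (min_le_right _ _).trans (min_le_left _ _)
  have hδe : δ ≤ 1 / 4 := by rw [hδ]; exact (min_le_right _ _).trans (min_le_right _ _)
  obtain ⟨ℓ, hℓ⟩ : ∃ ℓ : ℝ, ℓ = d * (max (max (max L1 L2) (max x2 x3)) (max (15 / ε) 1)) :=
    ⟨_, rfl⟩
  refine ⟨δ, max (max (max Nr Nc) (max Nl Ng)) (max Nh (Real.exp (max ℓ x1))), hδ0, by linarith,
    ?_, ?_⟩
  · exact ((hNr.trans (le_max_left _ _)).trans (le_max_left _ _)).trans (le_max_left _ _)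
  intro 𝔮 hbot hN hU
  have hN1 : Nr ≤ (Ideal.absNorm 𝔮 : ℝ) :=
    (((le_max_left _ _).trans (le_max_left _ _)).trans (le_max_left _ _)).trans hN
  have hN2 : Nc ≤ (Ideal.absNorm 𝔮 : ℝ) :=
    (((le_max_right _ _).trans (le_max_left _ _)).trans (le_max_left _ _)).trans hN
  have hN3 : Nl ≤ (Ideal.absNorm 𝔮 : ℝ) :=
    (((le_max_left _ _).trans (le_max_right _ _)).trans (le_max_left _ _)).trans hN
  have hN4 : Ng ≤ (Ideal.absNorm 𝔮 : ℝ) :=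
    (((le_max_right _ _).trans (le_max_right _ _)).trans (le_max_left _ _)).trans hN
  have hN6 : Nh ≤ (Ideal.absNorm 𝔮 : ℝ) :=
    ((le_max_left _ _).trans (le_max_right _ _)).trans hN
  have hN5 : Real.exp (max ℓ x1) ≤ (Ideal.absNorm 𝔮 : ℝ) :=
    ((le_max_right _ _).trans (le_max_right _ _)).trans hN
  clear hN
  have hNpos : (0 : ℝ) < (Ideal.absNorm 𝔮 : ℝ) := lt_of_lt_of_le (Real.exp_pos _) hN5
  have hΛ1 : ℓ ≤ Real.log (Ideal.absNorm 𝔮) := by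
    rw [Real.le_log_iff_exp_le hNpos]
    exact (Real.exp_le_exp.mpr (le_max_left _ _)).trans hN5
  have hΛ2 : x1 ≤ Real.log (Ideal.absNorm 𝔮) := by
    rw [Real.le_log_iff_exp_le hNpos]
    exact (Real.exp_le_exp.mpr (le_max_right _ _)).trans hN5
  have hdℓ : d ≤ ℓ := by
    rw [hℓ]
    calc d = d * 1 := (mul_one d).symm
      _ ≤ _ := mul_le_mul_of_nonneg_left ((le_max_right _ _).trans (le_max_right _ _)) hd0.le
  have hdΛ : d ≤ Real.log (Ideal.absNorm 𝔮) := hdℓ.trans hΛ1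
  have hNge : (1 : ℝ) ≤ (Ideal.absNorm 𝔮 : ℝ) := one_le_norm K hbot
  have htop : 𝔮 ≠ ⊤ := by
    intro h
    rw [h, Ideal.absNorm_top, Nat.cast_one, Real.log_one] at hdΛ
    linarith
  have hpw : ∀ e : ℝ, δ ≤ e → (Un 𝔮 : ℝ) ≤ (Ideal.absNorm 𝔮 : ℝ) ^ e := fun e he =>
    hU.trans (Real.rpow_le_rpow_of_exponent_le hNge he)
  have hfin := (Fam_finite hbot htop).1
  have hbig0 := hlarge 𝔮 hbot htop (hpw _ hδb) hN3
  have hbig : (Ideal.absNorm 𝔮 : ℝ) ^ (1 - ε) ≤ ((Fam 𝔮).ncard : ℝ) :=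
    (Real.rpow_le_rpow_of_exponent_le hNge (by linarith)).trans hbig0
  refine ⟨htop, hfin, hbig, ?_⟩
  intro T hT1 hTh S hS hSc
  obtain ⟨N, hNd⟩ : ∃ N : ℝ, N = (Ideal.absNorm 𝔮 : ℝ) := ⟨_, rfl⟩
  -- the number of the characters
  obtain ⟨Sf, hSf⟩ : ∃ Sf : Finset (Ideal (𝓞 K) →*₀ ℂ), ∀ ψ, ψ ∈ Sf ↔ ψ ∈ Fam 𝔮 :=
    ⟨hfin.toFinset, fun ψ => hfin.mem_toFinset⟩
  have hSfc : (Sf.card : ℝ) = ((Fam 𝔮).ncard : ℝ) := by
    have : (Fam 𝔮) = (Sf : Set _) := by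
      ext ψ; rw [Finset.mem_coe, hSf]
    rw [this, Set.ncard_coe_finset]
  have hES : S ⊆ Sf := fun ψ hψ => (hSf ψ).mpr (hS ψ hψ)
  have hcB0 : (0 : ℝ) ≤ (Sf.card : ℝ) - S.card := by
    have : (S.card : ℝ) ≤ Sf.card := by exact_mod_cast Finset.card_le_card hES
    linarith
  rw [← hSfc] at hSc hbig0
  have hgN := hg _ hN4
  have hghN := hgh _ hN6
  rw [← hNd] at hgN hghN hSc hbig0 hΛ1 hΛ2 hdΛ hNpos hNge hT1 hTh hpw
  have hgN2 : (4 : ℝ) ≤ N ^ δ6 := by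
    have h1 := mul_le_mul hgN hgN (by norm_num) (by positivity)
    rw [← Real.rpow_add hNpos] at h1
    rw [show δ6 / 2 + δ6 / 2 = δ6 by ring] at h1
    linarith
  have hp1 : 0 < N ^ (1 - δ6) := Real.rpow_pos_of_pos hNpos _
  have hk1 : N ^ (1 - θ) ≤ N ^ (1 - δ6) / 4 := by
    have h1 : N ^ (1 - θ) ≤ N ^ (1 - 2 * δ6) :=
      Real.rpow_le_rpow_of_exponent_le hNge (by linarith)
    have h2 : N ^ (1 - 2 * δ6) * N ^ δ6 = N ^ (1 - δ6) := by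
      rw [← Real.rpow_add hNpos]; congr 1; ring
    have h3 : 0 < N ^ (1 - 2 * δ6) := Real.rpow_pos_of_pos hNpos _
    have h4 := mul_le_mul_of_nonneg_left hgN2 h3.le
    linarith
  have hk2 : 2 * N ^ (1 - δ6) ≤ Sf.card := by
    refine le_trans ?_ hbig0
    have h2 : N ^ (1 - δ6) * N ^ (δ6 / 2) = N ^ (1 - δ6 / 2) := by
      rw [← Real.rpow_add hNpos]; congr 1; ring
    rw [← h2]
    have h4 := mul_le_mul_of_nonneg_left hgN hp1.le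
    linarith
  have hk3 : N ^ (1 - δ6) ≤ S.card := by linarith
  have hk4 : (Sf.card : ℝ) ≤ 5 / 4 * S.card := by linarith
  have hSfpos : (0 : ℝ) < S.card := lt_of_lt_of_le hp1 hk3
  have hSf2 : (Sf.card : ℝ) ≤ 2 * S.card := by linarith
  have hSne : S.Nonempty := by
    rw [← Finset.card_pos]
    exact_mod_cast hSfpos
  have hhc : (Nat.card (Cls (pi1 htop)) : ℝ) ≤ 2 * S.card := by
    have h1 := hratio 𝔮 hbot htop (hU.trans (Real.rpow_le_rpow_of_exponent_le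
      (one_le_norm K hbot) hδe)) hN1
    rw [← hSfc] at h1
    linarith
  -- the parameters
  have hTpos : 0 < T := lt_of_lt_of_le (Real.rpow_pos_of_pos hNpos _) hT1
  obtain ⟨T1, hT1d⟩ : ∃ T1 : ℝ, T1 = (1 + ε / 4) * T := ⟨_, rfl⟩
  obtain ⟨L, hL⟩ : ∃ L : ℝ, L = Real.log N / d + Real.log T1 := ⟨_, rfl⟩
  have hlogNT : Real.log (N * T ^ Module.finrank ℚ K) = Real.log N + d * Real.log T := by
    rw [Real.log_mul hNpos.ne' (pow_pos hTpos _).ne', Real.log_pow, hd]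
  have hh2 : h * (Real.log N + d * Real.log T) ≤ Real.log N := by
    have h1 : 0 < N * T ^ Module.finrank ℚ K := by positivity
    have h2 := Real.log_le_log (Real.rpow_pos_of_pos h1 h) hTh
    rwa [Real.log_rpow h1, hlogNT] at h2
  obtain ⟨p1, p2, p3, p4, p5, p6, p7, p8, p9, p10⟩ := par_T hNge hd1 hh hh1 hη1 hε hε1 hT1d hL hT1
    hh2 hdΛ
  have hLℓ : max (max (max L1 L2) (max x2 x3)) (max (15 / ε) 1) ≤ L := by
    have h1 : d * (max (max (max L1 L2) (max x2 x3)) (max (15 / ε) 1)) ≤ d * L := by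
      rw [← hℓ]; exact hΛ1.trans p6
    exact le_of_mul_le_mul_left h1 hd0
  have hLL1 : L1 ≤ L :=
    (((le_max_left _ _).trans (le_max_left _ _)).trans (le_max_left _ _)).trans hLℓ
  have hLL2 : L2 ≤ L :=
    (((le_max_right _ _).trans (le_max_left _ _)).trans (le_max_left _ _)).trans hLℓ
  have hLx2 : x2 ≤ L :=
    (((le_max_left _ _).trans (le_max_right _ _)).trans (le_max_left _ _)).trans hLℓ
  have hLx3 : x3 ≤ L :=
    (((le_max_right _ _).trans (le_max_right _ _)).trans (le_max_left _ _)).trans hLℓ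
  have hL15 : 15 / ε ≤ L := ((le_max_left _ _).trans (le_max_right _ _)).trans hLℓ
  have hL8 : 8 ≤ L := hL1.trans hLL1
  have hLpos : 0 < L := by linarith
  obtain ⟨q1, q2, q2', q3, q4, hwin⟩ := par_L hL8 hε hL15 p3 p8 p9 hκ2 (by positivity)
    (hx2' L hLx2) (hx3' L hLx3)
  have q5 := hx1' (d * L) (hΛ2.trans p6)
  have q6 : (4 : ℝ) ≤ ρ * N ^ (θ / 2) := by
    rw [div_le_iff₀ hρ0] at hghN
    linarith
  have hU1 : (1 : ℝ) ≤ (Un 𝔮 : ℝ) := by exact_mod_cast one_le_Un hbot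
  obtain ⟨r1, r2, r3⟩ := par_U (B := (Sf.card : ℝ) - S.card) (e := (S.card : ℝ))
    (hc := (Nat.card (Cls (pi1 htop)) : ℝ)) (U := (Un 𝔮 : ℝ)) hNge hd1 hC hθ0 hθ1 hh hh1 hε hρ0 hκ
    hδ60 hδ61 hδ62 hδ63 hU1 (hpw _ hδc) hβ hβ0 hLpos.le p6 p7 hcB0 hSc hk3 (Nat.cast_nonneg _) hhc
    q6 q4 q5
  obtain ⟨A0, hA0⟩ : ∃ A0 : ℝ, A0 = (2 * ((Sf.card : ℝ) - S.card) *
    (Nat.card (Cls (pi1 htop)) : ℝ) * (C * (Un 𝔮 : ℝ)) +
    C * ((Nat.card (Cls (pi1 htop)) : ℝ) ^ 2 * (Un 𝔮 : ℝ) ^ 2 + 1)) / (S.card : ℝ) ^ 2 := ⟨_, rfl⟩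
  obtain ⟨A1, hA1⟩ : ∃ A1 : ℝ, A1 = (2 * ((Sf.card : ℝ) - S.card) *
    (Nat.card (Cls (pi1 htop)) : ℝ) * (C * (Un 𝔮 : ℝ) / N) +
    C * ((Nat.card (Cls (pi1 htop)) : ℝ) ^ 2 * (Un 𝔮 : ℝ) ^ 2 / N ^ 2 + 1)) / (S.card : ℝ) ^ 2 :=
    ⟨_, rfl⟩
  rw [← hA0] at r2
  rw [← hA1] at r3
  have hC0 : 0 ≤ C := by linarith
  have hA00 : 0 ≤ A0 := by rw [hA0]; positivity
  have hA10 : 0 ≤ A1 := by rw [hA1]; positivity
  have hn1 : ∀ ψ ∈ S, ∀ 𝔞, ‖ψ 𝔞‖ ≤ 1 := fun ψ hψ =>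
    (cd_spec (hS ψ hψ)).2.2.norm_le_one Pool.Agent.Y772.G.t_sig
  have hMS := hms2 S (fun ψ m => cc ψ m * (vonMangoldt m : ℂ)) (Ideal.absNorm 𝔮) L T1 A0 A1 hSne
    hLL2 q1 q2' q3 (absNorm_pos' hbot) (by rw [← hNd]; exact p6)
    (fun ψ hψ m => by
      have h8 := Pool.Agent.Y772.DK.norm_cc_le ψ (hn1 ψ hψ) m
      rw [norm_mul, Complex.norm_real,
        Real.norm_of_nonneg ArithmeticFunction.vonMangoldt_nonneg]
      rw [← hd] at h8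
      exact mul_le_mul_of_nonneg_right h8 ArithmeticFunction.vonMangoldt_nonneg)
    (fun ψ hψ m => by
      have h8 := cc_sq_le ψ (hn1 ψ hψ) m
      rwa [← hd] at h8)
    hA00 hA10 (fun M b ω u hω hu hb => by
      have h1 := hls 𝔮 hbot htop Sf S hSf hES M b ω u hω hu hb
      rw [← hNd] at h1
      exact num_ls hSfpos (Finset.sum_nonneg fun m _ => by positivity) r1 hA0 hA1 h1) r2 r3
  -- the average of the conductors
  have hcond' := hcond 𝔮 hbot htop Sf (hU.trans (Real.rpow_le_rpow_of_exponent_le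
      (one_le_norm K hbot) hδa)) hSf hN2
  have hav := avg_cond hbot S Sf hSf hS hSf2 (δ2 := η / 2) (L := L) (by positivity) hcond'
    hd1 (by linarith : 0 < T1) p5 (by rw [← hNd]; exact hL)
  rw [show 1 - 2 * (η / 2) = 1 - η by ring] at hav
  have hGd := fun ψ (hψ : ψ ∈ S) => goodLL hgood hbot (hS ψ hψ)
  rw [← hd] at hGd
  have hLη : L ≤ (1 + η) * L := by
    have : 0 ≤ η * L := by positivity
    linarith
  have hres := hU0 S (fun _ => (S.card : ℝ)⁻¹)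
    (fun ψ t => Real.log ((Ideal.absNorm (cd 𝔮 ψ) : ℝ) ^ (1 / d) * t)) (fun ψ => LL K ψ)
    (fun ψ m => cc ψ m * (vonMangoldt m : ℂ)) L (β * L) T1 hLL1 q1 q2
    (fun ψ hψ => ⟨by positivity, (hGd ψ hψ).1, (hGd ψ hψ).2,
      (lc_bounds hbot (hS ψ hψ) hd1 p4 (by rw [← hNd]; exact hL)).2.trans hLη⟩)
    (by rw [Finset.sum_const, nsmul_eq_mul]; exact mul_inv_cancel₀ hSfpos.ne')
    (by
      rw [← Finset.mul_sum, inv_mul_eq_div, le_div_iff₀ hSfpos]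
      exact hav)
    le_rfl (mul_le_mul_of_nonneg_right hβ2 hLpos.le) hMS
  -- the windows
  have hfinB : {x : ℂ | (∃ ψ ∈ S, x ∈ zset (LL K ψ) T ((2 + ε) * T)) ∧ 1 / 2 ≤ x.re}.Finite := by
    have hall : (⋃ ψ ∈ (S : Set (Ideal (𝓞 K) →*₀ ℂ)), zset (LL K ψ) T ((2 + ε) * T)).Finite :=
      S.finite_toSet.biUnion fun ψ hψ =>
        Y767.WH.zset_finite_E hA (hGd ψ hψ).1 (hGd ψ hψ).2 _ _ p1
    refine hall.subset ?_
    rintro x ⟨⟨i, hi, hx⟩, -⟩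
    exact Set.mem_biUnion hi hx
  refine ⟨p1, hfinB, ?_⟩
  have hsub : {x : ℂ | (∃ ψ ∈ S, x ∈ zset (LL K ψ) (T1 - 3 * L) (2 * T1 + 3 * L)) ∧
      1 / 2 ≤ x.re} ⊆ {x : ℂ | (∃ ψ ∈ S, x ∈ zset (LL K ψ) T ((2 + ε) * T)) ∧ 1 / 2 ≤ x.re} := by
    rintro x ⟨⟨i, hi, x1, x2, x3, x4, x5⟩, hre⟩
    refine ⟨⟨i, hi, x1, x2, ?_, ?_, x5⟩, hre⟩
    · rw [hT1d] at x3
      linarith
    · rw [hT1d] at x4
      linarith
  have hnc : (({x : ℂ | (∃ ψ ∈ S, x ∈ zset (LL K ψ) (T1 - 3 * L) (2 * T1 + 3 * L)) ∧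
      1 / 2 ≤ x.re} : Set ℂ).ncard : ℝ) ≤
      ({x : ℂ | (∃ ψ ∈ S, x ∈ zset (LL K ψ) T ((2 + ε) * T)) ∧ 1 / 2 ≤ x.re}.ncard : ℝ) := by
    exact_mod_cast Set.ncard_le_ncard hsub hfinB
  refine le_trans ?_ (hres.trans hnc)
  rw [← hNd, hlogNT]
  obtain ⟨ℓ0, hℓ0⟩ : ∃ ℓ0 : ℝ, ℓ0 = Real.log N + d * Real.log T := ⟨_, rfl⟩
  rw [← hℓ0] at p10 ⊢
  have hℓ00 : 0 ≤ ℓ0 := by
    rw [hℓ0]
    have h1 := Real.log_nonneg hNge
    have h2 := Real.log_nonneg p1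
    positivity
  have e1 : β * L = ((1 + θ) * h - ε / 2) * (d * L) := by rw [hβ]; ring
  rw [e1]
  have e2 : (1 + θ) * h - ε ≤ (1 - ε / 4) * ((1 + θ) * h - ε / 2) := by
    have h1 : ε / 4 * ((1 + θ) * h) ≤ ε / 4 * 2 := mul_le_mul_of_nonneg_left h2h (by positivity)
    have h2 : 0 ≤ ε / 4 * (ε / 2) := by positivity
    have h3 : (1 - ε / 4) * ((1 + θ) * h - ε / 2) =
      (1 + θ) * h - ε / 2 - ε / 4 * ((1 + θ) * h) + ε / 4 * (ε / 2) := by ring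
    rw [h3]
    linarith
  have e3 : 0 ≤ (1 - ε / 4) * ((1 + θ) * h - ε / 2) := mul_nonneg (by linarith) (by linarith)
  calc ((1 + θ) * h - ε) * (T / (2 * Real.pi) * ℓ0) ≤
      ((1 - ε / 4) * ((1 + θ) * h - ε / 2)) * (T / (2 * Real.pi) * ℓ0) :=
        mul_le_mul_of_nonneg_right e2 (by positivity)
    _ ≤ ((1 - ε / 4) * ((1 + θ) * h - ε / 2)) * (T1 / (2 * Real.pi) * (d * L)) := by
        refine mul_le_mul_of_nonneg_left ?_ e3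
        refine mul_le_mul ?_ p10 hℓ00 (by positivity)
        exact div_le_div_of_nonneg_right p2 (by positivity)
    _ = (1 - ε / 4) * (((1 + θ) * h - ε / 2) * (d * L) * (T1 / (2 * Real.pi))) := by ring

end

end Pool.Agent.N784.DU
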