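import Pool.Agent.N784.AD.Par

/-! # The parameters (helper784) -/

set_option autoImplicit false
set_option linter.unusedVariables false

namespace Pool.Agent.N784.DU

lemma par_U {N d θ h ε δ κ ρ C U L β B e hc : ℝ} (hN : 1 ≤ N) (hd : 1 ≤ d) (hC : 1 ≤ C)
    (hθ0 : 0 < θ) (hθ1 : θ ≤ 1) (hh0 : 0 < h) (hh1 : h ≤ 1) (hε : 0 < ε) (hρ : 0 < ρ)
    (hκ : 0 < κ) (hδ : 0 < δ) (hδ1 : 8 * d * δ ≤ κ) (hδ2 : 8 * δ ≤ ε) (hδ3 : 2 * δ ≤ θ)
    (hU1 : 1 ≤ U) (hU : U ≤ N ^ δ) (hβ : β = ((1 + θ) * h - ε / 2) * d) (hβ0 : 0 < β)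
    (hL : 0 ≤ L) (e1 : Real.log N ≤ d * L) (e2 : h * (d * L) ≤ Real.log N + d)
    (hB0 : 0 ≤ B) (hB : B ≤ N ^ (1 - θ)) (he : N ^ (1 - δ) ≤ e) (hhc0 : 0 ≤ hc)
    (hhc : hc ≤ 2 * e) (g0 : 4 ≤ ρ * N ^ (θ / 2))
    (g1 : 9 * C / ρ ≤ Real.exp (κ / 4 * L))
    (g2 : 36 * C * Real.exp (2 * d) / ρ * (d * L + 1) ^ 2 ≤ Real.exp (ε / 4 * (d * L))) :
    2 * B * hc / e ^ 2 ≤ ρ ∧
      (2 * B * hc * (C * U) + C * (hc ^ 2 * U ^ 2 + 1)) / e ^ 2 ≤ ρ * Real.exp (κ * L / 2) ∧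
      (2 * B * hc * (C * U / N) + C * (hc ^ 2 * U ^ 2 / N ^ 2 + 1)) / e ^ 2 *
        Real.exp (β * L) * (β * L + 1) ^ 2 ≤ ρ := by
  have hN0 : 0 < N := by linarith
  have hd0 : 0 < d := by linarith
  have hΛ : 0 ≤ Real.log N := Real.log_nonneg hN
  have he1 : 1 ≤ N ^ (1 - δ) := Real.one_le_rpow hN (by linarith)
  have he0 : 0 < e := by linarith
  have hpos : ∀ x : ℝ, 0 < N ^ x := fun x => Real.rpow_pos_of_pos hN0 x
  -- the ratios
  obtain ⟨b, hb⟩ : ∃ b : ℝ, b = B / e := ⟨_, rfl⟩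
  obtain ⟨t, ht⟩ : ∃ t : ℝ, t = hc / e := ⟨_, rfl⟩
  obtain ⟨v, hv⟩ : ∃ v : ℝ, v = 1 / e := ⟨_, rfl⟩
  have hb0 : 0 ≤ b := by rw [hb]; positivity
  have ht0 : 0 ≤ t := by rw [ht]; positivity
  have hv0 : 0 < v := by rw [hv]; positivity
  have ht2 : t ≤ 2 := by rw [ht, div_le_iff₀ he0]; exact hhc
  have hbN : b ≤ N ^ (δ - θ) := by
    rw [hb, div_le_iff₀ he0]
    calc B ≤ N ^ (1 - θ) := hB
      _ = N ^ (δ - θ) * N ^ (1 - δ) := by rw [← Real.rpow_add hN0]; congr 1; ring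
      _ ≤ _ := mul_le_mul_of_nonneg_left he (hpos _).le
  have hvN : v ≤ N ^ (δ - 1) := by
    rw [hv, div_le_iff₀ he0]
    calc (1 : ℝ) = N ^ (δ - 1) * N ^ (1 - δ) := by
          rw [← Real.rpow_add hN0]
          rw [show δ - 1 + (1 - δ) = 0 by ring, Real.rpow_zero]
      _ ≤ _ := mul_le_mul_of_nonneg_left he (hpos _).le
  have hb1 : b ≤ 1 := hbN.trans (Real.rpow_le_one_of_one_le_of_nonpos hN (by linarith))
  have hv1 : v ≤ 1 := hvN.trans (Real.rpow_le_one_of_one_le_of_nonpos hN (by linarith))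
  have hC0 : 0 ≤ C := by linarith
  have hU0 : 0 ≤ U := by linarith
  have hUU : U ≤ U ^ 2 := by nlinarith
  have hU2 : U ^ 2 ≤ N ^ (2 * δ) := by
    have := pow_le_pow_left₀ hU0 hU 2
    rwa [← Real.rpow_natCast, ← Real.rpow_natCast, ← Real.rpow_mul hN0.le, Nat.cast_ofNat,
      mul_comm δ 2, Real.rpow_ofNat] at this
  have hexp : ∀ x : ℝ, N ^ x = Real.exp (x * Real.log N) := by
    intro x
    rw [Real.rpow_def_of_pos hN0, mul_comm]
  refine ⟨?_, ?_, ?_⟩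
  · have h1 : 2 * B * hc / e ^ 2 = 2 * b * t := by rw [hb, ht]; field_simp
    rw [h1]
    have h2 : N ^ (δ - θ) ≤ N ^ (-(θ / 2)) := Real.rpow_le_rpow_of_exponent_le hN (by linarith)
    have h3 : 4 * N ^ (-(θ / 2)) ≤ ρ := by
      rw [Real.rpow_neg hN0.le, ← div_eq_mul_inv, div_le_iff₀ (hpos _)]
      exact g0
    have h4 : b * t ≤ b * 2 := mul_le_mul_of_nonneg_left ht2 hb0
    linarith
  · have h1 : (2 * B * hc * (C * U) + C * (hc ^ 2 * U ^ 2 + 1)) / e ^ 2 =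
        2 * b * t * (C * U) + C * (t ^ 2 * U ^ 2 + v ^ 2) := by
      rw [hb, ht, hv]; field_simp
    rw [h1]
    have h2 : 2 * b * t * (C * U) ≤ 4 * (C * U ^ 2) := by
      have : b * t ≤ 1 * 2 := mul_le_mul hb1 ht2 ht0 zero_le_one
      calc 2 * b * t * (C * U) = 2 * (b * t) * (C * U) := by ring
        _ ≤ 2 * (1 * 2) * (C * U ^ 2) := by gcongr
        _ = _ := by ring
    have h3 : C * (t ^ 2 * U ^ 2 + v ^ 2) ≤ 5 * (C * U ^ 2) := by
      have a1 : t ^ 2 ≤ 2 ^ 2 := pow_le_pow_left₀ ht0 ht2 2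
      have a2 : v ^ 2 ≤ 1 := pow_le_one₀ hv0.le hv1
      have a3 : v ^ 2 ≤ U ^ 2 := a2.trans (one_le_pow₀ hU1)
      calc C * (t ^ 2 * U ^ 2 + v ^ 2) ≤ C * (2 ^ 2 * U ^ 2 + U ^ 2) := by gcongr
        _ = _ := by ring
    have h4 : U ^ 2 ≤ Real.exp (κ / 4 * L) := by
      refine hU2.trans ?_
      rw [hexp]
      refine Real.exp_le_exp.mpr ?_
      calc 2 * δ * Real.log N ≤ 2 * δ * (d * L) := mul_le_mul_of_nonneg_left e1 (by positivity)
        _ = (8 * d * δ) / 4 * L := by ring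
        _ ≤ κ / 4 * L := by gcongr
    have h5 : 9 * C ≤ ρ * Real.exp (κ / 4 * L) := by
      rw [div_le_iff₀ hρ] at g1
      linarith
    calc 2 * b * t * (C * U) + C * (t ^ 2 * U ^ 2 + v ^ 2) ≤ (9 * C) * U ^ 2 := by linarith
      _ ≤ (ρ * Real.exp (κ / 4 * L)) * Real.exp (κ / 4 * L) :=
          mul_le_mul h5 h4 (sq_nonneg _) (by positivity)
      _ = ρ * Real.exp (κ * L / 2) := by
          rw [mul_assoc, ← Real.exp_add]; congr 2; ring
  · have h1 : (2 * B * hc * (C * U / N) + C * (hc ^ 2 * U ^ 2 / N ^ 2 + 1)) / e ^ 2 =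
        2 * b * t * (C * U / N) + C * (t ^ 2 * U ^ 2 / N ^ 2 + v ^ 2) := by
      rw [hb, ht, hv]; field_simp
    rw [h1]
    obtain ⟨Z, hZ⟩ : ∃ Z : ℝ, Z = N ^ (2 * δ - 1 - θ) := ⟨_, rfl⟩
    have hZ0 : 0 < Z := by rw [hZ]; exact hpos _
    have hNinv : ∀ x : ℝ, N ^ x / N = N ^ (x - 1) := fun x => by
      rw [Real.rpow_sub_one hN0.ne']
    have h2 : 2 * b * t * (C * U / N) ≤ 4 * C * Z := by
      have a1 : b * (U / N) ≤ Z := by
        calc b * (U / N) ≤ N ^ (δ - θ) * (N ^ δ / N) := by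
              refine mul_le_mul hbN (div_le_div_of_nonneg_right hU hN0.le) (by positivity)
                (hpos _).le
          _ = Z := by
              rw [hNinv, ← Real.rpow_add hN0, hZ]; congr 1; ring
      have a2 : 0 ≤ b * (U / N) := by positivity
      calc 2 * b * t * (C * U / N) = 2 * C * t * (b * (U / N)) := by ring
        _ ≤ 2 * C * 2 * Z := by gcongr
        _ = _ := by ring
    have h3 : U ^ 2 / N ^ 2 ≤ Z := by
      calc U ^ 2 / N ^ 2 ≤ N ^ (2 * δ) / N ^ 2 := div_le_div_of_nonneg_right hU2 (by positivity)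
        _ = N ^ (2 * δ - 2) := by
            rw [Real.rpow_sub hN0, Real.rpow_ofNat]
        _ ≤ Z := by rw [hZ]; exact Real.rpow_le_rpow_of_exponent_le hN (by linarith)
    have h4 : v ^ 2 ≤ Z := by
      calc v ^ 2 ≤ (N ^ (δ - 1)) ^ 2 := pow_le_pow_left₀ hv0.le hvN 2
        _ = N ^ (2 * δ - 2) := by
            rw [← Real.rpow_natCast, ← Real.rpow_mul hN0.le]
            congr 1
            push_cast
            ring
        _ ≤ Z := by rw [hZ]; exact Real.rpow_le_rpow_of_exponent_le hN (by linarith)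
    have h5 : C * (t ^ 2 * U ^ 2 / N ^ 2 + v ^ 2) ≤ 5 * C * Z := by
      have a1 : t ^ 2 ≤ 2 ^ 2 := pow_le_pow_left₀ ht0 ht2 2
      have a2 : 0 ≤ U ^ 2 / N ^ 2 := by positivity
      calc C * (t ^ 2 * U ^ 2 / N ^ 2 + v ^ 2) = C * (t ^ 2 * (U ^ 2 / N ^ 2) + v ^ 2) := by ring
        _ ≤ C * (2 ^ 2 * Z + Z) := by gcongr
        _ = _ := by ring
    have h6 : 2 * b * t * (C * U / N) + C * (t ^ 2 * U ^ 2 / N ^ 2 + v ^ 2) ≤ 9 * C * Z := by
      linarith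
    obtain ⟨x, hx⟩ : ∃ x : ℝ, x = d * L := ⟨_, rfl⟩
    rw [← hx] at e1 e2 g2
    have hx0 : 0 ≤ x := hΛ.trans e1
    have hβL : β * L = ((1 + θ) * h - ε / 2) * x := by rw [hβ, hx]; ring
    have hβL0 : 0 ≤ β * L := by positivity
    have h7 : β * L ≤ 2 * x := by
      rw [hβL]
      refine mul_le_mul_of_nonneg_right ?_ hx0
      have : (1 + θ) * h ≤ 2 * 1 := mul_le_mul (by linarith) hh1 hh0.le (by norm_num)
      linarith
    have h8 : Z * Real.exp (β * L) ≤ Real.exp (2 * d) * Real.exp (-(ε / 4 * x)) := by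
      rw [hZ, hexp, ← Real.exp_add, ← Real.exp_add]
      refine Real.exp_le_exp.mpr ?_
      rw [hβL]
      have a1 : (1 + θ) * (h * x) ≤ (1 + θ) * (Real.log N + d) :=
        mul_le_mul_of_nonneg_left e2 (by linarith)
      have a2 : θ * d ≤ d := by
        calc θ * d ≤ 1 * d := mul_le_mul_of_nonneg_right hθ1 hd0.le
          _ = d := one_mul d
      have a3 : 2 * δ * Real.log N ≤ ε / 4 * x := by
        calc 2 * δ * Real.log N ≤ 2 * δ * x := mul_le_mul_of_nonneg_left e1 (by positivity)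
          _ ≤ ε / 4 * x := mul_le_mul_of_nonneg_right (by linarith) hx0
      have a4 : ((1 + θ) * h - ε / 2) * x = (1 + θ) * (h * x) - ε / 2 * x := by ring
      have a5 : (1 + θ) * (Real.log N + d) = Real.log N + θ * Real.log N + d + θ * d := by ring
      have a6 : (2 * δ - 1 - θ) * Real.log N = 2 * δ * Real.log N - Real.log N -
        θ * Real.log N := by ring
      rw [a4, a6]
      linarith
    have h9 : (β * L + 1) ^ 2 ≤ 4 * (x + 1) ^ 2 := by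
      have := pow_le_pow_left₀ (show 0 ≤ β * L + 1 by linarith)
        (show β * L + 1 ≤ 2 * (x + 1) by linarith) 2
      refine this.trans (le_of_eq ?_)
      ring
    calc (2 * b * t * (C * U / N) + C * (t ^ 2 * U ^ 2 / N ^ 2 + v ^ 2)) * Real.exp (β * L) *
          (β * L + 1) ^ 2 ≤ (9 * C * Z) * Real.exp (β * L) * (4 * (x + 1) ^ 2) := by
          gcongr
      _ = 9 * C * (Z * Real.exp (β * L)) * (4 * (x + 1) ^ 2) := by ring
      _ ≤ 9 * C * (Real.exp (2 * d) * Real.exp (-(ε / 4 * x))) * (4 * (x + 1) ^ 2) := by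
          gcongr
      _ = ρ * (36 * C * Real.exp (2 * d) / ρ * (x + 1) ^ 2) * Real.exp (-(ε / 4 * x)) := by
          field_simp; ring
      _ ≤ ρ * Real.exp (ε / 4 * x) * Real.exp (-(ε / 4 * x)) := by
          gcongr
      _ = ρ := by rw [mul_assoc, ← Real.exp_add, add_neg_cancel, Real.exp_zero, mul_one]

end Pool.Agent.N784.DU
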