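import Pool.Agent.TH243.UNI.U1
import Pool.Agent.Y767.WA.FamAbsH

/-!
Distinct zeros of the union of a family of L-functions of degree `d` (helper784; port of
`Pool.Agent.TH243.UNI.U1` of helper243 to the class `GoodH` of helper767): mean square of the averaged
cut-off zero sum.
-/

open Complex Filter Topology Set MeasureTheory
open H370 (zset mult NN Nd Ns)

set_option autoImplicit false
set_option maxHeartbeats 4000000

namespace Pool.Agent.N784.DU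

open H385
open Y767.WH
open Pool.Agent.W354 (LogC)
open W388.LV (CoefE)
open Pool.Agent.TH243.UNI (ABB APf sq_avg_le ABB_norm_sq BB_cont ABB_cont ABB_int)

lemma APf_cont' {ι : Type} (s : Finset ι) (ω : ι → ℝ) (a : ι → ℕ → ℂ) (A : ℝ)
    (ha : ∀ i ∈ s, CoefE A (a i)) (T u : ℝ) (hT : 0 ≤ T) :
    Continuous (fun t : ℝ => APf s ω a T u t) := by
  unfold APf
  exact continuous_finsetSum _ fun i hi => continuous_const.mul ((ha i hi).Pf_cont T u hT)

lemma APf_int' {ι : Type} (s : Finset ι) (ω : ι → ℝ) (a : ι → ℕ → ℂ) (A : ℝ)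
    (hω : ∀ i ∈ s, 0 ≤ ω i) (h1 : ∑ i ∈ s, ω i = 1)
    (ha : ∀ i ∈ s, CoefE A (a i)) (T u : ℝ) (hT : 0 ≤ T) :
    Integrable (fun t : ℝ => ‖APf s ω a T u t‖ ^ 2) := by
  refine Integrable.mono' (integrable_finsetSum s fun i hi =>
    ((ha i hi).Pf_int T u hT).const_mul (ω i))
    ((APf_cont' s ω a A ha T u hT).norm.pow 2).aestronglyMeasurable
    (Eventually.of_forall fun t => ?_)
  rw [Real.norm_of_nonneg (sq_nonneg _)]
  refine le_trans (pow_le_pow_left₀ (norm_nonneg _) ?_ 2) (sq_avg_le s ω _ hω h1)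
  unfold APf
  refine (norm_sum_le _ _).trans (Finset.sum_le_sum fun i hi => ?_)
  rw [norm_mul, Complex.norm_real, Real.norm_of_nonneg (hω i hi)]

/-- mean square of the averaged zero sum for fixed `u` -/
lemma un_fixed_u (d A : ℝ) (hd : 1 ≤ d) (hA : 1 ≤ A) :
    ∃ K : ℝ, 0 < K ∧ ∀ {ι : Type} (s : Finset ι) (ω : ι → ℝ) (lc : ι → ℝ → ℝ) (F : ι → ℂ → ℂ)
      (a : ι → ℕ → ℂ) (T κ Λ Lm y1 y2 : ℝ) (Y : ℝ → ℝ),
      (∀ i ∈ s, 0 ≤ ω i ∧ LogC (lc i) ∧ GoodH d A (lc i) (F i) (a i) ∧ lc i T ≤ Lm) →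
      ∑ i ∈ s, ω i = 1 →
      3 ≤ κ → 8 * κ ≤ T → T ≤ Real.exp (κ ^ 2 / 2) → 1 ≤ Λ → 1 ≤ Lm →
      Lm ^ 2 * Real.exp (5 / 4 * Λ - κ ^ 2 / 2) ≤ Real.exp (-Λ) → 0 ≤ y1 → 0 ≤ y2 →
      (∀ u ∈ Set.Icc 0 Λ, ∫ t : ℝ, ‖APf s ω a T u t‖ ^ 2 ≤ Y u) →
      (∀ u ∈ Set.Icc 0 Λ, Y u ≤ T * (y1 * (u + 1) + y2)) →
      ∃ V1 V2 : ι → ℝ, (∀ i ∈ s, (zset (F i) (V1 i) (V2 i)).Finite ∧
          T - 3 * κ ≤ V1 i ∧ V1 i ≤ T - 3 * κ + 1 ∧
          2 * T + 3 * κ - 1 ≤ V2 i ∧ V2 i ≤ 2 * T + 3 * κ) ∧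
        ∀ u ∈ Set.Icc 0 Λ, ∫ t : ℝ, ‖ABB s ω F V1 V2 T u t‖ ^ 2 ≤
          (d * Lm) ^ 2 * (T / (2 * Real.pi) * Real.exp (-u ^ 2)) + Y u +
          K * ((d * Lm) ^ 2 * κ + (d * Lm) * T + (d * Lm) * T * (Real.sqrt y1 + Real.sqrt y2)) *
              Real.exp (-u / 2) := by
  obtain ⟨C1, hC1, hA1⟩ := A1_formula_E d A hd hA
  obtain ⟨C3, hC3, hwt⟩ := wt_sq_int
  obtain ⟨C4, hC4, hbt⟩ := bt_sq_int
  obtain ⟨C5, hC5, hzc⟩ := zcount_long_E d A hd hA
  refine ⟨Real.exp 1 * C4 + 2 * ((1 + C4) * Real.exp 1 + (1 + C4) * (4 * C1) * (1 + C3) +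
    4 * C1 * (1 + C3)) + (4 * C1) ^ 2 * (1 + C3) ^ 2 + 100 * (6 * C5) ^ 2 , by positivity, ?_⟩
  intro ι s ω lc F a T κ Λ Lm0 y1 y2 Y hs hω1 hκ hT hTκ hΛ hLm0 hLmΛ hy1 hy2 hY hYb
  obtain ⟨Lm, hLmd⟩ : ∃ L, L = d * Lm0 := ⟨_, rfl⟩
  rw [← hLmd]
  have hLm : 1 ≤ Lm := by rw [hLmd]; exact NL.a1 hd hLm0
  have hd0 : 0 ≤ d := by linarith
  have hT0 : 0 < T := by linarith
  have hT1 : 1 ≤ T := by linarith
  have hmain : ∀ i : ι, ∃ V : ℝ × ℝ, i ∈ s → T - 3 * κ ≤ V.1 ∧ V.1 ≤ T - 3 * κ + 1 ∧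
      2 * T + 3 * κ - 1 ≤ V.2 ∧ V.2 ≤ 2 * T + 3 * κ ∧
      ∀ u m : ℝ, 0 ≤ u → V.1 + κ ≤ m → m ≤ V.2 - κ →
        ‖A1 (F i) V.1 V.2 u m - (1 / (2 * Real.sqrt Real.pi) : ℝ) *
          (((d * lc i T : ℝ) : ℂ) * cexp (I * m * u) * Real.exp (-u ^ 2 / 4)
            - PP1 (a i) u m)‖ ≤
        C1 * (Real.exp (-u) + (lc i T) ^ 2 * Real.exp (5 / 4 * u - κ ^ 2 / 2)) := by
    intro i
    by_cases hi : i ∈ s
    · obtain ⟨-, hQ, hg, -⟩ := hs i hi
      obtain ⟨V1, V2, h1, h2, h3, h4, h5⟩ := hA1 (lc i) (F i) (a i) hQ hg T κ hκ hT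
      exact ⟨(V1, V2), fun _ => ⟨h1, h2, h3, h4, h5⟩⟩
    · exact ⟨0, fun h => absurd h hi⟩
  choose V hV using hmain
  have hfin : ∀ i ∈ s, (zset (F i) (V i).1 (V i).2).Finite := by
    intro i hi
    obtain ⟨-, hQ, hg, -⟩ := hs i hi
    obtain ⟨h1, h2, h3, h4, h5⟩ := hV i hi
    exact zset_finite_E hA hQ hg _ _ (by linarith)
  refine ⟨fun i => (V i).1, fun i => (V i).2, fun i hi => ?_, ?_⟩
  · obtain ⟨h1, h2, h3, h4, h5⟩ := hV i hi
    exact ⟨hfin i hi, h1, h2, h3, h4⟩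
  intro u hu
  obtain ⟨hu0, huΛ⟩ := hu
  have hω0 : ∀ i ∈ s, 0 ≤ ω i := fun i hi => (hs i hi).1
  have hlogpos : ∀ i ∈ s, 0 ≤ lc i T := by
    intro i hi
    exact (hs i hi).2.1.nonneg hT1
  have haa : ∀ i ∈ s, CoefE A (a i) := fun i hi => (hs i hi).2.2.1.coef
  -- the three functions
  set f : ℝ → ℝ := fun t => Lm * ‖bt T u t 0‖ with hf
  set g : ℝ → ℝ := fun t => ‖APf s ω a T u t‖ with hg
  set h : ℝ → ℝ := fun t => (4 * C1 * Real.exp (-u)) * wt T t with hh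
  have hfc : Continuous f := continuous_const.mul (fa_bt_cont T u 0).norm
  have hgc : Continuous g := (APf_cont' s ω a A haa T u hT0.le).norm
  have hhc : Continuous h := continuous_const.mul (wt_cont T)
  have hbt0 := hbt T κ u 0 (by linarith) hT1
    (hTκ.trans (Real.exp_le_exp.mpr (NL.a2 κ)))
  have hf2 : Integrable (fun t => f t ^ 2) := by
    simp only [hf, mul_pow]
    exact hbt0.1.const_mul _
  have hg2 : Integrable (fun t => g t ^ 2) := APf_int' s ω a A hω0 hω1 haa T u hT0.le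
  have hh2 : Integrable (fun t => h t ^ 2) := by
    simp only [hh, mul_pow]
    exact (hwt T hT0.le).1.const_mul _
  set X := Lm ^ 2 * (T / (2 * Real.pi) * Real.exp (-u ^ 2) + C4 * κ * Real.exp (-u ^ 2 / 2))
    with hXdef
  set Z := (4 * C1 * Real.exp (-u)) ^ 2 * (T + C3) with hZdef
  have hX : ∫ t, f t ^ 2 ≤ X := by
    simp only [hf, mul_pow]
    rw [integral_const_mul, hXdef]
    have := hbt0.2
    rw [sub_zero] at this
    gcongr
  have hY1 : ∫ t, g t ^ 2 ≤ Y u := hY u ⟨hu0, huΛ⟩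
  have hZ : ∫ t, h t ^ 2 ≤ Z := by
    simp only [hh]
    simp_rw [mul_pow _ (wt T _)]
    rw [integral_const_mul, hZdef]
    have := (hwt T hT0.le).2
    gcongr
  have hmk0 := fa_mink ({()} : Finset Unit) (fun _ => 1) (fun _ _ => zero_le_one)
    (fun _ => f) (fun _ => g) (fun _ => h) (fun _ _ => hfc) (fun _ _ => hgc) (fun _ _ => hhc)
    (fun _ _ => hf2) (fun _ _ => hg2) (fun _ _ => hh2) (X := X) (Y := Y u) (Z := Z)
    (by simpa using hX) (by simpa using hY1) (by simpa using hZ)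
  have hint : Integrable (fun t => (f t + g t + h t) ^ 2) := hmk0.1 () (by simp)
  have hmk : ∫ t, (f t + g t + h t) ^ 2 ≤
      X + Y u + Z + 2 * (Real.sqrt X * Real.sqrt (Y u) + Real.sqrt X * Real.sqrt Z +
        Real.sqrt (Y u) * Real.sqrt Z) := by
    simpa using hmk0.2
  have hYu0 : 0 ≤ Y u := le_trans (integral_nonneg fun t => sq_nonneg _) hY1
  -- the averaged sum
  have hLmbig : Lm0 ^ 2 * Real.exp (5 / 4 * u - κ ^ 2 / 2) ≤ Real.exp (-u) := by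
    calc Lm0 ^ 2 * Real.exp (5 / 4 * u - κ ^ 2 / 2) ≤
        Lm0 ^ 2 * Real.exp (5 / 4 * Λ - κ ^ 2 / 2) := by gcongr
      _ ≤ Real.exp (-Λ) := hLmΛ
      _ ≤ Real.exp (-u) := by gcongr
  have hLmbig2 : Lm0 ^ 2 * Real.exp (u - κ ^ 2 / 2) ≤ Real.exp (-u) := by
    refine le_trans ?_ hLmbig
    have : u - κ ^ 2 / 2 ≤ 5 / 4 * u - κ ^ 2 / 2 := by linarith
    gcongr
  have hbbi := ABB_int s ω F (fun i => (V i).1) (fun i => (V i).2) hω0 hω1 hfin T u
  have hnear : ∀ t ∈ Set.Icc (T - 3 * κ) (2 * T + 3 * κ),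
      ‖ABB s ω F (fun i => (V i).1) (fun i => (V i).2) T u t‖ ≤ f t + g t + h t := by
    intro t ht
    have hone : ∀ i ∈ s, ‖BB (F i) (V i).1 (V i).2 T u t -
        (((d * lc i T : ℝ) : ℂ) * bt T u t 0 - Pf (a i) T u t)‖ ≤
          (4 * C1 * Real.exp (-u)) * wt T t := by
      intro i hi
      obtain ⟨h1, h2, h3, h4, h5⟩ := hV i hi
      obtain ⟨hωi, hQ, hgd, hLi⟩ := hs i hi
      have hE : ∀ m : ℝ, (V i).1 + κ ≤ m → m ≤ (V i).2 - κ →
          ‖A1 (F i) (V i).1 (V i).2 u m - (1 / (2 * Real.sqrt Real.pi) : ℝ) *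
          (((d * lc i T : ℝ) : ℂ) * cexp (I * m * u) * Real.exp (-u ^ 2 / 4)
            - PP1 (a i) u m)‖ ≤
          2 * C1 * Real.exp (-u) := by
        intro m hm1 hm2
        refine (h5 u m hu0 hm1 hm2).trans ?_
        have hsq : (lc i T) ^ 2 ≤ Lm0 ^ 2 :=
          pow_le_pow_left₀ (hlogpos i hi) hLi 2
        have : (lc i T) ^ 2 * Real.exp (5 / 4 * u - κ ^ 2 / 2) ≤ Real.exp (-u) :=
          (mul_le_mul_of_nonneg_right hsq (Real.exp_pos _).le).trans hLmbig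
        exact NL.a3 hC1.le this
      have hb := W388.LV.BB_formula_D (F i) (a i) A hgd.coef (d * lc i T) (V i).1 (V i).2 T κ u
        (2 * C1 * Real.exp (-u)) (hfin i hi) hκ hT h2 h3 hE t ht.1 ht.2
      unfold Pf
      refine hb.trans (le_of_eq ?_)
      ring
    have hsplit : ABB s ω F (fun i => (V i).1) (fun i => (V i).2) T u t =
        ((∑ i ∈ s, ω i * (d * lc i T) : ℝ) : ℂ) * bt T u t 0 - APf s ω a T u t +
        ∑ i ∈ s, (ω i : ℂ) * (BB (F i) (V i).1 (V i).2 T u t -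
        (((d * lc i T : ℝ) : ℂ) * bt T u t 0 - Pf (a i) T u t)) := by
      unfold ABB APf
      push_cast
      rw [Finset.sum_mul, ← Finset.sum_sub_distrib, ← Finset.sum_add_distrib]
      refine Finset.sum_congr rfl fun i _ => ?_
      ring
    have hL1 : ∑ i ∈ s, ω i * (d * lc i T) ≤ Lm := by
      calc ∑ i ∈ s, ω i * (d * lc i T) ≤ ∑ i ∈ s, ω i * Lm :=
            Finset.sum_le_sum fun i hi => mul_le_mul_of_nonneg_left
              (by rw [hLmd]; exact mul_le_mul_of_nonneg_left (hs i hi).2.2.2 hd0) (hω0 i hi)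
        _ = Lm := by rw [← Finset.sum_mul, hω1, one_mul]
    have hL0 : 0 ≤ ∑ i ∈ s, ω i * (d * lc i T) :=
      Finset.sum_nonneg fun i hi => mul_nonneg (hω0 i hi) (mul_nonneg hd0 (hlogpos i hi))
    have he : ‖∑ i ∈ s, (ω i : ℂ) * (BB (F i) (V i).1 (V i).2 T u t -
        (((d * lc i T : ℝ) : ℂ) * bt T u t 0 - Pf (a i) T u t))‖ ≤ h t := by
      calc _ ≤ ∑ i ∈ s, ω i * ((4 * C1 * Real.exp (-u)) * wt T t) := by
            refine (norm_sum_le _ _).trans (Finset.sum_le_sum fun i hi => ?_)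
            rw [norm_mul, Complex.norm_real, Real.norm_of_nonneg (hω0 i hi)]
            exact mul_le_mul_of_nonneg_left (hone i hi) (hω0 i hi)
        _ = h t := by rw [← Finset.sum_mul, hω1, one_mul]
    have hl : ‖((∑ i ∈ s, ω i * (d * lc i T) : ℝ) : ℂ) * bt T u t 0‖ ≤ f t := by
      rw [norm_mul, Complex.norm_real, Real.norm_of_nonneg hL0]
      exact mul_le_mul_of_nonneg_right hL1 (norm_nonneg _)
    rw [hsplit]
    refine (norm_add_le _ _).trans ?_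
    have h3 := norm_sub_le (((∑ i ∈ s, ω i * (d * lc i T) : ℝ) : ℂ) * bt T u t 0)
      (APf s ω a T u t)
    have h4 : ‖APf s ω a T u t‖ = g t := rfl
    linarith
  have hfar : ∀ i ∈ s, ∫ t in (Set.Icc (T - 3 * κ) (2 * T + 3 * κ))ᶜ,
      ‖BB (F i) (V i).1 (V i).2 T u t‖ ^ 2 ≤ 100 * (6 * C5) ^ 2 * (T * Real.exp (-u)) := by
    intro i hi
    obtain ⟨h1, h2, h3, h4, h5⟩ := hV i hi
    obtain ⟨hωi, hQ, hgd, hLi⟩ := hs i hi
    refine (BB_far (F i) (V i).1 (V i).2 T κ u (hfin i hi) hT0.le (by linarith) hu0).trans ?_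
    have hNN : (NN (F i) (V i).1 (V i).2 : ℝ) ≤ 6 * C5 * (T * Lm0) := by
      refine (hzc (lc i) (F i) (a i) hQ hgd (V i).1 (V i).2 (by linarith) (by linarith)).trans ?_
      have e1 : (V i).2 - (V i).1 ≤ 2 * T := by linarith
      have e2 : lc i (V i).2 ≤ 3 * Lm0 := by
        have e3 := hQ.le_add (x := T) (y := (V i).2) (by linarith) (by linarith) (by linarith)
        have e5 := LogC.log3
        linarith
      have e6 : 0 ≤ lc i (V i).2 := hQ.nonneg (by linarith)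
      have e7 : 0 ≤ (V i).2 - (V i).1 := by linarith
      calc C5 * ((V i).2 - (V i).1) * lc i (V i).2 ≤
          C5 * (2 * T) * (3 * Lm0) := by gcongr
        _ = _ := by ring
    have hNN2 : (NN (F i) (V i).1 (V i).2 : ℝ) ^ 2 ≤ (6 * C5 * (T * Lm0)) ^ 2 :=
      pow_le_pow_left₀ (by positivity) hNN 2
    calc 100 * (NN (F i) (V i).1 (V i).2 : ℝ) ^ 2 * Real.exp (u - κ ^ 2)
        ≤ 100 * (6 * C5 * (T * Lm0)) ^ 2 * Real.exp (u - κ ^ 2) := by gcongr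
      _ = 100 * (6 * C5) ^ 2 * (T * ((T * Real.exp (-(κ ^ 2 / 2))) *
          (Lm0 ^ 2 * Real.exp (u - κ ^ 2 / 2)))) := by
          have : Real.exp (u - κ ^ 2) = Real.exp (-(κ ^ 2 / 2)) * Real.exp (u - κ ^ 2 / 2) := by
            rw [← Real.exp_add]; congr 1; ring
          rw [this]; ring
      _ ≤ 100 * (6 * C5) ^ 2 * (T * (1 * Real.exp (-u))) := by
          have : T * Real.exp (-(κ ^ 2 / 2)) ≤ 1 := by
            calc T * Real.exp (-(κ ^ 2 / 2)) ≤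
                Real.exp (κ ^ 2 / 2) * Real.exp (-(κ ^ 2 / 2)) := by gcongr
              _ = 1 := by rw [← Real.exp_add]; simp
          gcongr
      _ = _ := by ring
  have hsum : ∫ t : ℝ, ‖ABB s ω F (fun i => (V i).1) (fun i => (V i).2) T u t‖ ^ 2 ≤
      (∫ t, (f t + g t + h t) ^ 2) + 100 * (6 * C5) ^ 2 * (T * Real.exp (-u)) := by
    rw [← integral_add_compl (measurableSet_Icc : MeasurableSet
      (Set.Icc (T - 3 * κ) (2 * T + 3 * κ))) hbbi]
    apply add_le_add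
    · refine le_trans ?_ (setIntegral_le_integral (s := Set.Icc (T - 3 * κ) (2 * T + 3 * κ))
        hint (Filter.Eventually.of_forall fun t => sq_nonneg _))
      apply setIntegral_mono_on hbbi.integrableOn hint.integrableOn measurableSet_Icc
      intro t ht
      exact pow_le_pow_left₀ (norm_nonneg _) (hnear t ht) _
    · calc _ ≤ ∫ t in (Set.Icc (T - 3 * κ) (2 * T + 3 * κ))ᶜ,
            ∑ i ∈ s, ω i * ‖BB (F i) (V i).1 (V i).2 T u t‖ ^ 2 := by
            apply setIntegral_mono_on hbbi.integrableOn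
              (integrable_finsetSum s fun i hi =>
                ((BB_int (F i) (V i).1 (V i).2 T (hfin i hi)).1 u).const_mul (ω i)).integrableOn
              measurableSet_Icc.compl
            intro t _
            exact ABB_norm_sq s ω F _ _ hω0 hω1 T u t
        _ = ∑ i ∈ s, ω i * ∫ t in (Set.Icc (T - 3 * κ) (2 * T + 3 * κ))ᶜ,
            ‖BB (F i) (V i).1 (V i).2 T u t‖ ^ 2 := by
            rw [integral_finsetSum]
            · refine Finset.sum_congr rfl fun i _ => ?_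
              rw [integral_const_mul]
            · intro i hi
              exact (((BB_int (F i) (V i).1 (V i).2 T (hfin i hi)).1 u).const_mul (ω i)).integrableOn
        _ ≤ ∑ i ∈ s, ω i * (100 * (6 * C5) ^ 2 * (T * Real.exp (-u))) :=
            Finset.sum_le_sum fun i hi => mul_le_mul_of_nonneg_left (hfar i hi) (hω0 i hi)
        _ = _ := by rw [← Finset.sum_mul, hω1, one_mul]
  -- square roots
  set E2 := Real.exp (-u / 2) with hE2
  have hE2p : 0 < E2 := Real.exp_pos _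
  have heu : Real.exp (-u) ≤ E2 := by
    rw [hE2]; apply Real.exp_le_exp.mpr; linarith
  have heu1 : Real.exp (-u) ≤ 1 := by
    rw [Real.exp_le_one_iff]; linarith
  have sX : Real.sqrt X ≤ Lm * Real.sqrt T * (1 + C4) * Real.exp (-u ^ 2 / 4) := by
    rw [Real.sqrt_le_left (by positivity)]
    have e1 : (Lm * Real.sqrt T * (1 + C4) * Real.exp (-u ^ 2 / 4)) ^ 2 =
        Lm ^ 2 * (T * (1 + C4) ^ 2 * Real.exp (-u ^ 2 / 2)) := by
      rw [mul_pow, mul_pow, mul_pow, Real.sq_sqrt hT0.le,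
        ← Real.exp_nat_mul]
      have : ((2 : ℕ) : ℝ) * (-u ^ 2 / 4) = -u ^ 2 / 2 := by push_cast; ring
      rw [this]; ring
    rw [e1, hXdef]
    have e2 : Real.exp (-u ^ 2) ≤ Real.exp (-u ^ 2 / 2) := by
      exact Real.exp_le_exp.mpr (NL.a4 u)
    have e3 : T / (2 * Real.pi) ≤ T := by
      rw [div_le_iff₀ (by positivity)]
      exact NL.a5 hT0.le
    have e4 : κ ≤ T := by linarith
    have e5 : T / (2 * Real.pi) * Real.exp (-u ^ 2) + C4 * κ * Real.exp (-u ^ 2 / 2) ≤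
        T * (1 + C4) ^ 2 * Real.exp (-u ^ 2 / 2) := by
      calc T / (2 * Real.pi) * Real.exp (-u ^ 2) + C4 * κ * Real.exp (-u ^ 2 / 2) ≤
          T * Real.exp (-u ^ 2 / 2) + C4 * T * Real.exp (-u ^ 2 / 2) := by gcongr
        _ = T * (1 + C4) * Real.exp (-u ^ 2 / 2) := by ring
        _ ≤ T * (1 + C4) ^ 2 * Real.exp (-u ^ 2 / 2) := by
          have : (1 + C4) ≤ (1 + C4) ^ 2 := NL.a6 hC4.le
          gcongr
    gcongr
  have sY : Real.sqrt (Y u) ≤ Real.sqrt T * Real.sqrt (u + 1) * (Real.sqrt y1 + Real.sqrt y2) := by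
    rw [Real.sqrt_le_left (by positivity)]
    rw [mul_pow, mul_pow, Real.sq_sqrt hT0.le, Real.sq_sqrt (by linarith)]
    refine (hYb u ⟨hu0, huΛ⟩).trans ?_
    have e1 : (Real.sqrt y1 + Real.sqrt y2) ^ 2 ≥ y1 + y2 := by
      exact NL.a7 hy1 hy2
    calc T * (y1 * (u + 1) + y2) ≤ T * ((u + 1) * (y1 + y2)) := by
          apply mul_le_mul_of_nonneg_left _ hT0.le
          exact NL.a8 hu0 hy2
      _ ≤ T * ((u + 1) * (Real.sqrt y1 + Real.sqrt y2) ^ 2) := by gcongr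
      _ = _ := by ring
  have sZ : Real.sqrt Z ≤ (4 * C1 * Real.exp (-u)) * Real.sqrt T * (1 + C3) := by
    rw [Real.sqrt_le_left (by positivity)]
    have e1 : ((4 * C1 * Real.exp (-u)) * Real.sqrt T * (1 + C3)) ^ 2 =
        (4 * C1 * Real.exp (-u)) ^ 2 * (T * (1 + C3) ^ 2) := by
      calc ((4 * C1 * Real.exp (-u)) * Real.sqrt T * (1 + C3)) ^ 2 =
          (4 * C1 * Real.exp (-u)) ^ 2 *
            ((Real.sqrt T) ^ 2 * (1 + C3) ^ 2) := by ring
        _ = _ := by rw [Real.sq_sqrt hT0.le]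
    rw [e1, hZdef]
    have : T + C3 ≤ T * (1 + C3) ^ 2 := NL.a9 hT1 hC3
    exact mul_le_mul_of_nonneg_left this (by positivity)
  set S := Real.sqrt y1 + Real.sqrt y2 with hS
  have hS0 : 0 ≤ S := by positivity
  have hTT : Real.sqrt T * Real.sqrt T = T := Real.mul_self_sqrt hT0.le
  have cXY : Real.sqrt X * Real.sqrt (Y u) ≤
      (1 + C4) * Real.exp 1 * (Lm * T * S) * E2 := by
    calc Real.sqrt X * Real.sqrt (Y u) ≤
        (Lm * Real.sqrt T * (1 + C4) * Real.exp (-u ^ 2 / 4)) *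
          (Real.sqrt T * Real.sqrt (u + 1) * S) := by gcongr
      _ = (1 + C4) * (Lm * (Real.sqrt T * Real.sqrt T) * S) *
          (Real.exp (-u ^ 2 / 4) * Real.sqrt (u + 1)) := by ring
      _ ≤ (1 + C4) * (Lm * (Real.sqrt T * Real.sqrt T) * S) *
          (Real.exp 1 * Real.exp (-u / 2)) :=
          mul_le_mul_of_nonneg_left (fa_arith1 u) (by positivity)
      _ = _ := by rw [hTT]; ring
  have cXZ : Real.sqrt X * Real.sqrt Z ≤
      (1 + C4) * (4 * C1) * (1 + C3) * ((Lm * T)) * E2 := by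
    calc Real.sqrt X * Real.sqrt Z ≤
        (Lm * Real.sqrt T * (1 + C4) * Real.exp (-u ^ 2 / 4)) *
          ((4 * C1 * Real.exp (-u)) * Real.sqrt T * (1 + C3)) := by gcongr
      _ = (1 + C4) * (4 * C1) * (1 + C3) * (Lm * (Real.sqrt T * Real.sqrt T)) *
          (Real.exp (-u ^ 2 / 4) * Real.exp (-u)) := by ring
      _ ≤ (1 + C4) * (4 * C1) * (1 + C3) * (Lm * (Real.sqrt T * Real.sqrt T)) *
          (1 * E2) := by
          have : Real.exp (-u ^ 2 / 4) ≤ 1 := by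
            exact Real.exp_le_one_iff.mpr (NL.a10 u)
          gcongr
      _ = _ := by rw [hTT]; ring
  have cYZ : Real.sqrt (Y u) * Real.sqrt Z ≤
      4 * C1 * (1 + C3) * (Lm * T * S) * E2 := by
    calc Real.sqrt (Y u) * Real.sqrt Z ≤
        (Real.sqrt T * Real.sqrt (u + 1) * S) *
          ((4 * C1 * Real.exp (-u)) * Real.sqrt T * (1 + C3)) := by gcongr
      _ = 4 * C1 * (1 + C3) * (1 * (Real.sqrt T * Real.sqrt T) * S) *
          (Real.exp (-u) * Real.sqrt (u + 1)) := by ring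
      _ ≤ 4 * C1 * (1 + C3) * (Lm * (Real.sqrt T * Real.sqrt T) * S) * E2 := by
          have := fa_arith2 u
          gcongr
      _ = _ := by rw [hTT]
  have cZ : Z ≤ (4 * C1) ^ 2 * (1 + C3) ^ 2 * ((Lm * T)) * E2 := by
    calc Z ≤ (4 * C1 * Real.exp (-u)) ^ 2 * (T * (1 + C3) ^ 2) := by
          have : T + C3 ≤ T * (1 + C3) ^ 2 := NL.a9 hT1 hC3
          rw [hZdef]
          gcongr
      _ = (4 * C1) ^ 2 * (1 + C3) ^ 2 * (1 * T) * (Real.exp (-u) * Real.exp (-u)) := by ring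
      _ ≤ (4 * C1) ^ 2 * (1 + C3) ^ 2 * ((Lm * T)) * (1 * E2) := by gcongr
      _ = _ := by ring
  have cX : X ≤ Lm ^ 2 * (T / (2 * Real.pi) * Real.exp (-u ^ 2)) +
      Real.exp 1 * C4 * (Lm ^ 2 * κ) * E2 := by
    have := fa_arith3 u
    have e1 : Lm ^ 2 * (C4 * κ * Real.exp (-u ^ 2 / 2)) ≤
        Lm ^ 2 * (C4 * κ * (Real.exp 1 * Real.exp (-u / 2))) := by
      have : 0 ≤ κ := by linarith
      gcongr
    rw [hXdef, mul_add]
    have e2 : Lm ^ 2 * (C4 * κ * (Real.exp 1 * Real.exp (-u / 2))) =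
      Real.exp 1 * C4 * (Lm ^ 2 * κ) * E2 := by rw [hE2]; ring
    linarith
  have cO : (100 * (6 * C5) ^ 2 * (T * Real.exp (-u))) ≤
      100 * (6 * C5) ^ 2 * ((Lm * T)) * E2 := by
    calc (100 * (6 * C5) ^ 2 * (T * Real.exp (-u))) =
        100 * (6 * C5) ^ 2 * (1 * T) * Real.exp (-u) := by ring
      _ ≤ _ := by gcongr
  -- final
  set D1 := (Lm ^ 2 * κ) with hD1
  set D2 := (Lm * T) with hD2
  set D3 := Lm * T * S with hD3
  have d1 : 0 ≤ D1 * E2 := by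
    have : 0 ≤ κ := by linarith
    positivity
  have d2 : 0 ≤ D2 * E2 := by positivity
  have d3 : 0 ≤ D3 * E2 := by positivity
  have k1 : 0 < Real.exp 1 * C4 := by positivity
  have k2 : 0 < (1 + C4) * Real.exp 1 := by positivity
  have k3 : 0 < (1 + C4) * (4 * C1) * (1 + C3) := by positivity
  have k4 : 0 < 4 * C1 * (1 + C3) := by positivity
  have k5 : 0 < (4 * C1) ^ 2 * (1 + C3) ^ 2 := by positivity
  have k6 : 0 < 100 * (6 * C5) ^ 2 := by positivity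
  set K1 := Real.exp 1 * C4 with hK1
  set K2 := (1 + C4) * Real.exp 1
  set K3 := (1 + C4) * (4 * C1) * (1 + C3)
  set K4 := 4 * C1 * (1 + C3)
  set K5 := (4 * C1) ^ 2 * (1 + C3) ^ 2
  set K6 := 100 * (6 * C5) ^ 2
  have key : (K1 * (D1 * E2) + 2 * (K2 * (D3 * E2) + K3 * (D2 * E2) + K4 * (D3 * E2)) +
      K5 * (D2 * E2) + K6 * (D2 * E2)) ≤
      (K1 + 2 * (K2 + K3 + K4) + K5 + K6) * (D1 * E2 + D2 * E2 + D3 * E2) := by
    generalize D1 * E2 = g1 at *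
    generalize D2 * E2 = g2 at *
    generalize D3 * E2 = g3 at *
    have e1 : (K1 + 2 * (K2 + K3 + K4) + K5 + K6) * (g1 + g2 + g3) -
        (K1 * g1 + 2 * (K2 * g3 + K3 * g2 + K4 * g3) + K5 * g2 + K6 * g2) =
        K1 * (g2 + g3) + 2 * (K2 * (g1 + g2) + K3 * (g1 + g3) + K4 * (g1 + g2)) +
        K5 * (g1 + g3) + K6 * (g1 + g3) := by ring
    have e2 : 0 ≤ K1 * (g2 + g3) + 2 * (K2 * (g1 + g2) + K3 * (g1 + g3) + K4 * (g1 + g2)) +
        K5 * (g1 + g3) + K6 * (g1 + g3) := by positivity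
    linarith
  have e0 : (K1 + 2 * (K2 + K3 + K4) + K5 + K6) * (D1 * E2 + D2 * E2 + D3 * E2) =
      (K1 + 2 * (K2 + K3 + K4) + K5 + K6) * (D1 + D2 + D3) * E2 := by ring
  calc ∫ t : ℝ, ‖ABB s ω F (fun i => (V i).1) (fun i => (V i).2) T u t‖ ^ 2 ≤
      X + Y u + Z + 2 * (Real.sqrt X * Real.sqrt (Y u) + Real.sqrt X * Real.sqrt Z +
        Real.sqrt (Y u) * Real.sqrt Z) + (K6 * (T * Real.exp (-u))) := by
        linarith
    _ ≤ Lm ^ 2 * (T / (2 * Real.pi) * Real.exp (-u ^ 2)) + Y u +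
        (K1 * (D1 * E2) + 2 * (K2 * (D3 * E2) + K3 * (D2 * E2) + K4 * (D3 * E2)) +
      K5 * (D2 * E2) + K6 * (D2 * E2)) := by
        linarith
    _ ≤ _ := by linarith



end Pool.Agent.N784.DU
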