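import Pool.Agent.N784.DU.U1

/-!
Distinct zeros of the union of a family of L-functions of degree `d` (helper784; port of
`Pool.Agent.TH243.UNI.U2`): integration over `u`.
-/

open Complex Filter Topology Set MeasureTheory
open H370 (zset mult NN Nd Ns)

set_option autoImplicit false
set_option maxHeartbeats 4000000

namespace Pool.Agent.N784.DU

open H385
open Y767.WH
open Pool.Agent.W354 (LogC)
open W388.LV (CoefE)
open Pool.Agent.TH243.UNI (ABB APf)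

/-- the averaged sum, integrated over `u` -/
lemma un_core (γ : ℝ) (h0 : 0 < γ) (hπ : γ < Real.pi) (d A : ℝ) (hd : 1 ≤ d) (hA : 1 ≤ A) :
    ∃ K : ℝ, 0 < K ∧ ∀ {ι : Type} (s : Finset ι) (ω : ι → ℝ) (lc : ι → ℝ → ℝ) (F : ι → ℂ → ℂ)
      (a : ι → ℕ → ℂ) (T κ Λ Lm y1 y2 : ℝ) (Y : ℝ → ℝ),
      (∀ i ∈ s, 0 ≤ ω i ∧ LogC (lc i) ∧ GoodH d A (lc i) (F i) (a i) ∧ lc i T ≤ Lm) →
      ∑ i ∈ s, ω i = 1 →
      3 ≤ κ → 8 * κ ≤ T → T ≤ Real.exp (κ ^ 2 / 2) → 1 ≤ Λ → 1 ≤ Lm →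
      Lm ^ 2 * Real.exp (5 / 4 * Λ - κ ^ 2 / 2) ≤ Real.exp (-Λ) → 0 ≤ y1 → 0 ≤ y2 →
      (∀ u ∈ Set.Icc 0 Λ, ∫ t : ℝ, ‖APf s ω a T u t‖ ^ 2 ≤ Y u) →
      (∀ u ∈ Set.Icc 0 Λ, Y u ≤ T * (y1 * (u + 1) + y2)) →
      IntervalIntegrable Y volume 0 Λ →
      ∃ V1 V2 : ι → ℝ, (∀ i ∈ s, (zset (F i) (V1 i) (V2 i)).Finite ∧
          T - 3 * κ ≤ V1 i ∧ V1 i ≤ T - 3 * κ + 1 ∧
          2 * T + 3 * κ - 1 ≤ V2 i ∧ V2 i ≤ 2 * T + 3 * κ) ∧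
        (Continuous (fun u : ℝ => ∫ t : ℝ, ‖ABB s ω F V1 V2 T u t‖ ^ 2) →
        (2 / (Real.sqrt Real.pi * Λ)) * (∫ u in (0 : ℝ)..Λ, Rw γ (u / Λ) *
          ∫ t : ℝ, ‖ABB s ω F V1 V2 T u t‖ ^ 2) ≤
        (d * Lm) ^ 2 * Rw γ 0 * T / (2 * Real.pi * Λ) +
        (2 / (Real.sqrt Real.pi * Λ)) * (∫ u in (0 : ℝ)..Λ, Rw γ (u / Λ) * Y u) +
        K * ((d * Lm) ^ 2 * κ / Λ + (d * Lm) * T / Λ +
          (d * Lm) * T * (Real.sqrt y1 + Real.sqrt y2) / Λ)) := by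
  obtain ⟨K, hK, hfix⟩ := un_fixed_u d A hd hA
  have hR0 : 0 ≤ Rw γ 0 := Rw_nonneg γ h0 hπ 0
  have hRc := fa_Rw_cont γ h0 hπ
  refine ⟨4 * (Rw γ 0 + 1) * K / Real.sqrt Real.pi, by positivity, ?_⟩
  intro ι s ω lc F a T κ Λ Lm0 y1 y2 Y hs hω1 hκ hT hTκ hΛ hLm0 hLmΛ hy1 hy2 hY hYb hYi
  obtain ⟨V1, V2, hV, hu⟩ := hfix s ω lc F a T κ Λ Lm0 y1 y2 Y hs hω1 hκ hT hTκ hΛ hLm0 hLmΛ hy1
    hy2 hY hYb
  obtain ⟨Lm, hLmd⟩ : ∃ L, L = d * Lm0 := ⟨_, rfl⟩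
  rw [← hLmd] at hu ⊢
  have hLm : 1 ≤ Lm := by rw [hLmd]; exact NL.a1 hd hLm0
  refine ⟨V1, V2, hV, fun hGc => ?_⟩
  have hT0 : 0 < T := by linarith
  have hΛ0 : 0 < Λ := by linarith
  have hκ0 : 0 < κ := by linarith
  set D := Lm ^ 2 * κ + Lm * T + Lm * T * (Real.sqrt y1 + Real.sqrt y2) with hD
  have hD0 : 0 ≤ D := by positivity
  set G : ℝ → ℝ := fun u => ∫ t : ℝ, ‖ABB s ω F V1 V2 T u t‖ ^ 2 with hG
  have hRc2 : Continuous (fun u : ℝ => Rw γ (u / Λ)) := hRc.comp (by fun_prop)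
  show (2 / (Real.sqrt Real.pi * Λ)) * (∫ u in (0 : ℝ)..Λ, Rw γ (u / Λ) * G u) ≤ _
  have hgi : IntervalIntegrable (fun u : ℝ => Rw γ 0 * (Lm ^ 2 * (T / (2 * Real.pi)) *
      Real.exp (-u ^ 2))) volume 0 Λ :=
    (by fun_prop : Continuous (fun u : ℝ => Rw γ 0 * (Lm ^ 2 * (T / (2 * Real.pi)) *
      Real.exp (-u ^ 2)))).intervalIntegrable _ _
  have hYi2 : IntervalIntegrable (fun u : ℝ => Rw γ (u / Λ) * Y u) volume 0 Λ :=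
    hYi.continuousOn_mul hRc2.continuousOn
  have hei : IntervalIntegrable (fun u : ℝ => Rw γ 0 * (K * D * Real.exp (-u / 2))) volume 0 Λ :=
    (by fun_prop : Continuous (fun u : ℝ => Rw γ 0 * (K * D *
      Real.exp (-u / 2)))).intervalIntegrable _ _
  have hint : ∫ u in (0 : ℝ)..Λ, Rw γ (u / Λ) * G u ≤
      ∫ u in (0 : ℝ)..Λ, (Rw γ 0 * (Lm ^ 2 * (T / (2 * Real.pi)) * Real.exp (-u ^ 2)) +
        Rw γ (u / Λ) * Y u + Rw γ 0 * (K * D * Real.exp (-u / 2))) := by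
    apply intervalIntegral.integral_mono_on hΛ0.le _ ((hgi.add hYi2).add hei)
    · intro u hu'
      have h1 := hu u hu'
      have hr0 := Rw_nonneg γ h0 hπ (u / Λ)
      have hr1 : Rw γ (u / Λ) ≤ Rw γ 0 := fa_Rw_le γ h0 hπ (div_nonneg hu'.1 hΛ0.le)
      calc Rw γ (u / Λ) * G u ≤
          Rw γ (u / Λ) * (Lm ^ 2 * (T / (2 * Real.pi) * Real.exp (-u ^ 2)) + Y u +
          K * D * Real.exp (-u / 2)) := mul_le_mul_of_nonneg_left h1 hr0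
        _ = Rw γ (u / Λ) * (Lm ^ 2 * (T / (2 * Real.pi)) * Real.exp (-u ^ 2)) +
            Rw γ (u / Λ) * Y u + Rw γ (u / Λ) * (K * D * Real.exp (-u / 2)) := by ring
        _ ≤ _ := by gcongr
    · exact (hRc2.mul hGc).intervalIntegrable _ _
  rw [intervalIntegral.integral_add (hgi.add hYi2) hei,
    intervalIntegral.integral_add hgi hYi2, intervalIntegral.integral_const_mul,
    intervalIntegral.integral_const_mul, intervalIntegral.integral_const_mul,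
    intervalIntegral.integral_const_mul] at hint
  have hg1 := fa_gauss_int Λ hΛ0.le
  have he1 := fa_exp_int Λ
  have hsp : 0 < Real.sqrt Real.pi := Real.sqrt_pos.mpr Real.pi_pos
  have hc0 : 0 < 2 / (Real.sqrt Real.pi * Λ) := by positivity
  set IY := ∫ u in (0 : ℝ)..Λ, Rw γ (u / Λ) * Y u with hIY
  have hfin2 : ∫ u in (0 : ℝ)..Λ, Rw γ (u / Λ) * G u ≤
      Rw γ 0 * (Lm ^ 2 * (T / (2 * Real.pi)) * (Real.sqrt Real.pi / 2)) + IY +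
        (Rw γ 0 + 1) * (K * D * 2) := by
    refine hint.trans ?_
    have e1 : Rw γ 0 * (Lm ^ 2 * (T / (2 * Real.pi)) * ∫ u in (0 : ℝ)..Λ, Real.exp (-u ^ 2)) ≤
        Rw γ 0 * (Lm ^ 2 * (T / (2 * Real.pi)) * (Real.sqrt Real.pi / 2)) := by gcongr
    have e2 : Rw γ 0 * (K * D * ∫ u in (0 : ℝ)..Λ, Real.exp (-u / 2)) ≤
        (Rw γ 0 + 1) * (K * D * 2) := by
      calc Rw γ 0 * (K * D * ∫ u in (0 : ℝ)..Λ, Real.exp (-u / 2)) ≤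
          Rw γ 0 * (K * D * 2) := by gcongr
        _ ≤ _ := by
          apply mul_le_mul_of_nonneg_right (by linarith) (by positivity)
    linarith
  calc (2 / (Real.sqrt Real.pi * Λ)) * ∫ u in (0 : ℝ)..Λ, Rw γ (u / Λ) * G u
      ≤ (2 / (Real.sqrt Real.pi * Λ)) * (Rw γ 0 * (Lm ^ 2 * (T / (2 * Real.pi)) *
        (Real.sqrt Real.pi / 2)) + IY + (Rw γ 0 + 1) * (K * D * 2)) :=
        mul_le_mul_of_nonneg_left hfin2 hc0.le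
    _ = _ := by
        rw [hD]
        field_simp
        ring

end Pool.Agent.N784.DU
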