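import Pool.Agent.TH243.UNI.U3
import Pool.Agent.N784.DU.U1
import Pool.Agent.Y767.WA.PerChiH

/-!
Distinct zeros of the union of a family of L-functions of degree `d` (helper784; port of
`Pool.Agent.TH243.UNI.U3`): the trace inequality for the union of the zero sets.
-/

open Complex Filter Topology Set MeasureTheory
open scoped BigOperators ComplexConjugate
open H370 (zset mult NN Nd Ns)

set_option autoImplicit false
set_option maxHeartbeats 4000000
set_option linter.unusedVariables false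

namespace Pool.Agent.N784.DU

open H385 H385.PerChi
open Y767.WH
open Pool.Agent.W354 (LogC)
open Pool.Agent.TH243.UNI (ABB UZ au UZ_finite au_sum)

section

variable {ι : Type} (s : Finset ι) (ω : ι → ℝ) (F : ι → ℂ → ℂ) (V1 V2 : ι → ℝ) (T : ℝ)
  {d A : ℝ} {lc : ι → ℝ → ℝ} {a : ι → ℕ → ℂ}

open Classical in
/-- continuity in `u` of the mean square of the averaged sum -/
lemma ABB_cont_u (hF : ∀ i ∈ s, GoodH d A (lc i) (F i) (a i)) (hV : ∀ i ∈ s, 1 ≤ V1 i)
    (hfin : ∀ i ∈ s, (zset (F i) (V1 i) (V2 i)).Finite) :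
    Continuous (fun u : ℝ => ∫ t : ℝ, ‖ABB s ω F V1 V2 T u t‖ ^ 2) := by
  classical
  have hU := UZ_finite s F V1 V2 hfin
  set Z := hU.toFinset.image zz with hZdef
  have hZ : ∀ z ∈ Z, (starRingEnd ℂ) z ∈ Z := by
    intro z hz
    obtain ⟨x, hx, rfl⟩ := Finset.mem_image.mp hz
    rw [Set.Finite.mem_toFinset] at hx
    obtain ⟨i, hi, hx⟩ := hx
    rw [← zz_refl]
    refine Finset.mem_image_of_mem _ ?_
    rw [Set.Finite.mem_toFinset]
    exact ⟨i, hi, Y767.WH.PerChiE.zset_refl (hF i hi) (hV i hi) hx⟩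
  have hac : ∀ z ∈ Z, au s ω F V1 V2 T ((starRingEnd ℂ) z) =
      (starRingEnd ℂ) (au s ω F V1 V2 T z) := by
    intro z hz
    obtain ⟨x, hx, rfl⟩ := Finset.mem_image.mp hz
    rw [← zz_refl]
    simp only [au, zz_spec, map_sum, map_mul, Complex.conj_ofReal]
    refine Finset.sum_congr rfl fun i hi => ?_
    congr 1
    by_cases h : x ∈ zset (F i) (V1 i) (V2 i)
    · have h' := Y767.WH.PerChiE.zset_refl (hF i hi) (hV i hi) h
      rw [if_pos h, if_pos h', map_mul, Complex.conj_natCast, cc_conj, zz_refl,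
        Y767.WH.PerChiE.mult_refl (hF i hi) h.1 h.2.1 (by linarith [hV i hi, h.2.2.1])]
    · have h' : ¬ (1 - (starRingEnd ℂ) x) ∈ zset (F i) (V1 i) (V2 i) := by
        intro h2
        have h3 := Y767.WH.PerChiE.zset_refl (hF i hi) (hV i hi) h2
        apply h
        have e : 1 - (starRingEnd ℂ) (1 - (starRingEnd ℂ) x) = x := by simp
        rwa [e] at h3
      rw [if_neg h, if_neg h', map_zero]
  have h := Quad.GG_cont Z hZ (au s ω F V1 V2 T) hac
  refine h.congr fun u => ?_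
  unfold Quad.GG
  refine integral_congr_ae (Filter.Eventually.of_forall fun t => ?_)
  simp only
  congr 2
  rw [hZdef, au_sum s ω F V1 V2 T hfin hU (fun z => cexp (I * u * z) * cexp (-(z - t) ^ 2 / 2))]
  rfl

/-- the trace inequality for the union -/
theorem un_trace (γ : ℝ) (h0 : 0 < γ) (hπ : γ < Real.pi) (Λ : ℝ) (hΛ : 0 < Λ)
    (hF : ∀ i ∈ s, GoodH d A (lc i) (F i) (a i)) (hV : ∀ i ∈ s, 1 ≤ V1 i)
    (hfin : ∀ i ∈ s, (zset (F i) (V1 i) (V2 i)).Finite) (c : ℝ) :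
    4 * c * (∑ i ∈ s, ω i * ∑ᶠ x ∈ zset (F i) (V1 i) (V2 i),
        (mult (F i) x : ℝ) * (cc T (zz x)).re) ≤
      4 * (Set.ncard {x : ℂ | x ∈ UZ s F V1 V2 ∧ 1 / 2 ≤ x.re} : ℝ) +
      c ^ 2 * ((2 / (Real.sqrt Real.pi * Λ)) * (∫ u in (0 : ℝ)..Λ, Rw γ (u / Λ) *
          ∫ t : ℝ, ‖ABB s ω F V1 V2 T u t‖ ^ 2)) := by
  classical
  have hU := UZ_finite s F V1 V2 hfin
  set Z := hU.toFinset.image zz with hZdef
  have hUrefl : ∀ x ∈ UZ s F V1 V2, 1 - (starRingEnd ℂ) x ∈ UZ s F V1 V2 := by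
    rintro x ⟨i, hi, hx⟩
    exact ⟨i, hi, Y767.WH.PerChiE.zset_refl (hF i hi) (hV i hi) hx⟩
  have hZ : ∀ z ∈ Z, (starRingEnd ℂ) z ∈ Z := by
    intro z hz
    obtain ⟨x, hx, rfl⟩ := Finset.mem_image.mp hz
    rw [Set.Finite.mem_toFinset] at hx
    rw [← zz_refl]
    refine Finset.mem_image_of_mem _ ?_
    rw [Set.Finite.mem_toFinset]
    exact hUrefl x hx
  have hac : ∀ z ∈ Z, au s ω F V1 V2 T ((starRingEnd ℂ) z) =
      (starRingEnd ℂ) (au s ω F V1 V2 T z) := by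
    intro z hz
    obtain ⟨x, hx, rfl⟩ := Finset.mem_image.mp hz
    rw [← zz_refl]
    simp only [au, zz_spec, map_sum, map_mul, Complex.conj_ofReal]
    refine Finset.sum_congr rfl fun i hi => ?_
    congr 1
    by_cases h : x ∈ zset (F i) (V1 i) (V2 i)
    · have h' := Y767.WH.PerChiE.zset_refl (hF i hi) (hV i hi) h
      rw [if_pos h, if_pos h', map_mul, Complex.conj_natCast, cc_conj, zz_refl,
        Y767.WH.PerChiE.mult_refl (hF i hi) h.1 h.2.1 (by linarith [hV i hi, h.2.2.1])]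
    · have h' : ¬ (1 - (starRingEnd ℂ) x) ∈ zset (F i) (V1 i) (V2 i) := by
        intro h2
        have h3 := Y767.WH.PerChiE.zset_refl (hF i hi) (hV i hi) h2
        apply h
        have e : 1 - (starRingEnd ℂ) (1 - (starRingEnd ℂ) x) = x := by simp
        rwa [e] at h3
      rw [if_neg h, if_neg h', map_zero]
  have hac' : ∀ z ∈ Z, (fun z => (c : ℂ) * au s ω F V1 V2 T z) ((starRingEnd ℂ) z) =
      (starRingEnd ℂ) ((fun z => (c : ℂ) * au s ω F V1 V2 T z) z) := by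
    intro z hz
    simp only [map_mul, Complex.conj_ofReal]
    rw [hac z hz]
  obtain ⟨E, i1, i2, k, hk⟩ := gram_w γ h0 hπ Λ
  have hmain := trace_w (phiw γ Λ) k hk (phiw_even γ Λ) (phiw_zero γ h0 hπ Λ) Z hZ
    (fun z => (c : ℂ) * au s ω F V1 V2 T z) hac' ∅ (Finset.empty_subset _)
    (fun z hz => absurd hz (Finset.notMem_empty z))
  rw [quad_form γ Λ hΛ (kapw_sq γ h0 hπ) (Rw_cont γ h0 hπ) (Rw_even γ) Z hZ
    (fun z => (c : ℂ) * au s ω F V1 V2 T z) hac'] at hmain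
  have hBB : ∀ u t : ℝ, ∑ z ∈ Z, (c : ℂ) * au s ω F V1 V2 T z *
      (cexp (I * u * z) * cexp (-(z - t) ^ 2 / 2)) = (c : ℂ) * ABB s ω F V1 V2 T u t := by
    intro u t
    have e := au_sum s ω F V1 V2 T hfin hU (fun z => cexp (I * u * z) * cexp (-(z - t) ^ 2 / 2))
    have e2 : ABB s ω F V1 V2 T u t = ∑ z ∈ Z, au s ω F V1 V2 T z *
        (cexp (I * u * z) * cexp (-(z - t) ^ 2 / 2)) := by
      rw [hZdef, e]
      rfl
    rw [e2, Finset.mul_sum]
    refine Finset.sum_congr rfl fun z _ => ?_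
    ring
  have hBB2 : ∀ u : ℝ, ∫ t : ℝ, ‖(c : ℂ) * ABB s ω F V1 V2 T u t‖ ^ 2 =
      c ^ 2 * ∫ t : ℝ, ‖ABB s ω F V1 V2 T u t‖ ^ 2 := by
    intro u
    rw [← integral_const_mul]
    refine integral_congr_ae (Filter.Eventually.of_forall fun t => ?_)
    simp only
    rw [norm_mul, mul_pow, Complex.norm_real, Real.norm_eq_abs, sq_abs]
  have hQ : (2 / (Real.sqrt Real.pi * Λ)) * (∫ u in (0 : ℝ)..Λ, Rw γ (u / Λ) *
      ∫ t : ℝ, ‖(c : ℂ) * ABB s ω F V1 V2 T u t‖ ^ 2) =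
      c ^ 2 * ((2 / (Real.sqrt Real.pi * Λ)) * (∫ u in (0 : ℝ)..Λ, Rw γ (u / Λ) *
          ∫ t : ℝ, ‖ABB s ω F V1 V2 T u t‖ ^ 2)) := by
    simp_rw [hBB2]
    have e : ∀ u : ℝ, Rw γ (u / Λ) * (c ^ 2 * ∫ t : ℝ, ‖ABB s ω F V1 V2 T u t‖ ^ 2) =
        c ^ 2 * (Rw γ (u / Λ) * ∫ t : ℝ, ‖ABB s ω F V1 V2 T u t‖ ^ 2) := by
      intro u; ring
    simp_rw [e]
    rw [intervalIntegral.integral_const_mul]
    ring
  simp only [hBB] at hmain
  rw [hQ] at hmain
  -- the sum of the weights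
  have hA : (∑ z ∈ Z, (c : ℂ) * au s ω F V1 V2 T z).re = c * ∑ i ∈ s, ω i *
      ∑ᶠ x ∈ zset (F i) (V1 i) (V2 i), (mult (F i) x : ℝ) * (cc T (zz x)).re := by
    have e := au_sum s ω F V1 V2 T hfin hU (fun _ => 1)
    simp only [mul_one] at e
    rw [← Finset.mul_sum, hZdef, e, Complex.re_ofReal_mul, Complex.re_sum]
    congr 1
    refine Finset.sum_congr rfl fun i hi => ?_
    rw [Complex.re_ofReal_mul, finsum_mem_eq_finite_toFinset_sum _ (hfin i hi),
      finsum_mem_eq_finite_toFinset_sum _ (hfin i hi), Complex.re_sum]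
    congr 1
    refine Finset.sum_congr rfl fun x _ => ?_
    rw [← Complex.ofReal_natCast, Complex.re_ofReal_mul]
  -- the count
  have hcount : (((Z \ ∅).filter (fun z => z.im = 0)).card : ℝ) +
      ((Z.filter (fun z => 0 < z.im)).card : ℝ) ≤
      (Set.ncard {x : ℂ | x ∈ UZ s F V1 V2 ∧ 1 / 2 ≤ x.re} : ℝ) := by
    rw [Finset.sdiff_empty, ← Nat.cast_add, ← Finset.card_union_of_disjoint]
    · have hfinS : {x : ℂ | x ∈ UZ s F V1 V2 ∧ 1 / 2 ≤ x.re}.Finite :=
        hU.subset fun x hx => hx.1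
      rw [Set.ncard_eq_toFinset_card _ hfinS]
      norm_cast
      refine Finset.card_le_card_of_injOn (fun z => 1 / 2 + I * (starRingEnd ℂ) z) ?_ ?_
      · intro z hz
        simp only [Finset.coe_union, Finset.coe_filter, Set.mem_union, Set.mem_setOf_eq] at hz
        have hz' : z ∈ Z ∧ 0 ≤ z.im := by
          rcases hz with h | h
          · exact ⟨h.1, h.2.ge⟩
          · exact ⟨h.1, h.2.le⟩
        obtain ⟨h1, h2⟩ := hz'
        have h3 := hZ z h1
        obtain ⟨x, hx, hxz⟩ := Finset.mem_image.mp h3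
        rw [Set.Finite.mem_toFinset] at hx
        simp only [Set.Finite.coe_toFinset, Set.mem_setOf_eq]
        refine ⟨?_, ?_⟩
        · rw [← hxz, zz_spec]; exact hx
        · simp; linarith
      · intro z _ w _ h
        simp only at h
        have h1 : I * (starRingEnd ℂ) z = I * (starRingEnd ℂ) w := add_left_cancel h
        have h2 := mul_left_cancel₀ I_ne_zero h1
        exact (starRingEnd ℂ).injective h2
    · rw [Finset.disjoint_left]
      intro z h1 h2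
      simp only [Finset.mem_filter] at h1 h2
      linarith [h1.2, h2.2]
  rw [hA, Finset.card_empty] at hmain
  simp only [Nat.cast_zero, mul_zero, sub_zero] at hmain
  linarith

end

end Pool.Agent.N784.DU
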