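import Pool.Agent.TH243.UNI.U5
import Pool.Agent.N784.DU.U1

/-!
Distinct zeros of the union of a family of L-functions of degree `d` (helper784; port of
`Pool.Agent.TH243.UNI.U5`): the cut-off number of zeros.
-/

open Complex Filter Topology Set MeasureTheory
open scoped BigOperators ComplexConjugate
open H370 (zset mult NN Nd Ns)

set_option autoImplicit false
set_option maxHeartbeats 4000000

namespace Pool.Agent.N784.DU

open H385 H385.PerChi
open Y767.WH
open Pool.Agent.W354 (LogC LQ_le one_le_LQ LQ_mono)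

/-- the cut-off count is not much smaller than the number of zeros -/
theorem mass_lower (d A : ℝ) (hd : 1 ≤ d) (hA : 1 ≤ A) :
    ∃ C : ℝ, 0 < C ∧ ∀ (lc : ℝ → ℝ) (F : ℂ → ℂ) (a : ℕ → ℂ), LogC lc → GoodH d A lc F a →
    ∀ T κ V1 V2 : ℝ, 3 ≤ κ → 8 * κ ≤ T → T - 3 * κ ≤ V1 → V1 ≤ T - 3 * κ + 1 →
      2 * T + 3 * κ - 1 ≤ V2 → V2 ≤ 2 * T + 3 * κ →
      (NN F T (2 * T) : ℝ) ≤
        (∑ᶠ x ∈ zset F V1 V2, (mult F x : ℝ) * (cc T (zz x)).re)
        + C * (κ + T * Real.exp (-κ ^ 2 / 2)) * lc T := by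
  obtain ⟨C0, hC0, hcount⟩ := zcount_long_E d A hd hA
  refine ⟨240 * C0, by positivity, ?_⟩
  intro lc F a hQ hFU T κ V1 V2 hκ hκT hV1 hV1' hV2 hV2'
  have hV1pos : 15 ≤ V1 := by linarith
  have hT24 : 24 ≤ T := by linarith
  have hfinV : (zset F V1 V2).Finite := zset_finite_E hA hQ hFU V1 V2 (by linarith)
  have hfin : (zset F T (2 * T)).Finite := zset_finite_E hA hQ hFU T _ (by linarith)
  set e := Real.exp (-κ ^ 2 / 2) with he
  have he0 : 0 < e := Real.exp_pos _
  have hNV := hcount lc F a hQ hFU V1 V2 (by linarith) (by linarith)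
  have hNa := hcount lc F a hQ hFU V1 (T + κ) (by linarith) (by linarith)
  have hNb := hcount lc F a hQ hFU (2 * T - κ) V2 (by linarith) (by linarith)
  set L := lc T with hL
  have hL0 : 0 ≤ L := hQ.nonneg (by linarith)
  have l1 : lc V2 ≤ 2 * L := Y767.WH.PerChiE.log_bd hQ (by linarith) (by linarith) (by linarith)
  have l2 : lc (T + κ) ≤ 2 * L := Y767.WH.PerChiE.log_bd hQ (by linarith) (by linarith) (by linarith)
  have aux : ∀ x y z w : ℝ, 0 ≤ y → x ≤ y → z ≤ 2 * L → 0 ≤ z → w ≤ C0 * x * z →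
      w ≤ C0 * y * (2 * L) := by
    intro x y z w hy hxy hz hz0 hw
    refine hw.trans ?_
    have h1 : C0 * x * z ≤ C0 * y * z := by gcongr
    refine h1.trans ?_
    gcongr
  have p1 : 0 ≤ lc V2 := hQ.nonneg (by linarith)
  have p2 : 0 ≤ lc (T + κ) := hQ.nonneg (by linarith)
  have b1 : (NN F V1 V2 : ℝ) ≤ C0 * (2 * T) * (2 * L) :=
    aux _ _ _ _ (by linarith) (by linarith) l1 p1 hNV
  have b2 : (NN F V1 (T + κ) : ℝ) ≤ C0 * (4 * κ) * (2 * L) :=
    aux _ _ _ _ (by linarith) (by linarith) l2 p2 hNa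
  have b3 : (NN F (2 * T - κ) V2 : ℝ) ≤ C0 * (4 * κ) * (2 * L) :=
    aux _ _ _ _ (by linarith) (by linarith) l1 p1 hNb
  have n1 : (NN F V1 V2 : ℝ) = ∑ s ∈ hfinV.toFinset, (mult F s : ℝ) := by
    unfold NN
    rw [finsum_mem_eq_finite_toFinset_sum _ hfinV]
    push_cast; rfl
  have n2 : (NN F V1 (T + κ) : ℝ) =
      ∑ s ∈ hfinV.toFinset, if s.im ≤ T + κ then (mult F s : ℝ) else 0 := by
    have hf : (zset F V1 (T + κ)).Finite := zset_finite_E hA hQ hFU V1 _ (by linarith)
    unfold NN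
    rw [finsum_mem_eq_finite_toFinset_sum _ hf, ← Finset.sum_filter]
    push_cast
    refine Finset.sum_congr ?_ fun _ _ => rfl
    ext s
    simp only [Finset.mem_filter, Set.Finite.mem_toFinset]
    constructor
    · rintro ⟨h1, h2, h3, h4, h5⟩
      exact ⟨⟨h1, h2, h3, by linarith, h5⟩, h4⟩
    · rintro ⟨⟨h1, h2, h3, h4, h5⟩, h6⟩
      exact ⟨h1, h2, h3, h6, h5⟩
  have n3 : (NN F (2 * T - κ) V2 : ℝ) =
      ∑ s ∈ hfinV.toFinset, if 2 * T - κ < s.im then (mult F s : ℝ) else 0 := by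
    have hf : (zset F (2 * T - κ) V2).Finite := zset_finite_E hA hQ hFU _ _ (by linarith)
    unfold NN
    rw [finsum_mem_eq_finite_toFinset_sum _ hf, ← Finset.sum_filter]
    push_cast
    refine Finset.sum_congr ?_ fun _ _ => rfl
    ext s
    simp only [Finset.mem_filter, Set.Finite.mem_toFinset]
    constructor
    · rintro ⟨h1, h2, h3, h4, h5⟩
      exact ⟨⟨h1, h2, by linarith, h4, h5⟩, h3⟩
    · rintro ⟨⟨h1, h2, h3, h4, h5⟩, h6⟩
      exact ⟨h1, h2, h6, h4, h5⟩
  have n4 : (NN F T (2 * T) : ℝ) =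
      ∑ s ∈ hfinV.toFinset, if T < s.im ∧ s.im ≤ 2 * T then (mult F s : ℝ) else 0 := by
    unfold NN
    rw [finsum_mem_eq_finite_toFinset_sum _ hfin, ← Finset.sum_filter]
    push_cast
    refine Finset.sum_congr ?_ fun _ _ => rfl
    ext s
    simp only [Finset.mem_filter, Set.Finite.mem_toFinset]
    constructor
    · rintro ⟨h1, h2, h3, h4, h5⟩
      exact ⟨⟨h1, h2, by linarith, by linarith, h5⟩, h3, h4⟩
    · rintro ⟨⟨h1, h2, h3, h4, h5⟩, h6, h7⟩
      exact ⟨h1, h2, h6, h7, h5⟩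
  have hpt : ∀ s ∈ hfinV.toFinset, (if T < s.im ∧ s.im ≤ 2 * T then (mult F s : ℝ) else 0) ≤
      (mult F s : ℝ) * (cc T (zz s)).re + 2 * e * (mult F s : ℝ) +
        3 * (if s.im ≤ T + κ then (mult F s : ℝ) else 0) +
        3 * (if 2 * T - κ < s.im then (mult F s : ℝ) else 0) := by
    intro s hs
    have hm' : (0 : ℝ) ≤ (mult F s : ℝ) := Nat.cast_nonneg _
    rw [Set.Finite.mem_toFinset] at hs
    have him : |(zz s).im| ≤ 1 / 2 := by
      rw [PerChi.zz_im, abs_le]; constructor <;> linarith [hs.1, hs.2.1]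
    have hcre : -2 ≤ (cc T (zz s)).re := by
      have h3 := cc_bound T (by linarith) (zz s) him
      have h4 := Complex.abs_re_le_norm (cc T (zz s))
      linarith [neg_abs_le (cc T (zz s)).re]
    have hX3 : (if T < s.im ∧ s.im ≤ 2 * T then (mult F s : ℝ) else 0) ≤ (mult F s : ℝ) := by
      split_ifs
      · exact le_rfl
      · exact hm'
    have hedge : (mult F s : ℝ) ≤
        (mult F s : ℝ) * (cc T (zz s)).re + 2 * e * (mult F s : ℝ) + 3 * (mult F s : ℝ) := by
      have h5 : (mult F s : ℝ) * (-2) ≤ (mult F s : ℝ) * (cc T (zz s)).re :=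
        mul_le_mul_of_nonneg_left hcre hm'
      have h6 : 0 ≤ 2 * e * (mult F s : ℝ) := by positivity
      linarith
    by_cases c1 : s.im ≤ T + κ
    · rw [if_pos c1]
      have h7 : 0 ≤ 3 * (if 2 * T - κ < s.im then (mult F s : ℝ) else 0) := by
        split_ifs <;> positivity
      linarith
    · rw [if_neg c1]
      by_cases c2 : 2 * T - κ < s.im
      · rw [if_pos c2]
        linarith
      · rw [if_neg c2]
        push Not at c1 c2
        have h8 := cc_near T κ (by linarith) (zz s) him (by rw [PerChi.zz_re]; linarith)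
          (by rw [PerChi.zz_re]; linarith)
        have h9 : 1 - 2 * e ≤ (cc T (zz s)).re := by
          have h10 := Complex.abs_re_le_norm (cc T (zz s) - 1)
          rw [Complex.sub_re, Complex.one_re] at h10
          linarith [neg_abs_le ((cc T (zz s)).re - 1)]
        have h11 : (mult F s : ℝ) * (1 - 2 * e) ≤ (mult F s : ℝ) * (cc T (zz s)).re :=
          mul_le_mul_of_nonneg_left h9 hm'
        linarith
  have hsum := Finset.sum_le_sum hpt
  rw [← n4] at hsum
  rw [Finset.sum_add_distrib, Finset.sum_add_distrib, Finset.sum_add_distrib, ← Finset.mul_sum,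
    ← Finset.mul_sum, ← Finset.mul_sum, ← n1, ← n2, ← n3] at hsum
  rw [finsum_mem_eq_finite_toFinset_sum _ hfinV]
  calc (NN F T (2 * T) : ℝ) ≤ _ := hsum
    _ ≤ (∑ s ∈ hfinV.toFinset, (mult F s : ℝ) * (cc T (zz s)).re) +
          2 * e * (C0 * (2 * T) * (2 * L)) +
          3 * (C0 * (4 * κ) * (2 * L)) + 3 * (C0 * (4 * κ) * (2 * L)) := by
        gcongr
    _ ≤ _ := by
        have k1 : 0 ≤ C0 * T * e * L := by positivity
        have hκ0 : 0 ≤ κ := by linarith
        have k2 : 0 ≤ C0 * κ * L := by positivity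
        have e1 : 240 * C0 * (κ + T * e) * L = 240 * (C0 * κ * L) + 240 * (C0 * T * e * L) := by ring
        have e2 : 2 * e * (C0 * (2 * T) * (2 * L)) + 3 * (C0 * (4 * κ) * (2 * L)) +
            3 * (C0 * (4 * κ) * (2 * L)) = 8 * (C0 * T * e * L) + 48 * (C0 * κ * L) := by ring
        linarith


end Pool.Agent.N784.DU
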