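import Pool.Agent.N784.DU.U2
import Pool.Agent.N784.DU.U3
import Pool.Agent.N784.DU.U5
import Pool.Agent.N784.AD.CoreP
import Pool.Agent.TH243.UNI.U7

/-!
Distinct zeros of the union of a family of L-functions of degree `d` (helper784): the number of the
distinct zeros from the mean square of the averaged prime sum.
-/

open Complex Filter Topology Set MeasureTheory
open H370 (zset mult NN Nd Ns)

set_option autoImplicit false
set_option maxHeartbeats 4000000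

namespace Pool.Agent.N784.DU

open H385
open Y767.WH
open Pool.Agent.W354 (LogC)
open W388.LV (CoefE)
open Pool.Agent.TH243.UNI (ABB APf UZ uni_num Rw_small)

/-- mean square data of the averaged prime sum -/
def MSU {ι : Type} (s : Finset ι) (ω : ι → ℝ) (a : ι → ℕ → ℂ) (γ ε L Λ T : ℝ) : Prop :=
  ∃ (Yf : ℝ → ℝ) (y1 y2 : ℝ), 0 ≤ y1 ∧ 0 ≤ y2 ∧
    (∀ u ∈ Set.Icc 0 Λ, ∫ t : ℝ, ‖APf s ω a T u t‖ ^ 2 ≤ Yf u) ∧
    (∀ u ∈ Set.Icc 0 Λ, Yf u ≤ T * (y1 * (u + 1) + y2)) ∧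
    IntervalIntegrable Yf volume 0 Λ ∧
    (2 / (Real.sqrt Real.pi * Λ)) * (∫ u in (0 : ℝ)..Λ, Rw γ (u / Λ) * Yf u) ≤ ε * T * L ∧
    Real.sqrt y1 + Real.sqrt y2 ≤ ε * L

theorem abs_union (d A : ℝ) (hd : 1 ≤ d) (hA : 1 ≤ A) (ε c0 : ℝ) (hε : 0 < ε) (hε1 : ε < 1)
    (hc0 : 0 < c0) :
    ∃ γ ε1 η L0 : ℝ, 0 < γ ∧ γ < Real.pi ∧ 0 < ε1 ∧ 0 < η ∧ η ≤ 1 ∧ 8 ≤ L0 ∧
    ∀ {ι : Type} (s : Finset ι) (ω : ι → ℝ) (lc : ι → ℝ → ℝ) (F : ι → ℂ → ℂ) (a : ι → ℕ → ℂ)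
      (L Λ T : ℝ), L0 ≤ L → L ^ 2 ≤ T → T ≤ Real.exp (L ^ 2 / 2) →
      (∀ i ∈ s, 0 ≤ ω i ∧ LogC (lc i) ∧ GoodH d A (lc i) (F i) (a i) ∧
        lc i T ≤ (1 + η) * L) →
      ∑ i ∈ s, ω i = 1 →
      (1 - η) * L ≤ ∑ i ∈ s, ω i * lc i T → c0 * L ≤ Λ → Λ ≤ 2 * d * L →
      MSU s ω a γ ε1 L Λ T →
      (1 - ε) * (Λ * (T / (2 * Real.pi))) ≤
        (Set.ncard {x : ℂ | (∃ i ∈ s, x ∈ zset (F i) (T - 3 * L) (2 * T + 3 * L)) ∧
          1 / 2 ≤ x.re} : ℝ) := by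
  classical
  have hpi := Real.pi_pos
  obtain ⟨e1, he1⟩ : ∃ e1 : ℝ, e1 = ε / 8 := ⟨_, rfl⟩
  have he10 : 0 < e1 := by rw [he1]; positivity
  have he11 : e1 < 1 / 8 := by rw [he1]; linarith
  obtain ⟨γ, h0, hπ, hR0⟩ := Rw_small e1 he10
  obtain ⟨K, hK, hcore⟩ := un_core γ h0 hπ d A hd hA
  obtain ⟨C1, hC1, hmass⟩ := mass_lower d A hd hA
  obtain ⟨C3, hC3, hlow⟩ := N_lower_E d A hd hA
  have hd0 : 0 < d := by linarith
  obtain ⟨ε1, hε1d⟩ : ∃ ε1 : ℝ, ε1 = e1 / (64 * (K + 1)) := ⟨_, rfl⟩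
  have hε10 : 0 < ε1 := by rw [hε1d]; positivity
  have hε1a : ε1 ≤ e1 / 64 := by
    rw [hε1d]; apply div_le_div_of_nonneg_left he10.le (by norm_num); linarith
  have hε1b : K * ε1 ≤ e1 / 64 := by
    rw [hε1d]
    calc K * (e1 / (64 * (K + 1))) ≤ (K + 1) * (e1 / (64 * (K + 1))) := by gcongr; linarith
      _ = e1 / 64 := by field_simp
  obtain ⟨L0, hL0⟩ : ∃ L0 : ℝ, L0 = 8 + 5 * (2 * d) + 1 / (2 * d) + 1 / c0 + 32 * K / e1 +
    32 * (C1 + C3) / e1 := ⟨_, rfl⟩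
  have q1 : 0 ≤ 1 / (2 * d) := by positivity
  have q2 : 0 ≤ 1 / c0 := by positivity
  have q3 : 0 ≤ 32 * K / e1 := by positivity
  have q4 : 0 ≤ 32 * (C1 + C3) / e1 := by positivity
  refine ⟨γ, ε1, e1 / 2, L0, h0, hπ, hε10, by positivity, by linarith, by linarith, ?_⟩
  intro ι s ω lc F a L Λ T hL hT1 hT2 hs hω1 hcond hΛ1 hΛ2 hms
  obtain ⟨η, hη⟩ : ∃ η : ℝ, η = e1 / 2 := ⟨_, rfl⟩
  rw [← hη] at hs hcond
  have hη0 : 0 < η := by rw [hη]; positivity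
  have hη1 : η ≤ 1 := by rw [hη]; linarith
  have hL8 : 8 ≤ L := by linarith
  have hLpos : 0 < L := by linarith
  have hTe : L ^ 2 ≤ Real.exp (1 * L) := by
    have h1 := Real.quadratic_le_exp_of_nonneg (show 0 ≤ L / 2 by linarith)
    have h2 : Real.exp (1 * L) = Real.exp (L / 2) * Real.exp (L / 2) := by
      rw [← Real.exp_add]; congr 1; ring
    rw [h2]
    have h3 : L ≤ Real.exp (L / 2) := by nlinarith
    nlinarith
  obtain ⟨p1, p2', -, p4, p5, p6⟩ := H385.param_ok (2 * d) L (L ^ 2) 1 (by positivity) (by linarith)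
    (by linarith) (by linarith) le_rfl hTe
  obtain ⟨-, -, -, -, p5', -⟩ := H385.param_ok (5 / 4 * (2 * d)) L (L ^ 2) 1 (by positivity)
    (by linarith) (by linarith) (by
      have h1 : 1 / (2 * d) ≤ L := by linarith
      refine le_trans ?_ h1
      apply one_div_le_one_div_of_le (by positivity)
      linarith) le_rfl hTe
  have p2 : 8 * L ≤ T := p2'.trans hT1
  have hTpos : 0 < T := by linarith
  have hLm : (1 + η) * L ≤ 3 * L := mul_le_mul_of_nonneg_right (by linarith) hLpos.le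
  have hLm' : (1 + η) * L ≤ 2 * L := mul_le_mul_of_nonneg_right (by linarith) hLpos.le
  have hLmL : L ≤ (1 + η) * L := le_mul_of_one_le_left hLpos.le (by linarith)
  have hLm1 : 1 ≤ (1 + η) * L := by linarith
  have hLm0 : 0 ≤ (1 + η) * L := by linarith
  have hLm2 : ((1 + η) * L) ^ 2 ≤ 9 * L ^ 2 := by
    have h0 : ((1 + η) * L) ^ 2 ≤ (3 * L) ^ 2 := pow_le_pow_left₀ hLm0 hLm 2
    linarith [show (3 * L) ^ 2 = 9 * L ^ 2 by ring]
  have hΛ11 : 1 ≤ Λ := by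
    refine le_trans ?_ hΛ1
    have h1 : 1 / c0 ≤ L := by linarith
    rwa [div_le_iff₀ hc0, mul_comm] at h1
  have hΛ0 : 0 < Λ := by linarith
  have hexp : ((1 + η) * L) ^ 2 * Real.exp (5 / 4 * Λ - L ^ 2 / 2) ≤ Real.exp (-Λ) := by
    refine le_trans (mul_le_mul_of_nonneg_right hLm2 (Real.exp_pos _).le) ?_
    have e1 : Real.exp (5 / 4 * Λ - L ^ 2 / 2) ≤
        Real.exp (5 / 4 * (2 * d) * L - L ^ 2 / 2) := by
      apply Real.exp_le_exp.mpr; nlinarith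
    refine (mul_le_mul_of_nonneg_left e1 (by positivity)).trans (p5'.trans (Real.exp_le_exp.2 ?_))
    have : 0 ≤ d * L := by positivity
    nlinarith
  obtain ⟨Yf, y1, y2, hy1, hy2, m1, m2, m3, m4, m5⟩ := hms
  obtain ⟨V1, V2, hV, hQ0⟩ := hcore s ω lc F a T L Λ ((1 + η) * L) y1 y2 Yf hs hω1 p1 p2 hT2 hΛ11
    hLm1 hexp hy1 hy2 m1 m2 m3
  have hgd : ∀ i ∈ s, GoodH d A (lc i) (F i) (a i) := fun i hi => (hs i hi).2.2.1
  have hfin : ∀ i ∈ s, (zset (F i) (V1 i) (V2 i)).Finite := fun i hi => (hV i hi).1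
  have hV1 : ∀ i ∈ s, 1 ≤ V1 i := by
    intro i hi
    have := (hV i hi).2.1
    linarith
  have hcontu := ABB_cont_u s ω F V1 V2 T hgd hV1 hfin
  have hQ := hQ0 hcontu
  have htr := un_trace s ω F V1 V2 T γ h0 hπ Λ hΛ0 hgd hV1 hfin
  obtain ⟨Qi, hQi⟩ : ∃ Qi : ℝ, Qi = (2 / (Real.sqrt Real.pi * Λ)) * (∫ u in (0 : ℝ)..Λ,
    Rw γ (u / Λ) * ∫ t : ℝ, ‖ABB s ω F V1 V2 T u t‖ ^ 2) := ⟨_, rfl⟩
  rw [← hQi] at hQ htr
  obtain ⟨U, hU⟩ : ∃ U : ℝ, U = T / (2 * Real.pi) := ⟨_, rfl⟩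
  have hU0 : 0 < U := by rw [hU]; positivity
  have hTU8 : T ≤ 8 * U := by
    rw [hU]
    have : T = T / (2 * Real.pi) * (2 * Real.pi) := by field_simp
    have h8 : 2 * Real.pi ≤ 8 := by linarith [Real.pi_lt_four]
    calc T = T / (2 * Real.pi) * (2 * Real.pi) := this
      _ ≤ T / (2 * Real.pi) * 8 := mul_le_mul_of_nonneg_left h8 (by positivity)
      _ = _ := by ring
  obtain ⟨M, hM⟩ : ∃ M : ℝ, M = d * ((1 + η) * L) := ⟨_, rfl⟩
  rw [← hM] at hQ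
  have hML : L ≤ M := by
    rw [hM]
    exact hLmL.trans (le_mul_of_one_le_left hLm0 hd)
  have hdLM : d * L ≤ M := by rw [hM]; exact mul_le_mul_of_nonneg_left hLmL hd0.le
  have hM0 : 0 < M := by linarith
  have hMΛ : 0 ≤ M ^ 2 / Λ := by positivity
  -- bound of `Qi`
  have hbig : M * U / 2 ≤ M ^ 2 * U / Λ := by
    rw [div_le_div_iff₀ (by norm_num) hΛ0]
    have h1 : Λ ≤ 2 * M := by linarith
    have h2 : 0 ≤ M * U := by positivity
    calc M * U * Λ ≤ M * U * (2 * M) := mul_le_mul_of_nonneg_left h1 h2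
      _ = _ := by ring
  have hKL : 32 * K ≤ e1 * L := by
    have : 32 * K / e1 ≤ L := by linarith
    rw [div_le_iff₀ he10] at this
    linarith
  have hCL : 32 * (C1 + C3) ≤ e1 * L := by
    have : 32 * (C1 + C3) / e1 ≤ L := by linarith
    rw [div_le_iff₀ he10] at this
    linarith
  have hQbound : Qi ≤ M ^ 2 * Rw γ 0 * T / (2 * Real.pi * Λ) + e1 * (M ^ 2 * U / Λ) := by
    refine hQ.trans ?_
    have r1 : ε1 * T * L ≤ e1 / 4 * (M ^ 2 * U / Λ) := by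
      calc ε1 * T * L ≤ e1 / 64 * (8 * U) * M := by gcongr
        _ = e1 / 4 * (M * U / 2) := by ring
        _ ≤ _ := mul_le_mul_of_nonneg_left hbig (by positivity)
    have r2 : K * (M ^ 2 * L / Λ) ≤ e1 / 4 * (M ^ 2 * U / Λ) := by
      have h1 : K * L ≤ e1 / 4 * U := by
        have h2 : 32 * (K * L) ≤ e1 * (8 * U) := by
          calc 32 * (K * L) = 32 * K * L := by ring
            _ ≤ e1 * L * L := mul_le_mul_of_nonneg_right hKL hLpos.le
            _ = e1 * L ^ 2 := by ring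
            _ ≤ e1 * T := mul_le_mul_of_nonneg_left hT1 he10.le
            _ ≤ _ := mul_le_mul_of_nonneg_left hTU8 he10.le
        linarith
      calc K * (M ^ 2 * L / Λ) = M ^ 2 / Λ * (K * L) := by ring
        _ ≤ M ^ 2 / Λ * (e1 / 4 * U) := mul_le_mul_of_nonneg_left h1 hMΛ
        _ = _ := by ring
    have r3 : K * (M * T / Λ) ≤ e1 / 4 * (M ^ 2 * U / Λ) := by
      have h1 : K * T ≤ e1 / 4 * (M * U) := by
        have h2 : 32 * (K * T) ≤ e1 * (8 * (M * U)) := by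
          calc 32 * (K * T) = 32 * K * T := by ring
            _ ≤ e1 * M * (8 * U) := mul_le_mul (hKL.trans (mul_le_mul_of_nonneg_left hML he10.le))
                hTU8 hTpos.le (by positivity)
            _ = _ := by ring
        linarith
      calc K * (M * T / Λ) = M / Λ * (K * T) := by ring
        _ ≤ M / Λ * (e1 / 4 * (M * U)) := mul_le_mul_of_nonneg_left h1 (by positivity)
        _ = _ := by ring
    have r4 : K * (M * T * (Real.sqrt y1 + Real.sqrt y2) / Λ) ≤ e1 / 4 * (M ^ 2 * U / Λ) := by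
      have h1 : K * (ε1 * L) ≤ e1 / 64 * M := by
        calc K * (ε1 * L) = K * ε1 * L := by ring
          _ ≤ e1 / 64 * M := mul_le_mul hε1b hML hLpos.le (by positivity)
      calc K * (M * T * (Real.sqrt y1 + Real.sqrt y2) / Λ) ≤ K * (M * T * (ε1 * L) / Λ) := by
            gcongr
        _ = M / Λ * (K * (ε1 * L)) * T := by ring
        _ ≤ M / Λ * (e1 / 64 * M) * (8 * U) := by gcongr
        _ = e1 / 8 * (M ^ 2 * U / Λ) := by ring
        _ ≤ _ := by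
            have : 0 ≤ M ^ 2 * U / Λ := by positivity
            exact mul_le_mul_of_nonneg_right (by linarith) this
    have r5 : K * (M ^ 2 * L / Λ + M * T / Λ + M * T * (Real.sqrt y1 + Real.sqrt y2) / Λ) =
        K * (M ^ 2 * L / Λ) + K * (M * T / Λ) +
          K * (M * T * (Real.sqrt y1 + Real.sqrt y2) / Λ) := by ring
    rw [r5]
    have r6 : e1 * (M ^ 2 * U / Λ) = e1 / 4 * (M ^ 2 * U / Λ) + e1 / 4 * (M ^ 2 * U / Λ) +
      e1 / 4 * (M ^ 2 * U / Λ) + e1 / 4 * (M ^ 2 * U / Λ) := by ring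
    rw [r6]
    linarith
  -- lower bound of the mass
  obtain ⟨SA, hSA⟩ : ∃ SA : ℝ, SA = ∑ i ∈ s, ω i *
      ∑ᶠ x ∈ zset (F i) (V1 i) (V2 i), (mult (F i) x : ℝ) * (cc T (zz x)).re := ⟨_, rfl⟩
  rw [← hSA] at htr
  have hTexp : T * Real.exp (-L ^ 2 / 2) ≤ 1 := by
    calc T * Real.exp (-L ^ 2 / 2) ≤ Real.exp (L ^ 2 / 2) * Real.exp (-L ^ 2 / 2) := by gcongr
      _ = 1 := by rw [← Real.exp_add]; simp; ring
  have hmassb : (1 - 2 * e1) * (U * M) ≤ SA := by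
    have r2 : ∀ i ∈ s, ω i * (U * (d * lc i T) - 4 * (C1 + C3) * T) ≤
        ω i * ∑ᶠ x ∈ zset (F i) (V1 i) (V2 i), (mult (F i) x : ℝ) * (cc T (zz x)).re := by
      intro i hi
      obtain ⟨v0, v1, v2, v3, v4⟩ := hV i hi
      obtain ⟨w0, w1, w2, w3⟩ := hs i hi
      refine mul_le_mul_of_nonneg_left ?_ w0
      have k1 := hmass (lc i) (F i) (a i) w1 w2 T L (V1 i) (V2 i) p1 p2 v1 v2 v3 v4
      have k2 := hlow (lc i) (F i) (a i) w1 w2 T L p1 p2
      rw [← hU] at k2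
      have hl0 : 0 ≤ lc i T := w1.nonneg (by linarith)
      have hl2 : lc i T ≤ 2 * L := w3.trans hLm'
      have k3 : (L + T * Real.exp (-L ^ 2 / 2)) * lc i T ≤ 4 * T := by
        calc (L + T * Real.exp (-L ^ 2 / 2)) * lc i T ≤ (L + L) * (2 * L) := by
              gcongr
              linarith
          _ = 4 * L ^ 2 := by ring
          _ ≤ 4 * T := by linarith
      have k4 : T * lc i T ^ 2 * Real.exp (-L ^ 2 / 2) ≤ T := by
        have b1 : lc i T ^ 2 ≤ (3 * L) ^ 2 := pow_le_pow_left₀ hl0 (by linarith) 2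
        have b2 : lc i T ^ 2 * Real.exp (-L ^ 2 / 2) ≤ 1 := by
          refine le_trans (mul_le_mul_of_nonneg_right b1 (Real.exp_pos _).le) ?_
          rw [show (3 * L) ^ 2 = 9 * L ^ 2 by ring]; exact p6
        calc _ = T * (lc i T ^ 2 * Real.exp (-L ^ 2 / 2)) := by ring
          _ ≤ T * 1 := mul_le_mul_of_nonneg_left b2 hTpos.le
          _ = T := mul_one T
      have k5 : L * lc i T ≤ 2 * T := by
        calc L * lc i T ≤ L * (2 * L) := mul_le_mul_of_nonneg_left hl2 hLpos.le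
          _ = 2 * L ^ 2 := by ring
          _ ≤ _ := by linarith
      have k6 : C3 * (T + L * lc i T + T * lc i T ^ 2 * Real.exp (-L ^ 2 / 2)) ≤ C3 * (4 * T) :=
        mul_le_mul_of_nonneg_left (by linarith) hC3.le
      have k7 : C1 * ((L + T * Real.exp (-L ^ 2 / 2)) * lc i T) ≤ C1 * (4 * T) :=
        mul_le_mul_of_nonneg_left k3 hC1.le
      have k8 : C1 * (L + T * Real.exp (-L ^ 2 / 2)) * lc i T =
        C1 * ((L + T * Real.exp (-L ^ 2 / 2)) * lc i T) := by ring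
      rw [k8] at k1
      linarith
    have r3 := Finset.sum_le_sum r2
    rw [← hSA] at r3
    have r4 : ∑ i ∈ s, ω i * (U * (d * lc i T) - 4 * (C1 + C3) * T) =
        U * d * (∑ i ∈ s, ω i * lc i T) - 4 * (C1 + C3) * T := by
      have : ∀ i ∈ s, ω i * (U * (d * lc i T) - 4 * (C1 + C3) * T) =
          U * d * (ω i * lc i T) - ω i * (4 * (C1 + C3) * T) := fun i _ => by ring
      rw [Finset.sum_congr rfl this, Finset.sum_sub_distrib, ← Finset.mul_sum, ← Finset.sum_mul,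
        hω1, one_mul]
    rw [r4] at r3
    have r5 : U * d * ((1 - η) * L) ≤ U * d * (∑ i ∈ s, ω i * lc i T) :=
      mul_le_mul_of_nonneg_left hcond (by positivity)
    have r6 : 4 * (C1 + C3) * T ≤ e1 * (U * d * L) := by
      have h1 : 32 * (C1 + C3) * T ≤ e1 * L * (8 * U) :=
        mul_le_mul hCL hTU8 hTpos.le (by positivity)
      have h2 : e1 * (U * L) ≤ e1 * (U * d * L) := by
        apply mul_le_mul_of_nonneg_left _ he10.le
        calc U * L = U * 1 * L := by ring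
          _ ≤ U * d * L := by gcongr
      have h3 : e1 * L * (8 * U) = 8 * (e1 * (U * L)) := by ring
      rw [h3] at h1
      linarith
    have r7 : (1 - 2 * e1) * (U * M) ≤ U * d * ((1 - η) * L) - e1 * (U * d * L) := by
      rw [hM, hη]
      have h1 : U * d * ((1 - e1 / 2) * L) - e1 * (U * d * L) -
          (1 - 2 * e1) * (U * (d * ((1 + e1 / 2) * L))) = U * d * L * e1 ^ 2 := by ring
      have h2 : 0 ≤ U * d * L * e1 ^ 2 := by positivity
      linarith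
    linarith
  have hfinal := uni_num e1 (Rw γ 0) Λ M U SA Qi _ T he10 hR0 hΛ0 hM0 hU hTpos hmassb hQbound htr
  have hsub : {x : ℂ | x ∈ UZ s F V1 V2 ∧ 1 / 2 ≤ x.re} ⊆
      {x : ℂ | (∃ i ∈ s, x ∈ zset (F i) (T - 3 * L) (2 * T + 3 * L)) ∧ 1 / 2 ≤ x.re} := by
    rintro x ⟨⟨i, hi, hx⟩, hre⟩
    obtain ⟨v0, v1, v2, v3, v4⟩ := hV i hi
    obtain ⟨x1, x2, x3, x4, x5⟩ := hx
    exact ⟨⟨i, hi, x1, x2, by linarith, by linarith, x5⟩, hre⟩
  have hfinB : {x : ℂ | (∃ i ∈ s, x ∈ zset (F i) (T - 3 * L) (2 * T + 3 * L)) ∧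
      1 / 2 ≤ x.re}.Finite := by
    have hall : (⋃ i ∈ (s : Set ι), zset (F i) (T - 3 * L) (2 * T + 3 * L)).Finite :=
      s.finite_toSet.biUnion fun i hi => zset_finite_E hA (hs i hi).2.1 (hgd i hi) _ _ (by linarith)
    refine hall.subset ?_
    rintro x ⟨⟨i, hi, hx⟩, -⟩
    exact Set.mem_biUnion hi hx
  have hncard : ((Set.ncard {x : ℂ | x ∈ UZ s F V1 V2 ∧ 1 / 2 ≤ x.re} : ℕ) : ℝ) ≤
      (Set.ncard {x : ℂ | (∃ i ∈ s, x ∈ zset (F i) (T - 3 * L) (2 * T + 3 * L)) ∧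
          1 / 2 ≤ x.re} : ℝ) := by
    exact_mod_cast Set.ncard_le_ncard hsub hfinB
  refine le_trans ?_ (hfinal.trans hncard)
  rw [← hU]
  have hUΛ : 0 ≤ Λ * U := by positivity
  have e9 : Λ * U * (1 - 6 * e1) = (1 - 6 * e1) * (Λ * U) := by ring
  rw [e9]
  refine mul_le_mul_of_nonneg_right ?_ hUΛ
  rw [he1]; linarith

end Pool.Agent.N784.DU
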